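import Mathlib

namespace Pool.Agent.H19

open Module

theorem exists_adapted_basis {κ V : Type*} [Field κ] [AddCommGroup V] [Module κ V]
    (Fil : ℕ → Submodule κ V) (hanti : Antitone Fil) (h0 : Fil 0 = ⊤) (N : ℕ)
    (hN : Fil N = ⊥) :
    ∃ (s : Set V) (v : Basis s κ V) (ℓ : s → ℕ), (∀ i, v i ∈ Fil (ℓ i)) ∧
      ∀ r, ∀ x ∈ Fil r, ∀ i, v.repr x i ≠ 0 → r ≤ ℓ i := by
  classical
  have P : ∀ r : ℕ, ∃ (s : Set V) (ℓ : V → ℕ), LinearIndepOn κ id s ∧
      Submodule.span κ s = Fil (N - r) ∧ (∀ a ∈ s, a ∈ Fil (ℓ a)) ∧ (∀ a ∈ s, N - r ≤ ℓ a) ∧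
      ∀ r', N - r ≤ r' → ∀ x ∈ Fil r', x ∈ Submodule.span κ {a | a ∈ s ∧ r' ≤ ℓ a} := by
    intro r
    induction r with
    | zero =>
      refine ⟨∅, fun _ => 0, linearIndepOn_empty κ id, by simp [hN], by simp, by simp, ?_⟩
      intro r' hr' x hx
      have : Fil r' ≤ ⊥ := hN ▸ hanti (by simpa using hr')
      have hx0 : x = 0 := by simpa using this hx
      rw [hx0]; exact Submodule.zero_mem _
    | succ r ih =>
      obtain ⟨s, ℓ, hli, hsp, hmem, hge, hfil⟩ := ih
      rcases Nat.lt_or_ge r N with hr | hr
      · have hM : N - (r + 1) + 1 = N - r := by omega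
        set M := N - (r + 1) with hMdef
        have hsM : s ⊆ (Fil M : Set V) := by
          intro a ha
          have : a ∈ Fil (N - r) := by rw [← hsp]; exact Submodule.subset_span ha
          exact hanti (by omega) this
        obtain ⟨b, hbt, hsb, htb, hb⟩ := exists_linearIndepOn_extension hli hsM
        refine ⟨b, fun a => if a ∈ s then ℓ a else M, hb, ?_, ?_, ?_, ?_⟩
        · apply le_antisymm
          · exact Submodule.span_le.2 hbt
          · intro x hx
            have := htb (Set.mem_image_of_mem id hx)
            simpa using this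
        · intro a ha
          by_cases has : a ∈ s
          · simpa [has] using hmem a has
          · simpa [has] using hbt ha
        · intro a ha
          by_cases has : a ∈ s
          · have := hge a has
            simp only [has, if_true]; omega
          · simp [has]
        · intro r' hr' x hx
          rcases Nat.lt_or_ge r' (M + 1) with h | h
          · have hrM : r' = M := by omega
            subst hrM
            have hx' : x ∈ Submodule.span κ (id '' b) := htb (Set.mem_image_of_mem id hx)
            refine Submodule.span_mono ?_ (by simpa using hx')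
            intro a ha
            refine ⟨ha, ?_⟩
            by_cases has : a ∈ s
            · have := hge a has
              simp only [has, if_true]; omega
            · simp [has]
          · have hx' := hfil r' (by omega) x hx
            refine Submodule.span_mono ?_ hx'
            rintro a ⟨ha, hl⟩
            exact ⟨hsb ha, by simpa [ha] using hl⟩
      · have e : N - (r + 1) = N - r := by omega
        rw [e]
        exact ⟨s, ℓ, hli, hsp, hmem, hge, hfil⟩
  obtain ⟨s, ℓ, hli, hsp, hmem, hge, hfil⟩ := P N
  have hsp' : ⊤ ≤ Submodule.span κ (Set.range (fun i : s => (i : V))) := by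
    rw [Subtype.range_coe_subtype, Set.ofPred_mem_eq, hsp, Nat.sub_self, h0]
  have hli' : LinearIndependent κ (fun i : s => (i : V)) := hli
  refine ⟨s, Basis.mk hli' hsp', fun i => ℓ i, ?_, ?_⟩
  · intro i
    rw [Basis.mk_apply]
    exact hmem i i.2
  · intro r x hx i hi
    have h1 := hfil r (by omega) x hx
    have h2 : x ∈ Submodule.span κ ((Basis.mk hli' hsp') '' {i | r ≤ ℓ i}) := by
      refine Submodule.span_mono ?_ h1
      rintro a ⟨ha, hl⟩
      refine ⟨⟨a, ha⟩, hl, ?_⟩
      rw [Basis.mk_apply]
    rw [Basis.mem_span_image] at h2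
    exact h2 (by simpa using hi)

end Pool.Agent.H19
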