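import Mathlib

namespace Pool.Agent.H19

open Module MvPolynomial

section

variable {κ : Type*} [Field κ] (m : MonomialOrder (Fin 3))

/-- leading exponents of an ideal -/
def LE (J : Ideal (MvPolynomial (Fin 3) κ)) : Set (Fin 3 →₀ ℕ) :=
  {a | ∃ f ∈ J, f ≠ 0 ∧ m.degree f = a}

theorem span_of_LE (J : Ideal (MvPolynomial (Fin 3) κ)) (S : Set (Fin 3 →₀ ℕ))
    (hS : ∀ a, a ∉ S → a ∈ LE m J) :
    Submodule.span κ ((fun a => Ideal.Quotient.mk J (monomial a (1 : κ))) '' S) = ⊤ := by
  classical
  rw [eq_top_iff]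
  rintro x -
  obtain ⟨f, rfl⟩ := Ideal.Quotient.mk_surjective x
  have key : ∀ s : m.syn, ∀ f : MvPolynomial (Fin 3) κ, m.toSyn (m.degree f) = s →
      Ideal.Quotient.mk J f ∈
        Submodule.span κ ((fun a => Ideal.Quotient.mk J (monomial a (1 : κ))) '' S) := by
    intro s
    induction s using WellFoundedLT.induction with
    | ind s ih =>
      intro f hf
      by_cases hf0 : f = 0
      · rw [hf0, map_zero]; exact Submodule.zero_mem _
      obtain ⟨h, hcoeff, hdeg, hmem⟩ : ∃ h : MvPolynomial (Fin 3) κ,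
          h.coeff (m.degree f) = m.leadingCoeff f ∧ m.toSyn (m.degree h) ≤ m.toSyn (m.degree f) ∧
          Ideal.Quotient.mk J h ∈
            Submodule.span κ ((fun a => Ideal.Quotient.mk J (monomial a (1 : κ))) '' S) := by
        by_cases ha : m.degree f ∈ S
        · refine ⟨monomial (m.degree f) (m.leadingCoeff f), by simp, m.degree_monomial_le _, ?_⟩
          have : (monomial (m.degree f) (m.leadingCoeff f) : MvPolynomial (Fin 3) κ)
              = m.leadingCoeff f • monomial (m.degree f) (1 : κ) := by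
            rw [smul_monomial, smul_eq_mul, mul_one]
          rw [this]
          have h2 : Ideal.Quotient.mk J (m.leadingCoeff f • monomial (m.degree f) (1 : κ))
            = m.leadingCoeff f • Ideal.Quotient.mk J (monomial (m.degree f) (1 : κ)) := rfl
          rw [h2]
          exact Submodule.smul_mem _ _ (Submodule.subset_span ⟨_, ha, rfl⟩)
        · obtain ⟨g, hgJ, hg0, hgd⟩ := hS _ ha
          have hlc : m.leadingCoeff g ≠ 0 := by
            rw [Ne, MonomialOrder.leadingCoeff_eq_zero_iff]; exact hg0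
          refine ⟨(m.leadingCoeff f / m.leadingCoeff g) • g, ?_, ?_, ?_⟩
          · rw [coeff_smul, smul_eq_mul, ← hgd]
            exact div_mul_cancel₀ _ hlc
          · rw [← hgd]; exact m.degree_smul_le
          · have : Ideal.Quotient.mk J ((m.leadingCoeff f / m.leadingCoeff g) • g) = 0 := by
              rw [Ideal.Quotient.eq_zero_iff_mem, smul_eq_C_mul]
              exact J.mul_mem_left _ hgJ
            rw [this]; exact Submodule.zero_mem _
      have hsplit : f = h + (f - h) := by ring
      rw [hsplit, map_add]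
      refine Submodule.add_mem _ hmem ?_
      by_cases hfh : f - h = 0
      · rw [hfh, map_zero]; exact Submodule.zero_mem _
      refine ih (m.toSyn (m.degree (f - h))) ?_ _ rfl
      have hle : m.toSyn (m.degree (f - h)) ≤ m.toSyn (m.degree f) := by
        refine (m.degree_sub_le).trans ?_
        simp only [sup_le_iff, le_refl, true_and]
        exact hdeg
      rw [← hf]
      refine lt_of_le_of_ne hle ?_
      intro heq
      have heq' : m.degree (f - h) = m.degree f := m.toSyn.injective heq
      have : (f - h).coeff (m.degree (f - h)) = 0 := by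
        rw [heq', coeff_sub, hcoeff]
        simp [MonomialOrder.leadingCoeff]
      exact hfh (by rwa [m.coeff_degree_eq_zero_iff] at this)
  exact key _ f rfl

theorem linInd_of_LE (J : Ideal (MvPolynomial (Fin 3) κ)) (S : Set (Fin 3 →₀ ℕ))
    (hS : ∀ a ∈ S, a ∉ LE m J) :
    LinearIndependent κ (fun a : S => Ideal.Quotient.mk J (monomial (a : Fin 3 →₀ ℕ) (1 : κ))) := by
  classical
  rw [linearIndependent_iff]
  intro l hl
  by_contra hne
  -- the polynomial
  set f : MvPolynomial (Fin 3) κ := ∑ a ∈ l.support, monomial (a : Fin 3 →₀ ℕ) (l a) with hf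
  have hfJ : f ∈ J := by
    rw [← Ideal.Quotient.eq_zero_iff_mem, ← hl, hf, map_sum, Finsupp.linearCombination_apply,
      Finsupp.sum]
    refine Finset.sum_congr rfl fun a _ => ?_
    have : (monomial (a : Fin 3 →₀ ℕ) (l a) : MvPolynomial (Fin 3) κ)
        = l a • monomial (a : Fin 3 →₀ ℕ) (1 : κ) := by
      rw [smul_monomial, smul_eq_mul, mul_one]
    rw [this]; rfl
  have hcoeff : ∀ a : S, f.coeff (a : Fin 3 →₀ ℕ) = l a := by
    intro a
    rw [hf, coeff_sum]
    simp only [coeff_monomial]
    by_cases h : a ∈ l.support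
    · rw [Finset.sum_eq_single a]
      · simp
      · intro b _ hb
        rw [if_neg]
        intro h'
        exact hb (Subtype.ext h')
      · intro h'; exact absurd h h'
    · rw [Finset.sum_eq_zero]
      · simpa using (Finsupp.notMem_support_iff.1 h).symm
      · intro b hb
        rw [if_neg]
        intro h'
        apply h
        rwa [← Subtype.ext h']
  have hf0 : f ≠ 0 := by
    intro h0
    apply hne
    ext a
    rw [← hcoeff a, h0]; simp
  have hdeg : m.degree f ∈ f.support := m.degree_mem_support hf0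
  have hdegS : m.degree f ∈ S := by
    rw [MvPolynomial.mem_support_iff, hf, coeff_sum] at hdeg
    obtain ⟨a, -, ha⟩ := Finset.exists_ne_zero_of_sum_ne_zero hdeg
    rw [coeff_monomial] at ha
    have : (a : Fin 3 →₀ ℕ) = m.degree f := by
      by_contra h
      exact ha (if_neg h)
    rw [← hf] at ha
    rw [← this]; exact a.2
  exact hS _ hdegS ⟨f, hfJ, hf0, rfl⟩

end

/-- The colength of `J^3` is at most `27` times the colength of `J`. -/
theorem finrank_cube_le {κ : Type*} [Field κ] (J : Ideal (MvPolynomial (Fin 3) κ))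
    [Module.Finite κ (MvPolynomial (Fin 3) κ ⧸ J)] :
    Module.Finite κ (MvPolynomial (Fin 3) κ ⧸ J ^ 3) ∧
    finrank κ (MvPolynomial (Fin 3) κ ⧸ J ^ 3) ≤ 27 * finrank κ (MvPolynomial (Fin 3) κ ⧸ J) := by
  classical
  set m : MonomialOrder (Fin 3) := MonomialOrder.lex
  set T : Set (Fin 3 →₀ ℕ) := (LE m J)ᶜ with hT
  have hli := linInd_of_LE m J T (fun a ha => ha)
  have hTfin : Finite T := hli.finite
  have : Fintype T := Fintype.ofFinite T
  have hTcard : Fintype.card T ≤ finrank κ (MvPolynomial (Fin 3) κ ⧸ J) :=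
    hli.fintype_card_le_finrank
  -- the set of u with u/3 not in LE J
  set g : T × (Fin 3 → Fin 3) → (Fin 3 →₀ ℕ) := fun p =>
    3 • (p.1 : Fin 3 →₀ ℕ) + Finsupp.equivFunOnFinite.symm (fun i => (p.2 i : ℕ)) with hg
  have hsp := span_of_LE m (J ^ 3) (Set.range g) (by
    intro u hu
    set q : Fin 3 →₀ ℕ := Finsupp.equivFunOnFinite.symm (fun i => u i / 3) with hq
    have hqT : q ∈ LE m J := by
      by_contra hq'
      apply hu
      refine ⟨(⟨q, hq'⟩, fun i => ⟨u i % 3, Nat.mod_lt _ (by norm_num)⟩), ?_⟩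
      ext i
      simp only [hg, hq, Finsupp.add_apply, Finsupp.smul_apply, smul_eq_mul,
        Finsupp.equivFunOnFinite_symm_apply_apply]
      omega
    obtain ⟨f, hfJ, hf0, hfd⟩ := hqT
    set r : Fin 3 →₀ ℕ := Finsupp.equivFunOnFinite.symm (fun i => u i % 3) with hr
    refine ⟨monomial r 1 * f ^ 3, Ideal.mul_mem_left _ _ (Ideal.pow_mem_pow hfJ 3), ?_, ?_⟩
    · exact mul_ne_zero (by simp) (pow_ne_zero _ hf0)
    · rw [m.degree_mul (by simp) (pow_ne_zero _ hf0), m.degree_pow, m.degree_monomial,
        if_neg one_ne_zero, hfd]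
      ext i
      simp only [hq, hr, Finsupp.add_apply, Finsupp.smul_apply, smul_eq_mul,
        Finsupp.equivFunOnFinite_symm_apply_apply]
      omega)
  have hfin : Module.Finite κ (MvPolynomial (Fin 3) κ ⧸ J ^ 3) := by
    refine ⟨?_⟩
    rw [← hsp]
    refine Submodule.fg_span (Set.Finite.image _ (Set.finite_range g))
  refine ⟨hfin, ?_⟩
  have h1 : finrank κ (MvPolynomial (Fin 3) κ ⧸ J ^ 3) ≤
      Fintype.card (T × (Fin 3 → Fin 3)) := by
    have hs' : Submodule.span κ (Set.range (fun p : T × (Fin 3 → Fin 3) =>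
        Ideal.Quotient.mk (J ^ 3) (monomial (g p) (1 : κ)))) = ⊤ := by
      rw [← hsp, ← Set.range_comp]; rfl
    rw [← finrank_top κ (MvPolynomial (Fin 3) κ ⧸ J ^ 3), ← hs']
    exact finrank_range_le_card _
  refine h1.trans ?_
  rw [Fintype.card_prod, Fintype.card_fun, Fintype.card_fin]
  have h27 : (3 : ℕ) ^ 3 = 27 := by norm_num
  rw [h27, mul_comm]
  exact Nat.mul_le_mul_left _ hTcard

end Pool.Agent.H19
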