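import Mathlib

/-!
Core identity in a noncommutative ring: three derivations and three central elements lying in the
ideal generated by commuting elements.
-/

namespace Pool.Agent.H19

section Core

variable {S M : Type*} [CommRing S] [Ring M]

/-- explicit 3x3 determinant expression, product order: row 0, row 1, row 2. -/
def det3 {A : Type*} [Ring A] (G : Fin 3 → Fin 3 → A) : A :=
  (G 0 0 * G 1 1 - G 0 1 * G 1 0) * G 2 2 +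
  (G 0 1 * G 1 2 - G 0 2 * G 1 1) * G 2 0 +
  (G 0 2 * G 1 0 - G 0 0 * G 1 2) * G 2 1

/-- the antisymmetrised triple product. -/
def anti3 {A : Type*} [Ring A] (D : Fin 3 → Fin 3 → A) : A :=
  D 0 0 * D 1 1 * D 2 2 - D 0 0 * D 1 2 * D 2 1 + D 0 1 * D 1 2 * D 2 0
   - D 0 1 * D 1 0 * D 2 2 + D 0 2 * D 1 0 * D 2 1 - D 0 2 * D 1 1 * D 2 0

variable (ρ : S →+* M) (L : AddSubgroup M) (hL : ∀ a ∈ L, ∀ z, a * z ∈ L)
  (x : Fin 3 → S) (hx : ∀ l, ρ (x l) ∈ L) (b : Fin 3 → Fin 3 → S)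
  (hfL : ∀ j, ρ (∑ l, x l * b l j) ∈ L)
  (hfc : ∀ j z, ρ (∑ l, x l * b l j) * z = z * ρ (∑ l, x l * b l j))
  (δ : Fin 3 → M →+ M) (hδ : ∀ i a c, δ i (a * c) = δ i a * c + a * δ i c)

include hδ in
theorem comm_rel (i : Fin 3) (s t : S) :
    δ i (ρ s) * ρ t + ρ s * δ i (ρ t) = δ i (ρ t) * ρ s + ρ t * δ i (ρ s) := by
  rw [← hδ, ← hδ, ← map_mul, ← map_mul, mul_comm]

include hL hfL hfc hδ in
theorem step {A : Type*} [Fintype A] (H : M) (d : A → M) (s : A → S)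
    (h : ∀ z, H * z - ∑ a, d a * ρ (s a) * z ∈ L) (i j : Fin 3) (z : M) :
    H * δ i (ρ (∑ l, x l * b l j)) * z -
      (∑ a, ∑ q, d a * δ i (ρ (x q)) * ρ (s a * b q j) * z +
       ∑ a, ∑ q, d a * ρ (x q) * δ i (ρ (s a * b q j)) * z) ∈ L := by
  have h1 := h (δ i (ρ (∑ l, x l * b l j)) * z)
  have key : ∀ a, d a * ρ (s a) * (δ i (ρ (∑ l, x l * b l j)) * z) =
      ∑ q, d a * δ i (ρ (x q)) * ρ (s a * b q j) * z +
       ∑ q, d a * ρ (x q) * δ i (ρ (s a * b q j)) * z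
        - d a * δ i (ρ (s a)) * ρ (∑ l, x l * b l j) * z := by
    intro a
    have e1 : δ i (ρ (∑ l, x l * b l j)) =
        ∑ q, (δ i (ρ (x q)) * ρ (b q j) + ρ (x q) * δ i (ρ (b q j))) := by
      rw [map_sum, map_sum]
      refine Finset.sum_congr rfl fun q _ => ?_
      rw [map_mul, hδ]
    have e2 : ρ (∑ l, x l * b l j) = ∑ q, ρ (x q) * ρ (b q j) := by
      rw [map_sum]; simp
    rw [e1, e2]
    simp only [Finset.mul_sum, Finset.sum_mul]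
    rw [← Finset.sum_add_distrib, ← Finset.sum_sub_distrib]
    refine Finset.sum_congr rfl fun q _ => ?_
    rw [map_mul, hδ]
    have r := comm_rel ρ δ hδ i (s a) (x q)
    have r' : ρ (s a) * ρ (x q) = ρ (x q) * ρ (s a) := by
      rw [← map_mul, ← map_mul, mul_comm]
    have r2 : ρ (s a) * δ i (ρ (x q)) = δ i (ρ (x q)) * ρ (s a) + ρ (x q) * δ i (ρ (s a))
        - δ i (ρ (s a)) * ρ (x q) := by
      rw [← r]; abel
    calc d a * ρ (s a) * ((δ i (ρ (x q)) * ρ (b q j) + ρ (x q) * δ i (ρ (b q j))) * z)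
        = d a * (ρ (s a) * δ i (ρ (x q))) * ρ (b q j) * z +
          d a * (ρ (s a) * ρ (x q)) * δ i (ρ (b q j)) * z := by noncomm_ring
      _ = d a * (δ i (ρ (x q)) * ρ (s a) + ρ (x q) * δ i (ρ (s a))
            - δ i (ρ (s a)) * ρ (x q)) * ρ (b q j) * z +
          d a * (ρ (x q) * ρ (s a)) * δ i (ρ (b q j)) * z := by rw [r2, r']
      _ = _ := by noncomm_ring
  have h2 : H * δ i (ρ (∑ l, x l * b l j)) * z -
      (∑ a, ∑ q, d a * δ i (ρ (x q)) * ρ (s a * b q j) * z +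
       ∑ a, ∑ q, d a * ρ (x q) * δ i (ρ (s a * b q j)) * z)
       = (H * (δ i (ρ (∑ l, x l * b l j)) * z) -
          ∑ a, d a * ρ (s a) * (δ i (ρ (∑ l, x l * b l j)) * z))
          - ∑ a, d a * δ i (ρ (s a)) * ρ (∑ l, x l * b l j) * z := by
    rw [Finset.sum_congr rfl fun a _ => key a, Finset.sum_sub_distrib, Finset.sum_add_distrib,
      mul_assoc]
    abel
  rw [h2]
  refine L.sub_mem h1 (L.sum_mem fun a _ => ?_)
  rw [← hfc]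
  rw [mul_assoc]
  exact hL _ (hfL j) _

include hL hx hfL hfc hδ in
theorem one_fold (j : Fin 3) (z : M) :
    δ 0 (ρ (∑ l, x l * b l j)) * z - ∑ l, δ 0 (ρ (x l)) * ρ (b l j) * z ∈ L := by
  have h := step ρ L hL x b hfL hfc δ hδ (A := Unit) 1 (fun _ => 1) (fun _ => 1)
    (by intro z; simp [L.zero_mem]) 0 j z
  have h2 : ∑ q, ρ (x q) * δ 0 (ρ (b q j)) * z ∈ L := by
    refine L.sum_mem fun q _ => ?_
    rw [mul_assoc]
    exact hL _ (hx q) _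
  have := L.add_mem h h2
  convert this using 1
  simp only [Finset.univ_unique, Finset.sum_singleton, one_mul]
  abel

include hL hx hδ in
theorem anti_mem (E : Fin 3 → Fin 3 → M) (hE0 : ∀ l, E l l = 0)
    (hE : ∀ l p, E p l = - E l p) :
    ∑ l, ∑ p, δ 0 (ρ (x l)) * ρ (x p) * E l p ∈ L := by
  have sw : ∀ l p, (δ 0 (ρ (x l)) * ρ (x p) - δ 0 (ρ (x p)) * ρ (x l)) * E l p ∈ L := by
    intro l p
    have r := comm_rel ρ δ hδ 0 (x l) (x p)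
    have r2 : δ 0 (ρ (x l)) * ρ (x p) - δ 0 (ρ (x p)) * ρ (x l)
        = ρ (x p) * δ 0 (ρ (x l)) - ρ (x l) * δ 0 (ρ (x p)) := by
      have : δ 0 (ρ (x l)) * ρ (x p) = δ 0 (ρ (x p)) * ρ (x l) + ρ (x p) * δ 0 (ρ (x l))
        - ρ (x l) * δ 0 (ρ (x p)) := by rw [← r]; abel
      rw [this]; abel
    rw [r2]
    exact hL _ (L.sub_mem (hL _ (hx p) _) (hL _ (hx l) _)) _
  have e : ∑ l, ∑ p, δ 0 (ρ (x l)) * ρ (x p) * E l p =
      (δ 0 (ρ (x 0)) * ρ (x 1) - δ 0 (ρ (x 1)) * ρ (x 0)) * E 0 1 +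
      (δ 0 (ρ (x 0)) * ρ (x 2) - δ 0 (ρ (x 2)) * ρ (x 0)) * E 0 2 +
      (δ 0 (ρ (x 1)) * ρ (x 2) - δ 0 (ρ (x 2)) * ρ (x 1)) * E 1 2 := by
    simp only [Fin.sum_univ_three, hE0, hE 0 1, hE 0 2, hE 1 2]
    noncomm_ring
  rw [e]
  exact L.add_mem (L.add_mem (sw _ _) (sw _ _)) (sw _ _)

include hL hx hfL hfc hδ in
theorem two_fold (j k : Fin 3) (z : M) :
    (δ 0 (ρ (∑ l, x l * b l j)) * δ 1 (ρ (∑ l, x l * b l k)) -
      δ 0 (ρ (∑ l, x l * b l k)) * δ 1 (ρ (∑ l, x l * b l j))) * z -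
      ∑ l, ∑ p, δ 0 (ρ (x l)) * δ 1 (ρ (x p)) * ρ (b l j * b p k - b l k * b p j) * z ∈ L := by
  have h1 := step ρ L hL x b hfL hfc δ hδ (δ 0 (ρ (∑ l, x l * b l j)))
    (fun l => δ 0 (ρ (x l))) (fun l => b l j) (one_fold ρ L hL x hx b hfL hfc δ hδ j) 1 k z
  have h2 := step ρ L hL x b hfL hfc δ hδ (δ 0 (ρ (∑ l, x l * b l k)))
    (fun l => δ 0 (ρ (x l))) (fun l => b l k) (one_fold ρ L hL x hx b hfL hfc δ hδ k) 1 j z
  have h3 := anti_mem ρ L hL x hx δ hδ (fun l p => δ 1 (ρ (b l j * b p k - b l k * b p j)) * z)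
    (by intro l; simp [mul_comm]) (by
      intro l p
      rw [show b p j * b l k - b p k * b l j = - (b l j * b p k - b l k * b p j) by ring]
      simp only [map_neg, neg_mul])
  have := L.add_mem (L.sub_mem h1 h2) h3
  convert this using 1
  simp only [map_sub, mul_sub, sub_mul, Finset.sum_sub_distrib, ← mul_assoc]
  abel

include hδ in
theorem swap_eq (i l p : Fin 3) :
    δ i (ρ (x l)) * ρ (x p) - δ i (ρ (x p)) * ρ (x l)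
      = ρ (x p) * δ i (ρ (x l)) - ρ (x l) * δ i (ρ (x p)) := by
  have r := comm_rel ρ δ hδ i (x l) (x p)
  have : δ i (ρ (x l)) * ρ (x p) = δ i (ρ (x p)) * ρ (x l) + ρ (x p) * δ i (ρ (x l))
    - ρ (x l) * δ i (ρ (x p)) := by rw [← r]; abel
  rw [this]; abel

include hL hx hδ in
theorem swap_mem (i l p : Fin 3) (z : M) :
    (δ i (ρ (x l)) * ρ (x p) - δ i (ρ (x p)) * ρ (x l)) * z ∈ L := by
  rw [swap_eq ρ x δ hδ]
  exact hL _ (L.sub_mem (hL _ (hx p) _) (hL _ (hx l) _)) _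

include hL hx hδ in
theorem anti3_mem (E : M) :
    (δ 0 (ρ (x 0)) * δ 1 (ρ (x 1)) * ρ (x 2) - δ 0 (ρ (x 0)) * δ 1 (ρ (x 2)) * ρ (x 1)
    + δ 0 (ρ (x 1)) * δ 1 (ρ (x 2)) * ρ (x 0) - δ 0 (ρ (x 1)) * δ 1 (ρ (x 0)) * ρ (x 2)
    + δ 0 (ρ (x 2)) * δ 1 (ρ (x 0)) * ρ (x 1) - δ 0 (ρ (x 2)) * δ 1 (ρ (x 1)) * ρ (x 0)) * E
      ∈ L := by
  have e : (δ 0 (ρ (x 0)) * δ 1 (ρ (x 1)) * ρ (x 2) - δ 0 (ρ (x 0)) * δ 1 (ρ (x 2)) * ρ (x 1)
    + δ 0 (ρ (x 1)) * δ 1 (ρ (x 2)) * ρ (x 0) - δ 0 (ρ (x 1)) * δ 1 (ρ (x 0)) * ρ (x 2)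
    + δ 0 (ρ (x 2)) * δ 1 (ρ (x 0)) * ρ (x 1) - δ 0 (ρ (x 2)) * δ 1 (ρ (x 1)) * ρ (x 0)) * E
    = (δ 0 (ρ (x 0)) * ρ (x 2) - δ 0 (ρ (x 2)) * ρ (x 0)) * (δ 1 (ρ (x 1)) * E)
     + (δ 0 (ρ (x 1)) * ρ (x 0) - δ 0 (ρ (x 0)) * ρ (x 1)) * (δ 1 (ρ (x 2)) * E)
     + (δ 0 (ρ (x 2)) * ρ (x 1) - δ 0 (ρ (x 1)) * ρ (x 2)) * (δ 1 (ρ (x 0)) * E) := by
    have s12 := swap_eq ρ x δ hδ 1 1 2
    have s20 := swap_eq ρ x δ hδ 1 2 0
    have s01 := swap_eq ρ x δ hδ 1 0 1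
    calc _ = δ 0 (ρ (x 0)) * (δ 1 (ρ (x 1)) * ρ (x 2) - δ 1 (ρ (x 2)) * ρ (x 1)) * E
         + δ 0 (ρ (x 1)) * (δ 1 (ρ (x 2)) * ρ (x 0) - δ 1 (ρ (x 0)) * ρ (x 2)) * E
         + δ 0 (ρ (x 2)) * (δ 1 (ρ (x 0)) * ρ (x 1) - δ 1 (ρ (x 1)) * ρ (x 0)) * E := by
          noncomm_ring
      _ = _ := by
          rw [s12, s20, s01]; noncomm_ring
  rw [e]
  exact L.add_mem (L.add_mem (swap_mem ρ L hL x hx δ hδ _ _ _ _)
    (swap_mem ρ L hL x hx δ hδ _ _ _ _)) (swap_mem ρ L hL x hx δ hδ _ _ _ _)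

/-- the alternating function. -/
def Dl (b : Fin 3 → Fin 3 → S) (l p q : Fin 3) : S :=
  (b l 0 * b p 1 - b l 1 * b p 0) * b q 2 + (b l 1 * b p 2 - b l 2 * b p 1) * b q 0
    + (b l 2 * b p 0 - b l 0 * b p 2) * b q 1

include hL hx hfL hfc hδ in
theorem three_fold (z : M) :
    det3 (fun i j => δ i (ρ (∑ l, x l * b l j))) * z
      - anti3 (fun i l => δ i (ρ (x l))) * ρ (det3 b) * z ∈ L := by
  have hh : ∀ j k : Fin 3, ∀ z, (δ 0 (ρ (∑ l, x l * b l j)) * δ 1 (ρ (∑ l, x l * b l k)) -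
      δ 0 (ρ (∑ l, x l * b l k)) * δ 1 (ρ (∑ l, x l * b l j))) * z
      - ∑ a : Fin 3 × Fin 3, δ 0 (ρ (x a.1)) * δ 1 (ρ (x a.2)) *
        ρ (b a.1 j * b a.2 k - b a.1 k * b a.2 j) * z ∈ L := by
    intro j k z
    rw [Fintype.sum_prod_type]
    exact two_fold ρ L hL x hx b hfL hfc δ hδ j k z
  have s0 := step ρ L hL x b hfL hfc δ hδ _
    (fun a : Fin 3 × Fin 3 => δ 0 (ρ (x a.1)) * δ 1 (ρ (x a.2)))
    (fun a => b a.1 0 * b a.2 1 - b a.1 1 * b a.2 0) (hh 0 1) 2 2 z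
  have s1 := step ρ L hL x b hfL hfc δ hδ _
    (fun a : Fin 3 × Fin 3 => δ 0 (ρ (x a.1)) * δ 1 (ρ (x a.2)))
    (fun a => b a.1 1 * b a.2 2 - b a.1 2 * b a.2 1) (hh 1 2) 2 0 z
  have s2 := step ρ L hL x b hfL hfc δ hδ _
    (fun a : Fin 3 × Fin 3 => δ 0 (ρ (x a.1)) * δ 1 (ρ (x a.2)))
    (fun a => b a.1 2 * b a.2 0 - b a.1 0 * b a.2 2) (hh 2 0) 2 1 z
  have s3 := anti3_mem ρ L hL x hx δ hδ (δ 2 (ρ (det3 b)) * z)
  have tot := L.add_mem (L.add_mem (L.add_mem s0 s1) s2) s3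
  convert tot using 1
  have c1 : ∀ f : Fin 3 → Fin 3 → Fin 3 → M,
      (∑ a : Fin 3 × Fin 3, ∑ q, f a.1 a.2 q * ρ ((b a.1 0 * b a.2 1 - b a.1 1 * b a.2 0) * b q 2) * z)
      + (∑ a : Fin 3 × Fin 3, ∑ q, f a.1 a.2 q * ρ ((b a.1 1 * b a.2 2 - b a.1 2 * b a.2 1) * b q 0) * z)
      + (∑ a : Fin 3 × Fin 3, ∑ q, f a.1 a.2 q * ρ ((b a.1 2 * b a.2 0 - b a.1 0 * b a.2 2) * b q 1) * z)
      = (∑ l, ∑ p, ∑ q, f l p q * ρ (Dl b l p q) * z) := by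
    intro f
    rw [← Finset.sum_add_distrib, ← Finset.sum_add_distrib, Fintype.sum_prod_type]
    refine Finset.sum_congr rfl fun l _ => Finset.sum_congr rfl fun p _ => ?_
    rw [← Finset.sum_add_distrib, ← Finset.sum_add_distrib]
    refine Finset.sum_congr rfl fun q _ => ?_
    simp only [Dl, map_add, mul_add, add_mul]
  have c2 : ∀ f : Fin 3 → Fin 3 → Fin 3 → M,
      (∑ a : Fin 3 × Fin 3, ∑ q, f a.1 a.2 q * δ 2 (ρ ((b a.1 0 * b a.2 1 - b a.1 1 * b a.2 0) * b q 2)) * z)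
      + (∑ a : Fin 3 × Fin 3, ∑ q, f a.1 a.2 q * δ 2 (ρ ((b a.1 1 * b a.2 2 - b a.1 2 * b a.2 1) * b q 0)) * z)
      + (∑ a : Fin 3 × Fin 3, ∑ q, f a.1 a.2 q * δ 2 (ρ ((b a.1 2 * b a.2 0 - b a.1 0 * b a.2 2) * b q 1)) * z)
      = (∑ l, ∑ p, ∑ q, f l p q * δ 2 (ρ (Dl b l p q)) * z) := by
    intro f
    rw [← Finset.sum_add_distrib, ← Finset.sum_add_distrib, Fintype.sum_prod_type]
    refine Finset.sum_congr rfl fun l _ => Finset.sum_congr rfl fun p _ => ?_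
    rw [← Finset.sum_add_distrib, ← Finset.sum_add_distrib]
    refine Finset.sum_congr rfl fun q _ => ?_
    simp only [Dl, map_add, mul_add, add_mul]
  have d012 : Dl b 0 1 2 = det3 b := by simp only [Dl, det3]; try ring
  have d021 : Dl b 0 2 1 = - det3 b := by simp only [Dl, det3]; ring
  have d120 : Dl b 1 2 0 = det3 b := by simp only [Dl, det3]; ring
  have d102 : Dl b 1 0 2 = - det3 b := by simp only [Dl, det3]; ring
  have d201 : Dl b 2 0 1 = det3 b := by simp only [Dl, det3]; ring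
  have d210 : Dl b 2 1 0 = - det3 b := by simp only [Dl, det3]; ring
  have z1 : ∀ l q, Dl b l l q = 0 := by intro l q; simp only [Dl]; ring
  have z2 : ∀ l q, Dl b l q l = 0 := by intro l q; simp only [Dl]; ring
  have z3 : ∀ l q, Dl b q l l = 0 := by intro l q; simp only [Dl]; ring
  have e1 : (∑ l, ∑ p, ∑ q, δ 0 (ρ (x l)) * δ 1 (ρ (x p)) * δ 2 (ρ (x q)) * ρ (Dl b l p q) * z)
      = anti3 (fun i l => δ i (ρ (x l))) * ρ (det3 b) * z := by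
    simp only [Fin.sum_univ_three, z1, z2, z3, d012, d021, d120, d102, d201, d210, map_zero,
      map_neg, anti3]
    noncomm_ring
  have e2 : (∑ l, ∑ p, ∑ q, δ 0 (ρ (x l)) * δ 1 (ρ (x p)) * ρ (x q) * δ 2 (ρ (Dl b l p q)) * z)
      = (δ 0 (ρ (x 0)) * δ 1 (ρ (x 1)) * ρ (x 2) - δ 0 (ρ (x 0)) * δ 1 (ρ (x 2)) * ρ (x 1)
    + δ 0 (ρ (x 1)) * δ 1 (ρ (x 2)) * ρ (x 0) - δ 0 (ρ (x 1)) * δ 1 (ρ (x 0)) * ρ (x 2)
    + δ 0 (ρ (x 2)) * δ 1 (ρ (x 0)) * ρ (x 1) - δ 0 (ρ (x 2)) * δ 1 (ρ (x 1)) * ρ (x 0)) *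
      (δ 2 (ρ (det3 b)) * z) := by
    simp only [Fin.sum_univ_three, z1, z2, z3, d012, d021, d120, d102, d201, d210, map_zero,
      map_neg]
    noncomm_ring
  rw [← e1, ← e2, ← c1 (fun l p q => δ 0 (ρ (x l)) * δ 1 (ρ (x p)) * δ 2 (ρ (x q))),
    ← c2 (fun l p q => δ 0 (ρ (x l)) * δ 1 (ρ (x p)) * ρ (x q))]
  simp only [det3, add_mul]
  abel

end Core

end Pool.Agent.H19
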