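import Mathlib
import Pool.Agent.H19.Core
import Pool.Agent.H19.Adapted

namespace Pool.Agent.H19

open Module TensorProduct

section

variable {κ R : Type*} [Field κ] [CommRing R] [Algebra κ R] (I : Ideal R) (X : Fin 3 → R)

variable {ι : Type*} [Fintype ι] [DecidableEq ι] (v : Basis ι κ (R ⧸ I)) (ℓ : ι → ℕ)

/-- the left multiplication representation -/
noncomputable def rho : R ⊗[κ] (R ⧸ I) →ₐ[R] Matrix ι ι R :=
  Algebra.leftMulMatrix (Algebra.TensorProduct.basis R v)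

/-- multiplication map -/
noncomputable def mu : R ⊗[κ] (R ⧸ I) →ₐ[R] (R ⧸ I) :=
  Algebra.TensorProduct.lift (Algebra.ofId R (R ⧸ I)) (AlgHom.id κ (R ⧸ I))
    (fun _ _ => mul_comm _ _)

theorem mu_tmul (r : R) (a : R ⧸ I) :
    mu I (r ⊗ₜ[κ] a) = Ideal.Quotient.mk I r * a := by
  rw [mu]
  exact Algebra.TensorProduct.lift_tmul _ _ _ _ _

/-- evaluation of a vector -/
noncomputable def pr (u : ι → R) : R ⧸ I := ∑ i, Ideal.Quotient.mk I (u i) * v i

theorem pr_eq (t : R ⊗[κ] (R ⧸ I)) :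
    pr I v ((Algebra.TensorProduct.basis R v).repr t) = mu I t := by
  conv_rhs => rw [← (Algebra.TensorProduct.basis R v).sum_repr t]
  rw [map_sum, pr]
  refine Finset.sum_congr rfl fun i _ => ?_
  rw [map_smul, Algebra.TensorProduct.basis_apply, mu_tmul]
  simp [Algebra.smul_def, Ideal.Quotient.algebraMap_eq]

theorem pr_rho (s : R ⊗[κ] (R ⧸ I)) (u : ι → R) :
    pr I v ((rho I v s).mulVec u) = mu I s * pr I v u := by
  obtain ⟨t, rfl⟩ : ∃ t, ((Algebra.TensorProduct.basis R v).repr t : ι → R) = u := by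
    refine ⟨(Algebra.TensorProduct.basis R v).equivFun.symm u, ?_⟩
    ext1 i
    rw [← Basis.equivFun_apply, LinearEquiv.apply_symm_apply]
  rw [rho, Algebra.leftMulMatrix_mulVec_repr, pr_eq, pr_eq, map_mul]

theorem pr_add (x y : ι → R) : pr I v (x + y) = pr I v x + pr I v y := by
  simp [pr, add_mul, Finset.sum_add_distrib]

theorem pr_neg (x : ι → R) : pr I v (- x) = - pr I v x := by
  simp [pr, Finset.sum_neg_distrib]

/-- the right ideal of matrices -/
def LL : AddSubgroup (Matrix ι ι R) where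
  carrier := {m | ∀ u : ι → R, pr I v (m.mulVec u) = 0}
  add_mem' := by
    intro a b ha hb u
    rw [Matrix.add_mulVec, pr_add, ha u, hb u, add_zero]
  zero_mem' := by intro u; simp [pr]
  neg_mem' := by
    intro a ha u
    rw [Matrix.neg_mulVec, pr_neg, ha u, neg_zero]

theorem LL_right : ∀ a ∈ LL I v, ∀ z, a * z ∈ LL I v := by
  intro a ha z u
  rw [← Matrix.mulVec_mulVec]
  exact ha _

theorem rho_mem (s : R ⊗[κ] (R ⧸ I)) (hs : mu I s = 0) : rho I v s ∈ LL I v := by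
  intro u
  rw [pr_rho, hs, zero_mul]

/-- the elements `x_l ⊗ 1 - 1 ⊗ x_l` -/
noncomputable def xi (l : Fin 3) : R ⊗[κ] (R ⧸ I) :=
  (X l) ⊗ₜ 1 - 1 ⊗ₜ (Ideal.Quotient.mk I (X l))

theorem mu_xi (l : Fin 3) : mu (κ := κ) I (xi I X l) = 0 := by
  rw [xi, map_sub, mu_tmul, mu_tmul]
  simp

theorem diag_mem (hX : Algebra.adjoin κ (Set.range X) = ⊤) (F : R) :
    ∃ c : Fin 3 → R ⊗[κ] (R ⧸ I),
      ∑ l, c l * xi I X l = F ⊗ₜ[κ] (1 : R ⧸ I) - 1 ⊗ₜ (Ideal.Quotient.mk I F) := by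
  refine Ideal.mem_span_range_iff_exists_fun.1 ?_
  rw [← Ideal.Quotient.eq]
  set K : Ideal (R ⊗[κ] (R ⧸ I)) := Ideal.span (Set.range (xi I X)) with hK
  let f : R →ₐ[κ] (R ⊗[κ] (R ⧸ I)) ⧸ K :=
    (Ideal.Quotient.mkₐ κ K).comp (Algebra.TensorProduct.includeLeft)
  let g : R →ₐ[κ] (R ⊗[κ] (R ⧸ I)) ⧸ K :=
    (Ideal.Quotient.mkₐ κ K).comp
      ((Algebra.TensorProduct.includeRight).comp (Ideal.Quotient.mkₐ κ I))
  have hfg : f = g := by
    apply AlgHom.ext_of_adjoin_eq_top hX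
    rintro _ ⟨l, rfl⟩
    show Ideal.Quotient.mk K _ = Ideal.Quotient.mk K _
    rw [Ideal.Quotient.eq]
    exact Ideal.subset_span ⟨l, rfl⟩
  exact DFunLike.congr_fun hfg F

theorem rho_one_tmul (a : R ⧸ I) (i j : ι) :
    rho I v (1 ⊗ₜ[κ] a) i j = algebraMap κ R (Algebra.leftMulMatrix v a i j) := by
  rw [rho, Algebra.leftMulMatrix_eq_repr_mul, Algebra.leftMulMatrix_eq_repr_mul,
    Algebra.TensorProduct.basis_apply, Algebra.TensorProduct.tmul_mul_tmul, one_mul,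
    Algebra.TensorProduct.basis_repr_tmul]
  simp

theorem rho_tmul_one (r : R) : rho I v (r ⊗ₜ[κ] (1 : R ⧸ I)) = algebraMap R (Matrix ι ι R) r := by
  have : r ⊗ₜ[κ] (1 : R ⧸ I) = algebraMap R (R ⊗[κ] (R ⧸ I)) r := rfl
  rw [this, AlgHom.commutes]

theorem mapMatrix_leib (d : R →+ R) (hd : ∀ a b, d (a * b) = d a * b + a * d b)
    (m n : Matrix ι ι R) : d.mapMatrix (m * n) = d.mapMatrix m * n + m * d.mapMatrix n := by
  ext i j
  simp [Matrix.mul_apply, map_sum, hd, Finset.sum_add_distrib]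

theorem mapMatrix_scalar (d : R →+ R) (r : R) :
    d.mapMatrix (algebraMap R (Matrix ι ι R) r) = algebraMap R (Matrix ι ι R) (d r) := by
  ext i j
  simp only [AddMonoidHom.mapMatrix_apply, Matrix.map_apply, Matrix.algebraMap_matrix_apply]
  split_ifs
  · simp
  · simp

theorem entries_mem (t : R ⊗[κ] (R ⧸ I)) (F : Fin 3 → R) (hF : ∀ j, F j ∈ I)
    (ht : t ∈ Ideal.span (Set.range fun j => (F j) ⊗ₜ[κ] (1 : R ⧸ I))) (i j : ι) :
    rho I v t i j ∈ I := by
  obtain ⟨c, hc⟩ := Ideal.mem_span_range_iff_exists_fun.1 ht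
  rw [← hc, map_sum, Matrix.sum_apply]
  refine I.sum_mem fun k _ => ?_
  rw [map_mul, rho_tmul_one, Matrix.mul_apply]
  refine I.sum_mem fun m _ => I.mul_mem_left _ ?_
  rw [Matrix.algebraMap_matrix_apply]
  split_ifs
  · exact hF k
  · exact I.zero_mem

theorem cramer_mem (F : Fin 3 → R) (b : Fin 3 → Fin 3 → R ⊗[κ] (R ⧸ I))
    (hb : ∀ j, ∑ l, xi I X l * b l j = (F j) ⊗ₜ[κ] (1 : R ⧸ I)) (l : Fin 3) :
    xi I X l * det3 b ∈ Ideal.span (Set.range fun j => (F j) ⊗ₜ[κ] (1 : R ⧸ I)) := by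
  have h : ∀ j, (F j) ⊗ₜ[κ] (1 : R ⧸ I) ∈
      Ideal.span (Set.range fun j => (F j) ⊗ₜ[κ] (1 : R ⧸ I)) :=
    fun j => Ideal.subset_span ⟨j, rfl⟩
  have e : ∀ l, ∃ c : Fin 3 → R ⊗[κ] (R ⧸ I), xi I X l * det3 b =
      c 0 * (F 0) ⊗ₜ[κ] (1 : R ⧸ I) + c 1 * (F 1) ⊗ₜ[κ] (1 : R ⧸ I)
        + c 2 * (F 2) ⊗ₜ[κ] (1 : R ⧸ I) := by
    intro l
    simp only [← hb, Fin.sum_univ_three, det3]
    fin_cases l
    · refine ⟨![b 1 1 * b 2 2 - b 1 2 * b 2 1, b 1 2 * b 2 0 - b 1 0 * b 2 2,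
        b 1 0 * b 2 1 - b 1 1 * b 2 0], ?_⟩
      simp only [Fin.zero_eta, Matrix.cons_val_zero, Matrix.cons_val_one, Matrix.cons_val]
      ring
    · refine ⟨![b 0 2 * b 2 1 - b 0 1 * b 2 2, b 0 0 * b 2 2 - b 0 2 * b 2 0,
        b 0 1 * b 2 0 - b 0 0 * b 2 1], ?_⟩
      simp only [Fin.mk_one, Matrix.cons_val_zero, Matrix.cons_val_one, Matrix.cons_val]
      ring
    · refine ⟨![b 0 1 * b 1 2 - b 0 2 * b 1 1, b 0 2 * b 1 0 - b 0 0 * b 1 2,
        b 0 0 * b 1 1 - b 0 1 * b 1 0], ?_⟩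
      simp only [Fin.reduceFinMk, Matrix.cons_val_zero, Matrix.cons_val_one, Matrix.cons_val]
      ring
  obtain ⟨c, hc⟩ := e l
  rw [hc]
  exact Ideal.add_mem _ (Ideal.add_mem _ (Ideal.mul_mem_left _ _ (h 0))
    (Ideal.mul_mem_left _ _ (h 1))) (Ideal.mul_mem_left _ _ (h 2))

/-- The key lemma, with an adapted basis. -/
theorem key_adapted (hX : Algebra.adjoin κ (Set.range X) = ⊤)
    (d : Fin 3 → R →+ R) (hd : ∀ i a b, d i (a * b) = d i a * b + a * d i b)
    (hdX : ∀ i l, d i (X l) = 0)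
    (H1 : ∀ l i j, Algebra.leftMulMatrix v (Ideal.Quotient.mk I (X l)) i j ≠ 0 → ℓ j < ℓ i)
    (H2 : ∀ k i j, Algebra.leftMulMatrix v (v k) i j ≠ 0 → ℓ k ≤ ℓ i)
    (F : Fin 3 → R) (hF : ∀ j, F j ∈ I) :
    det3 (fun i j => d i (F j)) ∈ I := by
  classical
  -- the matrices b
  have hb' : ∀ j, ∃ c : Fin 3 → R ⊗[κ] (R ⧸ I), ∑ l, xi I X l * c l = F j ⊗ₜ[κ] (1 : R ⧸ I) := by
    intro j
    obtain ⟨c, hc⟩ := diag_mem I X hX (F j)
    refine ⟨c, ?_⟩
    rw [(Ideal.Quotient.eq_zero_iff_mem).2 (hF j), TensorProduct.tmul_zero, sub_zero] at hc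
    rw [← hc]
    exact Finset.sum_congr rfl fun l _ => mul_comm _ _
  choose b' hb' using hb'
  set b : Fin 3 → Fin 3 → R ⊗[κ] (R ⧸ I) := fun l j => b' j l with hbdef
  have hb : ∀ j, ∑ l, xi I X l * b l j = F j ⊗ₜ[κ] (1 : R ⧸ I) := fun j => hb' j
  set δ : Fin 3 → Matrix ι ι R →+ Matrix ι ι R := fun i => (d i).mapMatrix with hδ
  have main := three_fold (rho I v : R ⊗[κ] (R ⧸ I) →+* Matrix ι ι R) (LL I v) (LL_right I v)
    (xi I X) (fun l => rho_mem I v _ (mu_xi I X l)) b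
    (by
      intro j
      rw [hb j]
      exact rho_mem I v _ (by rw [mu_tmul, (Ideal.Quotient.eq_zero_iff_mem).2 (hF j), zero_mul]))
    (by
      intro j z
      rw [hb j]
      show rho I v _ * z = z * rho I v _
      rw [rho_tmul_one]
      exact Algebra.commutes _ _)
    δ (fun i a c => mapMatrix_leib (d i) (hd i) a c) 1
  have hG : ∀ i j, δ i ((rho I v : R ⊗[κ] (R ⧸ I) →+* Matrix ι ι R) (∑ l, xi I X l * b l j))
      = algebraMap R (Matrix ι ι R) (d i (F j)) := by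
    intro i j
    rw [hb j]
    show (d i).mapMatrix (rho I v _) = _
    rw [rho_tmul_one, mapMatrix_scalar]
  have hdet : det3 (fun i j => δ i ((rho I v : R ⊗[κ] (R ⧸ I) →+* Matrix ι ι R)
      (∑ l, xi I X l * b l j))) = algebraMap R (Matrix ι ι R) (det3 (fun i j => d i (F j))) := by
    simp only [hG, det3, map_add, map_sub, map_mul]
  rw [hdet] at main
  -- a vector u with pr u = 1
  obtain ⟨u, hu⟩ : ∃ u : ι → R, pr I v u = 1 := by
    refine ⟨(Algebra.TensorProduct.basis R v).repr 1, ?_⟩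
    rw [pr_eq, map_one]
  have hmain := main u
  set w : ι → R := (rho I v (det3 b)).mulVec u with hw
  set D : Fin 3 → Fin 3 → Matrix ι ι R :=
    fun i l => δ i ((rho I v : R ⊗[κ] (R ⧸ I) →+* Matrix ι ι R) (xi I X l)) with hD
  have e1 : ((algebraMap R (Matrix ι ι R)) (det3 fun i j => (d i) (F j)) * 1 -
      anti3 D * (rho I v : R ⊗[κ] (R ⧸ I) →+* Matrix ι ι R) (det3 b) * 1).mulVec u
      = (det3 fun i j => (d i) (F j)) • u - (anti3 D).mulVec w := by
    rw [mul_one, mul_one, Matrix.sub_mulVec, ← Matrix.mulVec_mulVec]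
    congr 1
    ext i
    simp [Matrix.mulVec, dotProduct, Matrix.algebraMap_matrix_apply]
  rw [e1] at hmain
  have e2 : pr I v ((det3 fun i j => (d i) (F j)) • u - (anti3 D).mulVec w)
      = Ideal.Quotient.mk I (det3 fun i j => (d i) (F j)) - pr I v ((anti3 D).mulVec w) := by
    rw [sub_eq_add_neg, pr_add, pr_neg, ← sub_eq_add_neg]
    congr 1
    have : pr I v ((det3 fun i j => (d i) (F j)) • u)
        = Ideal.Quotient.mk I (det3 fun i j => (d i) (F j)) * pr I v u := by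
      simp only [pr, Pi.smul_apply, smul_eq_mul, map_mul, Finset.mul_sum, mul_assoc]
    rw [this, hu, mul_one]
  rw [e2, sub_eq_zero] at hmain
  rw [← Ideal.Quotient.eq_zero_iff_mem, hmain]
  -- Casimir property
  have cas : ∀ (a : R ⧸ I) (j : ι),
      a * Ideal.Quotient.mk I (w j) =
        ∑ m, Ideal.Quotient.mk I (algebraMap κ R (Algebra.leftMulMatrix v a j m)) *
          Ideal.Quotient.mk I (w m) := by
    intro a j
    obtain ⟨F', rfl⟩ := Ideal.Quotient.mk_surjective a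
    obtain ⟨c, hc⟩ := diag_mem I X hX F'
    have hs : (F' ⊗ₜ[κ] (1 : R ⧸ I) - 1 ⊗ₜ[κ] (Ideal.Quotient.mk I F')) * det3 b ∈
        Ideal.span (Set.range fun j => (F j) ⊗ₜ[κ] (1 : R ⧸ I)) := by
      rw [← hc, Finset.sum_mul]
      refine Ideal.sum_mem _ fun l _ => ?_
      rw [mul_assoc]
      exact Ideal.mul_mem_left _ _ (cramer_mem I X F b hb l)
    have hent : ((rho I v ((F' ⊗ₜ[κ] (1 : R ⧸ I) - 1 ⊗ₜ[κ] (Ideal.Quotient.mk I F')) *
        det3 b)).mulVec u) j ∈ I := by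
      rw [Matrix.mulVec, dotProduct]
      exact I.sum_mem fun m _ => I.mul_mem_right _ (entries_mem I v _ F hF hs j m)
    rw [map_mul, ← Matrix.mulVec_mulVec, ← hw, map_sub, Matrix.sub_mulVec, Pi.sub_apply,
      rho_tmul_one] at hent
    rw [← Ideal.Quotient.eq_zero_iff_mem, map_sub, sub_eq_zero] at hent
    have l1 : ((algebraMap R (Matrix ι ι R) F').mulVec w) j = F' * w j := by
      simp [Matrix.mulVec, dotProduct, Matrix.algebraMap_matrix_apply]
    rw [l1, map_mul] at hent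
    rw [hent, Matrix.mulVec, dotProduct, map_sum]
    refine Finset.sum_congr rfl fun m _ => ?_
    rw [rho_one_tmul, map_mul]
  have kill : ∀ i j, ℓ j < ℓ i → v i * Ideal.Quotient.mk I (w j) = 0 := by
    intro i j hij
    rw [cas]
    refine Finset.sum_eq_zero fun m _ => ?_
    have : Algebra.leftMulMatrix v (v i) j m = 0 := by
      by_contra hne
      exact absurd (H2 i j m hne) (not_le.2 hij)
    rw [this]; simp
  -- strict triangularity of D
  have hDtri : ∀ a l i j, D a l i j ≠ 0 → ℓ j < ℓ i := by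
    intro a l i j hne
    apply H1 l
    intro h0
    apply hne
    show (d a) ((rho I v (xi I X l)) i j) = 0
    rw [xi, map_sub, Matrix.sub_apply, rho_tmul_one, rho_one_tmul, h0, map_zero, sub_zero,
      Matrix.algebraMap_matrix_apply]
    split_ifs
    · exact hdX a l
    · simp
  have hmul : ∀ m n : Matrix ι ι R, (∀ i j, m i j ≠ 0 → ℓ j < ℓ i) →
      (∀ i j, n i j ≠ 0 → ℓ j < ℓ i) → (∀ i j, (m * n) i j ≠ 0 → ℓ j < ℓ i) := by
    intro m n hm hn i j hne
    rw [Matrix.mul_apply] at hne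
    obtain ⟨k, -, hk⟩ := Finset.exists_ne_zero_of_sum_ne_zero hne
    have h1 := hm i k (left_ne_zero_of_mul hk)
    have h2 := hn k j (right_ne_zero_of_mul hk)
    omega
  have hadd : ∀ m n : Matrix ι ι R, (∀ i j, m i j ≠ 0 → ℓ j < ℓ i) →
      (∀ i j, n i j ≠ 0 → ℓ j < ℓ i) → (∀ i j, (m + n) i j ≠ 0 → ℓ j < ℓ i) := by
    intro m n hm hn i j hne
    by_cases h : m i j = 0
    · apply hn
      intro h'
      apply hne
      rw [Matrix.add_apply, h, h', add_zero]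
    · exact hm i j h
  have hsub : ∀ m n : Matrix ι ι R, (∀ i j, m i j ≠ 0 → ℓ j < ℓ i) →
      (∀ i j, n i j ≠ 0 → ℓ j < ℓ i) → (∀ i j, (m - n) i j ≠ 0 → ℓ j < ℓ i) := by
    intro m n hm hn i j hne
    by_cases h : m i j = 0
    · apply hn
      intro h'
      apply hne
      rw [Matrix.sub_apply, h, h', sub_zero]
    · exact hm i j h
  have hanti : ∀ i j, (anti3 D) i j ≠ 0 → ℓ j < ℓ i := by
    have h3 : ∀ a a' a'' l l' l'', ∀ i j, (D a l * D a' l' * D a'' l'') i j ≠ 0 → ℓ j < ℓ i :=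
      fun a a' a'' l l' l'' => hmul _ _ (hmul _ _ (hDtri _ _) (hDtri _ _)) (hDtri _ _)
    rw [anti3]
    exact hsub _ _ (hadd _ _ (hsub _ _ (hadd _ _ (hsub _ _ (h3 _ _ _ _ _ _) (h3 _ _ _ _ _ _))
      (h3 _ _ _ _ _ _)) (h3 _ _ _ _ _ _)) (h3 _ _ _ _ _ _)) (h3 _ _ _ _ _ _)
  rw [pr]
  refine Finset.sum_eq_zero fun i _ => ?_
  rw [Matrix.mulVec, dotProduct, map_sum, Finset.sum_mul]
  refine Finset.sum_eq_zero fun j _ => ?_
  by_cases h0 : (anti3 D) i j = 0
  · rw [h0]; simp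
  · have := kill i j (hanti i j h0)
    rw [map_mul, mul_assoc, mul_comm (Ideal.Quotient.mk I (w j)), this, mul_zero]

end


/-- **Key lemma.** If `I` is supported at the origin (it contains a power of the ideal of the
variables) then for any three elements of `I` and any three derivations of the coefficient field
(extended coefficientwise), the determinant of the derivatives lies in `I`. -/
theorem key_lemma {κ R : Type*} [Field κ] [CommRing R] [Algebra κ R] (I : Ideal R)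
    (X : Fin 3 → R) (hX : Algebra.adjoin κ (Set.range X) = ⊤) [Module.Finite κ (R ⧸ I)]
    (N : ℕ) (hN : (Ideal.span (Set.range X)) ^ N ≤ I)
    (d : Fin 3 → R →+ R) (hd : ∀ i a b, d i (a * b) = d i a * b + a * d i b)
    (hdX : ∀ i l, d i (X l) = 0) (F : Fin 3 → R) (hF : ∀ j, F j ∈ I) :
    det3 (fun i j => d i (F j)) ∈ I := by
  classical
  set m : Ideal (R ⧸ I) := (Ideal.span (Set.range X)).map (Ideal.Quotient.mk I) with hm
  have hmN : m ^ N = ⊥ := by
    rw [hm, ← Ideal.map_pow, eq_bot_iff]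
    refine (Ideal.map_mono hN).trans ?_
    rw [Ideal.map_quotient_self]
  obtain ⟨s, v, ℓ, hv, hrep⟩ := exists_adapted_basis
    (fun r => (m ^ r).restrictScalars κ) (fun a b hab => by
      intro x hx
      exact Ideal.pow_le_pow_right hab hx) (by simp) N (by simp [hmN])
  haveI : Finite s := Module.Finite.finite_basis v
  haveI : Fintype s := Fintype.ofFinite s
  have hXm : ∀ l, Ideal.Quotient.mk I (X l) ∈ m := fun l =>
    Ideal.mem_map_of_mem _ (Ideal.subset_span ⟨l, rfl⟩)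
  refine key_adapted I X v ℓ hX d hd hdX ?_ ?_ F hF
  · intro l i j hne
    rw [Algebra.leftMulMatrix_eq_repr_mul] at hne
    refine Nat.lt_of_succ_le (hrep (ℓ j + 1) _ ?_ i hne)
    show _ ∈ m ^ (ℓ j + 1)
    rw [pow_succ']
    exact Ideal.mul_mem_mul (hXm l) (hv j)
  · intro k i j hne
    rw [Algebra.leftMulMatrix_eq_repr_mul] at hne
    refine hrep (ℓ k) _ ?_ i hne
    exact Ideal.mul_mem_right _ _ (hv k)

end Pool.Agent.H19
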