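import Mathlib
import Pool.Agent.H19.KeyLemma
import Pool.Agent.H19.Colength

namespace Pool.Agent.H19

open Module

theorem finrank_inf_le {κ V : Type*} [Field κ] [AddCommGroup V] [Module κ V] [Module.Finite κ V]
    (P Q : Submodule κ V) : finrank κ (V ⧸ (P ⊓ Q)) ≤ finrank κ (V ⧸ P) + finrank κ (V ⧸ Q) := by
  have h1 := Submodule.finrank_quotient_add_finrank (P ⊓ Q)
  have h2 := Submodule.finrank_quotient_add_finrank P
  have h3 := Submodule.finrank_quotient_add_finrank Q
  have h4 := Submodule.finrank_sup_add_finrank_inf_eq P Q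
  have h5 := Submodule.finrank_le (P ⊔ Q)
  omega

theorem exists_ideal_of_det {κ A : Type*} [Field κ] [CommRing A] [Algebra κ A]
    [Module.Finite κ A] (T : Submodule A (Fin 3 → A))
    (hT : ∀ t : Fin 3 → Fin 3 → A, (∀ i, t i ∈ T) → det3 t = 0) :
    ∃ b : Ideal A, (∀ x ∈ b, ∀ y ∈ b, ∀ z ∈ b, x * y * z = 0) ∧
      finrank κ (A ⧸ b.restrictScalars κ) + 3 * finrank κ (T.restrictScalars κ)
        ≤ 9 * finrank κ A := by
  classical
  set a : Fin 3 → Ideal A := fun j => T.comap (LinearMap.single A (fun _ : Fin 3 => A) j) with ha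
  have hprod : ∀ x ∈ a 0, ∀ y ∈ a 1, ∀ z ∈ a 2, x * y * z = 0 := by
    intro x hx y hy z hz
    have := hT ![Pi.single 0 x, Pi.single 1 y, Pi.single 2 z] (by
      intro i
      fin_cases i
      · exact hx
      · exact hy
      · exact hz)
    simpa [det3] using this
  have hquot : ∀ j, finrank κ (A ⧸ (a j).restrictScalars κ) ≤
      finrank κ ((Fin 3 → A) ⧸ T.restrictScalars κ) := by
    intro j
    have hle : (a j).restrictScalars κ ≤ (T.restrictScalars κ).comap
        ((LinearMap.single A (fun _ : Fin 3 => A) j).restrictScalars κ) := fun x hx => hx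
    refine LinearMap.finrank_le_finrank_of_injective
      (f := Submodule.mapQ _ _ _ hle) ?_
    rw [injective_iff_map_eq_zero]
    intro x hx
    obtain ⟨x, rfl⟩ := Submodule.Quotient.mk_surjective _ x
    have hx' : (Submodule.Quotient.mk (LinearMap.single A (fun _ : Fin 3 => A) j x) :
      (Fin 3 → A) ⧸ T.restrictScalars κ) = 0 := hx
    rw [Submodule.Quotient.mk_eq_zero] at hx' ⊢
    exact hx'
  refine ⟨a 0 ⊓ a 1 ⊓ a 2, fun x hx y hy z hz => hprod x hx.1.1 y hy.1.2 z hz.2, ?_⟩
  have e : (a 0 ⊓ a 1 ⊓ a 2).restrictScalars κ =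
    ((a 0).restrictScalars κ ⊓ (a 1).restrictScalars κ) ⊓ (a 2).restrictScalars κ := rfl
  rw [e]
  have h1 := finrank_inf_le ((a 0).restrictScalars κ ⊓ (a 1).restrictScalars κ)
    ((a 2).restrictScalars κ)
  have h2 := finrank_inf_le ((a 0).restrictScalars κ) ((a 1).restrictScalars κ)
  have h3 := hquot 0
  have h4 := hquot 1
  have h5 := hquot 2
  have htot := Submodule.finrank_quotient_add_finrank (T.restrictScalars κ)
  have h3n : finrank κ (Fin 3 → A) = 3 * finrank κ A := by
    rw [Module.finrank_pi_fintype]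
    simp
  rw [h3n] at htot
  omega

/-- If all 3x3 determinants of vectors of a submodule `T` of `A^3` vanish, then `A^3/T` is large. -/
theorem bound_of_det {κ : Type*} [Field κ] (I : Ideal (MvPolynomial (Fin 3) κ))
    [Module.Finite κ (MvPolynomial (Fin 3) κ ⧸ I)]
    (T : Submodule (MvPolynomial (Fin 3) κ ⧸ I) (Fin 3 → MvPolynomial (Fin 3) κ ⧸ I))
    (hT : ∀ t : Fin 3 → Fin 3 → MvPolynomial (Fin 3) κ ⧸ I, (∀ i, t i ∈ T) → det3 t = 0) :
    81 * finrank κ (T.restrictScalars κ) ≤ 242 * finrank κ (MvPolynomial (Fin 3) κ ⧸ I) := by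
  classical
  obtain ⟨b, hb, hbT⟩ := exists_ideal_of_det (κ := κ) T hT
  set J : Ideal (MvPolynomial (Fin 3) κ) := b.comap (Ideal.Quotient.mk I) with hJ
  have hJ3 : J ^ 3 ≤ I := by
    rw [pow_succ, pow_two, Ideal.mul_le]
    intro r hr s hs
    have : ∀ r ∈ J * J, r * s ∈ I := by
      intro r hr
      refine Submodule.mul_induction_on hr ?_ ?_
      · intro p hp q hq
        rw [← Ideal.Quotient.eq_zero_iff_mem, map_mul, map_mul]
        exact hb _ hp _ hq _ hs
      · intro p q hp hq
        rw [add_mul]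
        exact I.add_mem hp hq
    exact this r hr
  -- R/J has the same dimension as A/b
  have hsurj : Function.Surjective ((b.restrictScalars κ).mkQ.comp
      (Ideal.Quotient.mkₐ κ I).toLinearMap) :=
    (Submodule.mkQ_surjective _).comp (Ideal.Quotient.mk_surjective)
  have hker : LinearMap.ker ((b.restrictScalars κ).mkQ.comp
      (Ideal.Quotient.mkₐ κ I).toLinearMap) = J.restrictScalars κ := by
    ext x
    simp only [LinearMap.mem_ker, LinearMap.comp_apply, Submodule.mkQ_apply,
      Submodule.Quotient.mk_eq_zero, Submodule.restrictScalars_mem]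
    rfl
  have e := LinearMap.quotKerEquivOfSurjective _ hsurj
  rw [hker] at e
  have hJb : finrank κ (MvPolynomial (Fin 3) κ ⧸ J) =
      finrank κ ((MvPolynomial (Fin 3) κ ⧸ I) ⧸ b.restrictScalars κ) := e.finrank_eq
  have hJfin : Module.Finite κ (MvPolynomial (Fin 3) κ ⧸ J) := Module.Finite.equiv e.symm
  obtain ⟨hfin3, h27⟩ := finrank_cube_le J
  have hn3 : finrank κ (MvPolynomial (Fin 3) κ ⧸ I) ≤
      finrank κ (MvPolynomial (Fin 3) κ ⧸ J ^ 3) := by
    refine LinearMap.finrank_le_finrank_of_surjective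
      (f := (Ideal.Quotient.factorₐ κ hJ3).toLinearMap) ?_
    exact Ideal.Quotient.factor_surjective hJ3
  rw [← hJb] at hbT
  omega

end Pool.Agent.H19
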