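import Mathlib

namespace Pool.Agent.H19

open Module TensorProduct

open scoped IntermediateField.algebraAdjoinAdjoin in
theorem finrank_derivation_eq (k κ : Type*) [Field k] [Field κ] [Algebra k κ]
    (s : Finset κ) (hs : IsTranscendenceBasis k ((↑) : s → κ))
    (hsep : Algebra.IsSeparable (IntermediateField.adjoin k (s : Set κ)) κ) :
    finrank κ (Derivation k κ κ) = s.card := by
  classical
  set v : s → κ := (↑) with hv
  have hrange : (s : Set κ) = Set.range v := by
    rw [hv, Subtype.range_coe_subtype]; rfl
  rw [hrange] at hsep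
  let algS : Algebra (MvPolynomial s k) κ := (MvPolynomial.aeval v).toAlgebra
  have tow : IsScalarTower k (MvPolynomial s k) κ :=
    IsScalarTower.of_algebraMap_eq fun r => by
      show _ = (MvPolynomial.aeval v) _
      simp
  let alg1 : Algebra (MvPolynomial s k) (Algebra.adjoin k (Set.range v)) :=
    (hs.1.aevalEquiv : MvPolynomial s k →ₐ[k] _).toAlgebra
  have tow2 : IsScalarTower (MvPolynomial s k) (Algebra.adjoin k (Set.range v)) κ :=
    IsScalarTower.of_algebraMap_eq fun r => by
      show (MvPolynomial.aeval v) r = ((hs.1.aevalEquiv r : Algebra.adjoin k (Set.range v)) : κ)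
      simp
  have et1 : Algebra.FormallyEtale (MvPolynomial s k) (Algebra.adjoin k (Set.range v)) := by
    have e : MvPolynomial s k ≃ₐ[MvPolynomial s k] Algebra.adjoin k (Set.range v) :=
      AlgEquiv.ofBijective (Algebra.ofId _ _) hs.1.aevalEquiv.bijective
    exact Algebra.FormallyEtale.of_equiv e
  have et2 : Algebra.FormallyEtale (Algebra.adjoin k (Set.range v))
      (IntermediateField.adjoin k (Set.range v)) :=
    Algebra.FormallyEtale.of_isLocalization (nonZeroDivisors _)
  have et3 : Algebra.FormallyEtale (IntermediateField.adjoin k (Set.range v)) κ :=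
    Algebra.FormallyEtale.of_isSeparable _ κ
  have et23 : Algebra.FormallyEtale (Algebra.adjoin k (Set.range v)) κ :=
    Algebra.FormallyEtale.comp _ (IntermediateField.adjoin k (Set.range v)) _
  have et : Algebra.FormallyEtale (MvPolynomial s k) κ :=
    Algebra.FormallyEtale.comp _ (Algebra.adjoin k (Set.range v)) _
  have e1 := KaehlerDifferential.tensorKaehlerEquivOfFormallyEtale k (MvPolynomial s k) κ
  have b := (Algebra.TensorProduct.basis κ (KaehlerDifferential.mvPolynomialBasis k s)).map e1
  have hfin : Module.Finite κ (KaehlerDifferential k κ) := Module.Finite.of_basis b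
  have h1 : finrank κ (KaehlerDifferential k κ) = s.card := by
    rw [Module.finrank_eq_card_basis b, Fintype.card_coe]
  rw [← (KaehlerDifferential.linearMapEquivDerivation k κ (M := κ)).finrank_eq, ← h1]
  exact Subspace.dual_finrank_eq

theorem card_le_finrank_derivation (k κ : Type*) [Field k] [Field κ] [Algebra k κ]
    [PerfectField k] [Algebra.EssFiniteType k κ] {σ : Type*} [Fintype σ] (x : σ → κ)
    (hx : AlgebraicIndependent k x) : Fintype.card σ ≤ finrank κ (Derivation k κ κ) := by
  obtain ⟨s, hs, hsep⟩ := exists_isTranscendenceBasis_and_isSeparable_of_perfectField k κ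
  rw [finrank_derivation_eq k κ s hs hsep]
  have h1 := hx.lift_cardinalMk_le_trdeg
  have h2 := hs.cardinalMk_eq_trdeg
  rw [← h2] at h1
  simpa using h1

end Pool.Agent.H19
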