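import Mathlib
import Pool.Agent.H19.Bound

namespace Pool.Agent.H19

open Module

section

variable {A : Type*} [CommRing A]

/-- determinant of three vectors -/
def dt (a b c : Fin 3 → A) : A :=
  (a 0 * b 1 - a 1 * b 0) * c 2 + (a 1 * b 2 - a 2 * b 1) * c 0 + (a 2 * b 0 - a 0 * b 2) * c 1

theorem det3_eq (t : Fin 3 → Fin 3 → A) : det3 t = dt (t 0) (t 1) (t 2) := rfl

theorem dt_span (G : Set (Fin 3 → A)) (hG : ∀ a ∈ G, ∀ b ∈ G, ∀ c ∈ G, dt a b c = 0) :
    ∀ a ∈ Submodule.span A G, ∀ b ∈ Submodule.span A G, ∀ c ∈ Submodule.span A G,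
      dt a b c = 0 := by
  have h1 : ∀ a ∈ Submodule.span A G, ∀ b ∈ G, ∀ c ∈ G, dt a b c = 0 := by
    intro a ha b hb c hc
    induction ha using Submodule.span_induction with
    | mem x hx => exact hG x hx b hb c hc
    | zero => simp [dt]
    | add x y _ _ hx hy =>
      have : dt (x + y) b c = dt x b c + dt y b c := by simp only [dt, Pi.add_apply]; ring
      rw [this, hx, hy, add_zero]
    | smul r x _ hx =>
      have : dt (r • x) b c = r * dt x b c := by
        simp only [dt, Pi.smul_apply, smul_eq_mul]; ring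
      rw [this, hx, mul_zero]
  have h2 : ∀ a ∈ Submodule.span A G, ∀ b ∈ Submodule.span A G, ∀ c ∈ G, dt a b c = 0 := by
    intro a ha b hb c hc
    induction hb using Submodule.span_induction with
    | mem x hx => exact h1 a ha x hx c hc
    | zero => simp [dt]
    | add x y _ _ hx hy =>
      have : dt a (x + y) c = dt a x c + dt a y c := by simp only [dt, Pi.add_apply]; ring
      rw [this, hx, hy, add_zero]
    | smul r x _ hx =>
      have : dt a (r • x) c = r * dt a x c := by
        simp only [dt, Pi.smul_apply, smul_eq_mul]; ring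
      rw [this, hx, mul_zero]
  intro a ha b hb c hc
  induction hc using Submodule.span_induction with
  | mem x hx => exact h2 a ha b hb x hx
  | zero => simp [dt]
  | add x y _ _ hx hy =>
    have : dt a b (x + y) = dt a b x + dt a b y := by simp only [dt, Pi.add_apply]; ring
    rw [this, hx, hy, add_zero]
  | smul r x _ hx =>
    have : dt a b (r • x) = r * dt a b x := by
      simp only [dt, Pi.smul_apply, smul_eq_mul]; ring
    rw [this, hx, mul_zero]

end

section

open MvPolynomial

variable {κ : Type*} [Field κ]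

/-- coefficientwise extension of an additive map -/
noncomputable def cextFun (δ : κ →+ κ) (f : MvPolynomial (Fin 3) κ) : MvPolynomial (Fin 3) κ :=
  ∑ a ∈ f.support, monomial a (δ (coeff a f))

theorem coeff_cextFun (δ : κ →+ κ) (f : MvPolynomial (Fin 3) κ) (b : Fin 3 →₀ ℕ) :
    coeff b (cextFun δ f) = δ (coeff b f) := by
  classical
  rw [cextFun, coeff_sum]
  simp only [coeff_monomial]
  by_cases h : b ∈ f.support
  · rw [Finset.sum_eq_single b]
    · simp
    · intro c _ hc; rw [if_neg hc]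
    · intro h'; exact absurd h h'
  · rw [MvPolynomial.notMem_support_iff.1 h, map_zero]
    refine Finset.sum_eq_zero fun c hc => ?_
    rw [if_neg]
    rintro rfl
    exact h hc

/-- coefficientwise extension of an additive map -/
noncomputable def cext (δ : κ →+ κ) : MvPolynomial (Fin 3) κ →+ MvPolynomial (Fin 3) κ where
  toFun := cextFun δ
  map_zero' := by simp [cextFun]
  map_add' := by
    intro f g
    ext b
    rw [coeff_add, coeff_cextFun, coeff_cextFun, coeff_cextFun, coeff_add, map_add]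

theorem coeff_cext (δ : κ →+ κ) (f : MvPolynomial (Fin 3) κ) (b : Fin 3 →₀ ℕ) :
    coeff b (cext δ f) = δ (coeff b f) := coeff_cextFun δ f b

theorem cext_mul (δ : κ →+ κ) (hδ : ∀ a b, δ (a * b) = δ a * b + a * δ b)
    (f g : MvPolynomial (Fin 3) κ) : cext δ (f * g) = cext δ f * g + f * cext δ g := by
  classical
  ext b
  rw [coeff_cext, coeff_add, coeff_mul, coeff_mul, coeff_mul, map_sum, ← Finset.sum_add_distrib]
  refine Finset.sum_congr rfl fun x _ => ?_
  rw [hδ, coeff_cext, coeff_cext]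

theorem cext_monomial_one (δ : κ →+ κ) (hδ : δ 1 = 0) (a : Fin 3 →₀ ℕ) :
    cext δ (monomial a 1) = 0 := by
  classical
  ext b
  rw [coeff_cext, coeff_monomial, coeff_zero]
  split_ifs
  · exact hδ
  · exact map_zero δ

theorem cext_C_mul (δ : κ →+ κ) (hδ : ∀ a b, δ (a * b) = δ a * b + a * δ b) (c : κ)
    (f : MvPolynomial (Fin 3) κ) : cext δ (C c * f) = C (δ c) * f + C c * cext δ f := by
  ext b
  rw [coeff_cext, coeff_add, coeff_C_mul, coeff_C_mul, coeff_C_mul, coeff_cext, hδ]

/-- The tangent bound: the `A`-span of the vectors `(δ F_j mod I)_j` satisfies the bound. -/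
theorem span_der_bound (I : Ideal (MvPolynomial (Fin 3) κ))
    [Module.Finite κ (MvPolynomial (Fin 3) κ ⧸ I)] (N : ℕ)
    (hN : (Ideal.span (Set.range (X : Fin 3 → MvPolynomial (Fin 3) κ))) ^ N ≤ I)
    (F : Fin 3 → MvPolynomial (Fin 3) κ) (hF : ∀ j, F j ∈ I) (W : Set (κ →+ κ))
    (hW : ∀ δ ∈ W, δ 1 = 0 ∧ ∀ a b, δ (a * b) = δ a * b + a * δ b) :
    81 * finrank κ ((Submodule.span (MvPolynomial (Fin 3) κ ⧸ I)
      {t : Fin 3 → MvPolynomial (Fin 3) κ ⧸ I | ∃ δ ∈ W, ∀ j,
        t j = Ideal.Quotient.mk I (cext δ (F j))}).restrictScalars κ)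
      ≤ 242 * finrank κ (MvPolynomial (Fin 3) κ ⧸ I) := by
  apply bound_of_det
  intro t ht
  rw [det3_eq]
  refine dt_span _ ?_ _ (ht 0) _ (ht 1) _ (ht 2)
  rintro a ⟨d0, hd0, ha⟩ b ⟨d1, hd1, hb⟩ c ⟨d2, hd2, hc⟩
  have hmem : ∀ i : Fin 3, (![d0, d1, d2] : Fin 3 → (κ →+ κ)) i ∈ W := by
    intro i
    fin_cases i
    · exact hd0
    · exact hd1
    · exact hd2
  have key := key_lemma (κ := κ) I (X : Fin 3 → MvPolynomial (Fin 3) κ)
    (MvPolynomial.adjoin_range_X) N hN
    (fun i => cext ((![d0, d1, d2] : Fin 3 → (κ →+ κ)) i))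
    (fun i => cext_mul _ (hW _ (hmem i)).2)
    (fun i l => cext_monomial_one _ (hW _ (hmem i)).1 _) F hF
  rw [← Ideal.Quotient.eq_zero_iff_mem] at key
  rw [← key]
  simp only [dt, ha, hb, hc, det3, map_add, map_mul, map_sub, Matrix.cons_val_zero,
    Matrix.cons_val_one, Matrix.cons_val]

end

end Pool.Agent.H19
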