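import Mathlib
import Pool.Agent.H19.SpanDet
import Pool.Agent.H19.DerTrdeg

namespace Pool.Agent.H19

open Module MvPolynomial

/-- exponents -/
abbrev Ex := Fin 3 →₀ ℕ

section

variable {S : Type*} [CommRing S] (B : Finset Ex) (Nf : Ex → B → S)

/-- the polynomial `x^a - ∑_b Nf a b x^b` -/
noncomputable def wp (a : Ex) : MvPolynomial (Fin 3) S :=
  monomial a 1 - ∑ b : B, monomial (b : Ex) (Nf a b)

/-- the ideal generated by the `wp a` -/
noncomputable def Iw : Ideal (MvPolynomial (Fin 3) S) := Ideal.span (Set.range (wp B Nf))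

/-- normal form map -/
noncomputable def qf (f : MvPolynomial (Fin 3) S) : B → S := ∑ a ∈ f.support, coeff a f • Nf a

theorem qf_eq (f : MvPolynomial (Fin 3) S) (s : Finset Ex) (hs : f.support ⊆ s) :
    qf B Nf f = ∑ a ∈ s, coeff a f • Nf a := by
  rw [qf]
  refine Finset.sum_subset hs fun a _ ha => ?_
  rw [MvPolynomial.notMem_support_iff.1 ha, zero_smul]

theorem qf_add (f g : MvPolynomial (Fin 3) S) : qf B Nf (f + g) = qf B Nf f + qf B Nf g := by
  classical
  rw [qf_eq B Nf (f + g) (f.support ∪ g.support) MvPolynomial.support_add,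
    qf_eq B Nf f (f.support ∪ g.support) Finset.subset_union_left,
    qf_eq B Nf g (f.support ∪ g.support) Finset.subset_union_right, ← Finset.sum_add_distrib]
  refine Finset.sum_congr rfl fun a _ => ?_
  rw [coeff_add, add_smul]

theorem qf_monomial (a : Ex) (c : S) : qf B Nf (monomial a c) = c • Nf a := by
  classical
  rw [qf_eq B Nf _ {a} MvPolynomial.support_monomial_subset, Finset.sum_singleton,
    coeff_monomial, if_pos rfl]

theorem qf_smul (c : S) (f : MvPolynomial (Fin 3) S) : qf B Nf (c • f) = c • qf B Nf f := by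
  rw [qf_eq B Nf (c • f) f.support MvPolynomial.support_smul, qf, Finset.smul_sum]
  refine Finset.sum_congr rfl fun a _ => ?_
  rw [coeff_smul, smul_eq_mul, mul_smul]

/-- the normal form map as a linear map -/
noncomputable def qfl : MvPolynomial (Fin 3) S →ₗ[S] (B → S) where
  toFun := qf B Nf
  map_add' := qf_add B Nf
  map_smul' := qf_smul B Nf

variable (c1 : ∀ b : B, Nf (b : Ex) = Pi.single b 1)
  (c3 : ∀ a l, Nf (a + Finsupp.single l 1) = ∑ b : B, Nf a b • Nf ((b : Ex) + Finsupp.single l 1))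

include c1 in
theorem qfl_wp (a : Ex) : qfl B Nf (wp B Nf a) = 0 := by
  classical
  have h : ∀ a c, qfl B Nf (monomial a c) = c • Nf a := qf_monomial B Nf
  rw [wp, map_sub, map_sum, h, one_smul, sub_eq_zero]
  ext b
  rw [Finset.sum_apply]
  simp only [h, c1, Pi.smul_apply, smul_eq_mul]
  rw [Finset.sum_eq_single b]
  · simp
  · intro b' _ hb'
    rw [Pi.single_eq_of_ne hb'.symm, mul_zero]
  · intro h'; exact absurd (Finset.mem_univ _) h'

include c3 in
theorem qfl_mul_X (f : MvPolynomial (Fin 3) S) (hf : qfl B Nf f = 0) (l : Fin 3) :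
    qfl B Nf (X l * f) = 0 := by
  classical
  have h : ∀ f, qfl B Nf (X l * f) = ∑ b : B, qfl B Nf f b • Nf ((b : Ex) + Finsupp.single l 1) := by
    intro f
    induction f using MvPolynomial.induction_on' with
    | monomial a c =>
      have e : (X l * monomial a c : MvPolynomial (Fin 3) S)
          = monomial (a + Finsupp.single l 1) c := by
        rw [X, monomial_mul, one_mul, add_comm]
      have h : ∀ a c, qfl B Nf (monomial a c) = c • Nf a := qf_monomial B Nf
      rw [e, h, h, c3, Finset.smul_sum]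
      refine Finset.sum_congr rfl fun b _ => ?_
      rw [Pi.smul_apply, smul_smul, smul_eq_mul]
    | add p q hp hq =>
      rw [mul_add, map_add, hp, hq, ← Finset.sum_add_distrib]
      refine Finset.sum_congr rfl fun b _ => ?_
      rw [map_add, Pi.add_apply, add_smul]
  rw [h, hf]
  simp

include c3 in
theorem qfl_mul (g f : MvPolynomial (Fin 3) S) (hf : qfl B Nf f = 0) :
    qfl B Nf (g * f) = 0 := by
  induction g using MvPolynomial.induction_on with
  | C a =>
    rw [← smul_eq_C_mul, map_smul, hf, smul_zero]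
  | add p q hp hq => rw [add_mul, map_add, hp, hq, add_zero]
  | mul_X p l hp =>
    have : p * X l * f = X l * (p * f) := by ring
    rw [this]
    exact qfl_mul_X B Nf c3 _ hp l

include c1 c3 in
theorem qfl_Iw (f : MvPolynomial (Fin 3) S) (hf : f ∈ Iw B Nf) : qfl B Nf f = 0 := by
  rw [Iw] at hf
  induction hf using Submodule.span_induction with
  | mem x hx =>
    obtain ⟨a, rfl⟩ := hx
    exact qfl_wp B Nf c1 a
  | zero => exact map_zero _
  | add x y _ _ hx hy => rw [map_add, hx, hy, add_zero]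
  | smul r x _ hx => exact qfl_mul B Nf c3 r x hx

theorem sub_mem_Iw (f : MvPolynomial (Fin 3) S) :
    f - ∑ b : B, monomial (b : Ex) (qfl B Nf f b) ∈ Iw B Nf := by
  classical
  induction f using MvPolynomial.induction_on' with
  | monomial a c =>
    have h : ∀ a c, qfl B Nf (monomial a c) = c • Nf a := qf_monomial B Nf
    have : monomial a c - ∑ b : B, monomial (b : Ex) (qfl B Nf (monomial a c) b)
      = C c * wp B Nf a := by
      rw [wp, mul_sub, Finset.mul_sum, C_mul_monomial, mul_one]
      congr 1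
      refine Finset.sum_congr rfl fun b _ => ?_
      rw [h, C_mul_monomial, Pi.smul_apply, smul_eq_mul]
    rw [this]
    exact Ideal.mul_mem_left _ _ (Ideal.subset_span ⟨a, rfl⟩)
  | add p q hp hq =>
    have : p + q - ∑ b : B, monomial (b : Ex) (qfl B Nf (p + q) b) =
      (p - ∑ b : B, monomial (b : Ex) (qfl B Nf p b)) +
      (q - ∑ b : B, monomial (b : Ex) (qfl B Nf q b)) := by
      simp only [map_add, Pi.add_apply, Finset.sum_add_distrib]
      ring
    rw [this]
    exact Ideal.add_mem _ hp hq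

include c1 c3 in
theorem mem_Iw_iff (f : MvPolynomial (Fin 3) S) : f ∈ Iw B Nf ↔ qfl B Nf f = 0 := by
  refine ⟨qfl_Iw B Nf c1 c3 f, fun h => ?_⟩
  have := sub_mem_Iw B Nf f
  rw [h] at this
  simpa using this

end

section

variable {k κ : Type*} [Field k] [Field κ] [Algebra k κ] (B : Finset Ex) (Nf : Ex → B → κ)
  (c1 : ∀ b : B, Nf (b : Ex) = Pi.single b 1)
  (c3 : ∀ a l, Nf (a + Finsupp.single l 1) =
    ∑ b : B, Nf a b • Nf ((b : Ex) + Finsupp.single l 1))
  (n : ℕ) (c2 : ∀ a : Ex, n ≤ a.degree → Nf a = 0) (g : Fin 3 → Ex)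
  (c4 : ∀ a, wp B Nf a ∈ Ideal.span (Set.range fun j => wp B Nf (g j)) ⊔
    idealOfVars (Fin 3) κ * Iw B Nf)

include c1 c3 in
theorem finite_quot_Iw : Module.Finite κ (MvPolynomial (Fin 3) κ ⧸ Iw B Nf) ∧
    finrank κ (MvPolynomial (Fin 3) κ ⧸ Iw B Nf) = B.card := by
  classical
  have hsurj : Function.Surjective (qfl B Nf) := by
    intro u
    refine ⟨∑ b : B, monomial (b : Ex) (u b), ?_⟩
    have h : ∀ a c, qfl B Nf (monomial a c) = c • Nf a := qf_monomial B Nf
    rw [map_sum]
    simp only [h, c1]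
    ext b
    rw [Finset.sum_apply, Finset.sum_eq_single b]
    · simp
    · intro b' _ hb'
      simp [Pi.single_eq_of_ne hb'.symm]
    · intro h'; exact absurd (Finset.mem_univ _) h'
  have hker : LinearMap.ker (qfl B Nf) = (Iw B Nf).restrictScalars κ := by
    ext f
    rw [LinearMap.mem_ker, Submodule.restrictScalars_mem, mem_Iw_iff B Nf c1 c3]
  have e := LinearMap.quotKerEquivOfSurjective _ hsurj
  rw [hker] at e
  refine ⟨Module.Finite.equiv e.symm, ?_⟩
  have := e.finrank_eq
  rw [Module.finrank_pi, Fintype.card_coe] at this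
  exact this

include c1 c3 c2 in
theorem pow_le_Iw : idealOfVars (Fin 3) κ ^ n ≤ Iw B Nf := by
  intro f hf
  rw [MvPolynomial.mem_pow_idealOfVars_iff] at hf
  rw [mem_Iw_iff B Nf c1 c3]
  show qf B Nf f = 0
  rw [qf]
  refine Finset.sum_eq_zero fun a ha => ?_
  rw [c2 a (hf a ha), smul_zero]

include c4 in
theorem Iw_le (N : ℕ) : Iw B Nf ≤ Ideal.span (Set.range fun j => wp B Nf (g j)) ⊔
    idealOfVars (Fin 3) κ ^ N * Iw B Nf := by
  set Fi := Ideal.span (Set.range fun j => wp B Nf (g j)) with hFi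
  have h1 : Iw B Nf ≤ Fi ⊔ idealOfVars (Fin 3) κ * Iw B Nf := by
    rw [Iw, Ideal.span_le]
    rintro _ ⟨a, rfl⟩
    exact c4 a
  induction N with
  | zero => rw [pow_zero, Ideal.one_eq_top, Ideal.top_mul]; exact le_sup_right
  | succ N ih =>
    refine ih.trans ?_
    refine sup_le le_sup_left ?_
    refine (Ideal.mul_mono_right h1).trans ?_
    rw [Ideal.mul_sup]
    refine sup_le ?_ ?_
    · exact Ideal.mul_le_right.trans le_sup_left
    · rw [← mul_assoc, ← pow_succ]
      exact le_sup_right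

theorem cext_mem_pow (δ : κ →+ κ) (f : MvPolynomial (Fin 3) κ) (N : ℕ)
    (hf : f ∈ idealOfVars (Fin 3) κ ^ N) : cext δ f ∈ idealOfVars (Fin 3) κ ^ N := by
  rw [MvPolynomial.mem_pow_idealOfVars_iff'] at hf ⊢
  intro x hx
  have := hf x hx
  show coeff x (cext δ f) = 0
  rw [coeff_cext]
  have h2 : coeff x f = 0 := this
  rw [h2, map_zero]

include c1 c3 c2 c4 in
theorem cext_mem_Iw (δ : κ →+ κ) (hδ : ∀ a b, δ (a * b) = δ a * b + a * δ b)
    (hF : ∀ j, cext δ (wp B Nf (g j)) ∈ Iw B Nf) (f : MvPolynomial (Fin 3) κ)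
    (hf : f ∈ Iw B Nf) : cext δ f ∈ Iw B Nf := by
  have h := Iw_le B Nf g c4 n hf
  obtain ⟨u, hu, w, hw, rfl⟩ := Submodule.mem_sup.1 h
  rw [map_add]
  refine Ideal.add_mem _ ?_ ?_
  · clear h hf
    induction hu using Submodule.span_induction with
    | mem x hx =>
      obtain ⟨j, rfl⟩ := hx
      exact hF j
    | zero => rw [map_zero]; exact Ideal.zero_mem _
    | add x y _ _ hx hy => rw [map_add]; exact Ideal.add_mem _ hx hy
    | smul r x hx' hx =>
      rw [smul_eq_mul, cext_mul δ hδ]
      refine Ideal.add_mem _ (Ideal.mul_mem_left _ _ ?_) (Ideal.mul_mem_left _ _ hx)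
      have : Ideal.span (Set.range fun j => wp B Nf (g j)) ≤ Iw B Nf := by
        rw [Ideal.span_le]
        rintro _ ⟨j, rfl⟩
        exact Ideal.subset_span ⟨_, rfl⟩
      exact this hx'
  · exact pow_le_Iw B Nf c1 c3 n c2 (cext_mem_pow δ w n (Ideal.mul_le_left hw))

include c1 c3 c2 c4 in
theorem ci_bound (hgen : ∀ δ : Derivation k κ κ, (∀ a b, δ (Nf a b) = 0) → δ = 0) :
    81 * finrank κ (Derivation k κ κ) ≤ 242 * B.card := by
  classical
  obtain ⟨hfin, hcard⟩ := finite_quot_Iw B Nf c1 c3
  set I := Iw B Nf with hI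
  let toA : Derivation k κ κ → (κ →+ κ) := fun δ => (δ : κ →ₗ[k] κ).toAddMonoidHom
  have toA_apply : ∀ δ x, toA δ x = δ x := fun _ _ => rfl
  have toA_mul : ∀ δ a b, toA δ (a * b) = toA δ a * b + a * toA δ b := by
    intro δ a b
    rw [toA_apply, toA_apply, toA_apply, Derivation.leibniz]
    simp only [smul_eq_mul]; ring
  set W : Set (κ →+ κ) := Set.range toA with hW
  have hb := span_der_bound I n (pow_le_Iw B Nf c1 c3 n c2) (fun j => wp B Nf (g j))
    (fun j => Ideal.subset_span ⟨_, rfl⟩) W (by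
      rintro _ ⟨δ, rfl⟩
      refine ⟨?_, toA_mul δ⟩
      rw [toA_apply]; exact Derivation.map_one_eq_zero δ)
  rw [← hcard]
  refine le_trans (Nat.mul_le_mul_left _ ?_) hb
  -- the linear map
  set T := (Submodule.span (MvPolynomial (Fin 3) κ ⧸ I)
      {t : Fin 3 → MvPolynomial (Fin 3) κ ⧸ I | ∃ δ ∈ W, ∀ j,
        t j = Ideal.Quotient.mk I (cext δ (wp B Nf (g j)))}).restrictScalars κ with hT
  let Φ : Derivation k κ κ →ₗ[κ] (Fin 3 → MvPolynomial (Fin 3) κ ⧸ I) :=
    { toFun := fun δ j => Ideal.Quotient.mk I (cext (toA δ) (wp B Nf (g j)))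
      map_add' := by
        intro δ δ'
        ext j
        rw [Pi.add_apply, ← map_add]
        congr 1
        ext a
        rw [coeff_cext, coeff_add, coeff_cext, coeff_cext]
        rfl
      map_smul' := by
        intro c δ
        ext j
        have : cext (toA (c • δ)) (wp B Nf (g j)) = c • cext (toA δ) (wp B Nf (g j)) := by
          ext a
          rw [coeff_cext, coeff_smul, coeff_cext]
          rfl
        rw [this]
        rfl }
  have hΦT : ∀ δ, Φ δ ∈ T := fun δ => Submodule.subset_span ⟨toA δ, ⟨δ, rfl⟩, fun j => rfl⟩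
  have hinj : Function.Injective Φ := by
    rw [injective_iff_map_eq_zero]
    intro δ hδ
    apply hgen
    have h1 : ∀ j, cext (toA δ) (wp B Nf (g j)) ∈ Iw B Nf := by
      intro j
      rw [← Ideal.Quotient.eq_zero_iff_mem]
      exact congrFun hδ j
    intro a b
    have h2 := cext_mem_Iw B Nf c1 c3 n c2 g c4 (toA δ) (toA_mul δ) h1 (wp B Nf a)
      (Ideal.subset_span ⟨a, rfl⟩)
    rw [mem_Iw_iff B Nf c1 c3] at h2
    have hone : (toA δ) 1 = 0 := by rw [toA_apply]; exact Derivation.map_one_eq_zero δ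
    have h3 : cext (toA δ) (wp B Nf a) = - ∑ b : B, monomial (b : Ex) (δ (Nf a b)) := by
      rw [wp, map_sub, cext_monomial_one _ hone, zero_sub, map_sum]
      congr 1
      refine Finset.sum_congr rfl fun b _ => ?_
      ext c
      rw [coeff_cext, coeff_monomial, coeff_monomial]
      split_ifs
      · rfl
      · exact map_zero _
    have h : ∀ a c, qfl B Nf (monomial a c) = c • Nf a := qf_monomial B Nf
    rw [h3, map_neg, neg_eq_zero, map_sum] at h2
    simp only [h, c1] at h2
    have h4 := congrFun h2 b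
    rw [Finset.sum_apply, Finset.sum_eq_single b] at h4
    · simpa using h4
    · intro b' _ hb'
      simp [Pi.single_eq_of_ne hb'.symm]
    · intro h'; exact absurd (Finset.mem_univ _) h'
  have hcod := LinearMap.codRestrict T Φ hΦT
  refine LinearMap.finrank_le_finrank_of_injective (f := LinearMap.codRestrict T Φ hΦT) ?_
  intro x y hxy
  apply hinj
  exact congrArg Subtype.val hxy

end

end Pool.Agent.H19
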