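import Mathlib
import Pool.Agent.H19.CIBound

namespace Pool.Agent.H19

open Module MvPolynomial

section

variable {S : Type*} [CommRing S] (B E : Finset Ex) (g : Fin 3 → Ex)

/-- certificate, in coefficient form, that the ideal is generated by the three elements
`wp (g j)` modulo the maximal ideal times the ideal. -/
def C4 (Nf : Ex → B → S) : Prop :=
  ∀ a ∈ E, ∃ (c : Fin 3 → S) (d : Fin 3 → E → S), ∀ γ : Ex,
    coeff γ (wp B Nf a) = ∑ j, c j * coeff γ (wp B Nf (g j)) +
      ∑ l, ∑ β : E, d l β * coeff γ (X l * wp B Nf (β : Ex))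

theorem wp_map {S' : Type*} [CommRing S'] (ψ : S →+* S') (Nf : Ex → B → S) (a : Ex) :
    wp B (fun a b => ψ (Nf a b)) a = MvPolynomial.map ψ (wp B Nf a) := by
  simp [wp, MvPolynomial.map_monomial]

theorem C4_map {S' : Type*} [CommRing S'] (ψ : S →+* S') (Nf : Ex → B → S)
    (h : C4 B E g Nf) : C4 B E g (fun a b => ψ (Nf a b)) := by
  intro a ha
  obtain ⟨c, d, hcd⟩ := h a ha
  refine ⟨fun j => ψ (c j), fun l β => ψ (d l β), fun γ => ?_⟩
  rw [wp_map, coeff_map, hcd, map_add, map_sum, map_sum]
  congr 1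
  · refine Finset.sum_congr rfl fun j _ => ?_
    rw [map_mul, wp_map, coeff_map]
  · refine Finset.sum_congr rfl fun l _ => ?_
    rw [map_sum]
    refine Finset.sum_congr rfl fun β _ => ?_
    have : (X l * wp B (fun a b => ψ (Nf a b)) (β : Ex)) =
      MvPolynomial.map ψ (X l * wp B Nf (β : Ex)) := by
      rw [map_mul, map_X, wp_map]
    rw [map_mul, this, coeff_map]

theorem C4_pi {k : Type*} [Field k] {Ι : Type*} (Nf : Ι → Ex → B → k)
    (h : ∀ i, C4 B E g (Nf i)) : C4 (S := Ι → k) B E g (fun a b i => Nf i a b) := by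
  intro a ha
  choose c d hcd using fun i => h i a ha
  refine ⟨fun j i => c i j, fun l β i => d i l β, fun γ => ?_⟩
  ext i
  have e1 : ∀ a γ, coeff γ (wp (S := Ι → k) B (fun a b i => Nf i a b) a) i
      = coeff γ (wp B (Nf i) a) := by
    intro a γ
    have := wp_map (S := Ι → k) B (Pi.evalRingHom (fun _ : Ι => k) i) (fun a b i => Nf i a b) a
    have h2 := congrArg (coeff γ) this
    rw [coeff_map] at h2
    exact h2.symm
  have e2 : ∀ a γ l, coeff γ ((X l : MvPolynomial (Fin 3) (Ι → k)) *
        wp (S := Ι → k) B (fun a b i => Nf i a b) a) i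
      = coeff γ (X l * wp B (Nf i) a) := by
    intro a γ l
    have := wp_map (S := Ι → k) B (Pi.evalRingHom (fun _ : Ι => k) i) (fun a b i => Nf i a b) a
    have h1 : X l * wp B (Nf i) a = MvPolynomial.map (Pi.evalRingHom (fun _ : Ι => k) i)
      (X l * wp (S := Ι → k) B (fun a b i => Nf i a b) a) := by
      rw [map_mul, map_X, ← this]; rfl
    have h2 := congrArg (coeff γ) h1
    rw [coeff_map] at h2
    exact h2.symm
  rw [e1, hcd i γ, Pi.add_apply, Finset.sum_apply, Finset.sum_apply]
  congr 1
  · refine Finset.sum_congr rfl fun j _ => ?_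
    rw [Pi.mul_apply, e1]
  · refine Finset.sum_congr rfl fun l _ => ?_
    rw [Finset.sum_apply]
    refine Finset.sum_congr rfl fun β _ => ?_
    rw [Pi.mul_apply, e2]

theorem C4_descend {κ K : Type*} [Field κ] [Field K] [Algebra κ K] (Nf : Ex → B → κ)
    (h : C4 B E g (fun a b => algebraMap κ K (Nf a b))) : C4 B E g Nf := by
  -- a κ-linear retraction
  obtain ⟨r, hr⟩ : ∃ r : K →ₗ[κ] κ, ∀ x, r (algebraMap κ K x) = x := by
    obtain ⟨r, hr⟩ := LinearMap.exists_leftInverse_of_injective
      (Algebra.linearMap κ K) (LinearMap.ker_eq_bot.2 (algebraMap κ K).injective)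
    exact ⟨r, fun x => LinearMap.congr_fun hr x⟩
  have hr2 : ∀ c x, r (c * algebraMap κ K x) = r c * x := by
    intro c x
    rw [mul_comm, ← Algebra.smul_def, map_smul, smul_eq_mul, mul_comm]
  intro a ha
  obtain ⟨c, d, hcd⟩ := h a ha
  refine ⟨fun j => r (c j), fun l β => r (d l β), fun γ => ?_⟩
  have h1 := congrArg r (hcd γ)
  have e2 : ∀ l a, X l * wp B (fun a b => algebraMap κ K (Nf a b)) a
      = MvPolynomial.map (algebraMap κ K) (X l * wp B Nf a) := by
    intro l a
    rw [map_mul, map_X, wp_map]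
  simp only [e2] at h1
  simp only [wp_map, coeff_map] at h1
  rw [hr, map_add, map_sum, map_sum] at h1
  rw [h1]
  congr 1
  · refine Finset.sum_congr rfl fun j _ => hr2 _ _
  · refine Finset.sum_congr rfl fun l _ => ?_
    rw [map_sum]
    exact Finset.sum_congr rfl fun β _ => hr2 _ _

/-- from the certificate to the generation statement. -/
theorem c4_of_C4 {κ : Type*} [Field κ] (Nf : Ex → B → κ) (n : ℕ)
    (hE : ∀ a : Ex, a.degree ≤ n → a ∈ E)
    (c2 : ∀ a : Ex, n ≤ a.degree → Nf a = 0) (h : C4 B E g Nf) (a : Ex) :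
    wp B Nf a ∈ Ideal.span (Set.range fun j => wp B Nf (g j)) ⊔
      idealOfVars (Fin 3) κ * Iw B Nf := by
  classical
  have hwI : ∀ a, wp B Nf a ∈ Iw B Nf := fun a => Ideal.subset_span ⟨a, rfl⟩
  have hXm : ∀ l, (X l : MvPolynomial (Fin 3) κ) ∈ idealOfVars (Fin 3) κ :=
    fun l => Ideal.subset_span ⟨l, rfl⟩
  by_cases ha : a ∈ E
  · obtain ⟨c, d, hcd⟩ := h a ha
    have : wp B Nf a = ∑ j, C (c j) * wp B Nf (g j) +
        ∑ l, ∑ β : E, X l * (C (d l β) * wp B Nf (β : Ex)) := by
      ext γ
      rw [hcd γ, coeff_add, coeff_sum, coeff_sum]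
      congr 1
      · refine Finset.sum_congr rfl fun j _ => ?_
        rw [coeff_C_mul]
      · refine Finset.sum_congr rfl fun l _ => ?_
        rw [coeff_sum]
        refine Finset.sum_congr rfl fun β _ => ?_
        rw [← coeff_C_mul]
        congr 1
        ring
    rw [this]
    refine Ideal.add_mem _ ?_ ?_
    · refine Ideal.sum_mem _ fun j _ => Ideal.mul_mem_left _ _ ?_
      exact Submodule.mem_sup_left (Ideal.subset_span ⟨j, rfl⟩)
    · refine Ideal.sum_mem _ fun l _ => Ideal.sum_mem _ fun β _ => ?_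
      exact Submodule.mem_sup_right (Ideal.mul_mem_mul (hXm l) (Ideal.mul_mem_left _ _ (hwI _)))
  · have hdeg : n < a.degree := by
      by_contra hcon
      exact ha (hE a (not_lt.1 hcon))
    obtain ⟨l, hl⟩ : ∃ l, a l ≠ 0 := by
      by_contra hcon
      push Not at hcon
      have : a = 0 := Finsupp.ext hcon
      rw [this] at hdeg
      simp at hdeg
    set a' : Ex := a - Finsupp.single l 1 with ha'
    have haa : a = a' + Finsupp.single l 1 := by
      rw [ha']
      exact (tsub_add_cancel_of_le (by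
        intro i
        rw [Finsupp.single_apply]
        split_ifs with hi
        · subst hi; omega
        · omega)).symm
    have hdeg' : n ≤ a'.degree := by
      rw [haa, map_add] at hdeg
      have : (Finsupp.single l 1 : Ex).degree = 1 := by simp
      omega
    have h1 : wp B Nf a = X l * wp B Nf a' := by
      have e1 : wp B Nf a = monomial a 1 := by
        rw [wp, c2 a hdeg.le]; simp
      have e2 : wp B Nf a' = monomial a' 1 := by
        rw [wp, c2 a' hdeg']; simp
      rw [e1, e2, X, monomial_mul, one_mul, add_comm, ← haa]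
    rw [h1]
    exact Submodule.mem_sup_right (Ideal.mul_mem_mul (hXm l) (hwI _))

end

/-- The main dimension bound for families of complete intersections: if a family of
normal form data satisfying the certificates admits `σ` algebraically independent coordinates then
`81 |σ| ≤ 242 n`. -/
theorem generic_bound {k : Type*} [Field k] [PerfectField k] (Ι : Type*) (B E : Finset Ex)
    (n : ℕ) (hE : ∀ a : Ex, a.degree ≤ n → a ∈ E) (g : Fin 3 → Ex) (Nf : Ι → Ex → B → k)
    (c1 : ∀ i, ∀ b : B, Nf i (b : Ex) = Pi.single b 1)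
    (c2 : ∀ i, ∀ a : Ex, n ≤ a.degree → Nf i a = 0)
    (c3 : ∀ i, ∀ a l, Nf i (a + Finsupp.single l 1) =
      ∑ b : B, Nf i a b • Nf i ((b : Ex) + Finsupp.single l 1))
    (c4 : ∀ i, C4 B E g (Nf i)) (σ : Type*) [Fintype σ] (idx : σ → Ex × B)
    (hσ : ∀ P : MvPolynomial σ k,
      (∀ i, aeval (fun s => Nf i (idx s).1 (idx s).2) P = 0) → P = 0) :
    81 * Fintype.card σ ≤ 242 * B.card := by
  classical
  let NS : Ex → B → (Ι → k) := fun a b i => Nf i a b
  -- a prime ideal of the product ring
  let ev : MvPolynomial σ k →ₐ[k] (Ι → k) := aeval (fun s => NS (idx s).1 (idx s).2)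
  have hev : ∀ P i, ev P i = aeval (fun s => Nf i (idx s).1 (idx s).2) P := by
    intro P i
    have : (Pi.evalAlgHom k (fun _ : Ι => k) i).comp ev
        = aeval (fun s => Nf i (idx s).1 (idx s).2) := by
      apply MvPolynomial.algHom_ext
      intro s
      simp [ev, NS]
    exact DFunLike.congr_fun this P
  have hinj : ∀ P, ev P = 0 → P = 0 := by
    intro P hP
    apply hσ
    intro i
    rw [← hev, hP]; rfl
  let M : Submonoid (Ι → k) := (nonZeroDivisors (MvPolynomial σ k)).map ev
  have hdisj : Disjoint ((⊥ : Ideal (Ι → k)) : Set (Ι → k)) (M : Set (Ι → k)) := by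
    rw [Set.disjoint_left]
    rintro x hx ⟨P, hP, rfl⟩
    have h0 : ev P = 0 := by simpa using hx
    have := hinj P h0
    rw [this] at hP
    exact zero_notMem_nonZeroDivisors hP
  obtain ⟨p, hp, -, hpM⟩ := Ideal.exists_le_prime_disjoint (⊥ : Ideal (Ι → k)) M hdisj
  let K := FractionRing ((Ι → k) ⧸ p)
  let ψ : (Ι → k) →ₐ[k] K :=
    (IsScalarTower.toAlgHom k ((Ι → k) ⧸ p) K).comp (Ideal.Quotient.mkₐ k p)
  have hψ : ∀ x, ψ x = 0 → x ∈ p := by
    intro x hx
    have h1 : algebraMap ((Ι → k) ⧸ p) K (Ideal.Quotient.mk p x) = 0 := hx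
    rw [← Ideal.Quotient.eq_zero_iff_mem]
    exact (IsFractionRing.injective ((Ι → k) ⧸ p) K) (by rw [h1, map_zero])
  let NK : Ex → B → K := fun a b => ψ (NS a b)
  set G : Set K := {x | ∃ a b, x = NK a b} with hG
  let κ := IntermediateField.adjoin k G
  have hmem : ∀ a b, NK a b ∈ κ := fun a b => IntermediateField.subset_adjoin k G ⟨a, b, rfl⟩
  let Nκ : Ex → B → κ := fun a b => ⟨NK a b, hmem a b⟩
  have hcoe : ∀ a b, algebraMap κ K (Nκ a b) = NK a b := fun a b => rfl
  have hNK0 : ∀ a : Ex, n ≤ a.degree → NK a = 0 := by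
    intro a ha
    ext b
    have : NS a b = 0 := by
      ext i
      show Nf i a b = 0
      rw [c2 i a ha]; rfl
    show ψ (NS a b) = 0
    rw [this, map_zero]
  -- finite generation
  have hGfin : G.Finite := by
    have : G ⊆ insert 0 (Set.range fun x : E × B => NK x.1 x.2) := by
      rintro x ⟨a, b, rfl⟩
      by_cases ha : a ∈ E
      · exact Set.mem_insert_of_mem _ ⟨(⟨a, ha⟩, b), rfl⟩
      · have hdeg : n ≤ a.degree := by
          by_contra hcon
          exact ha (hE a (not_le.1 hcon).le)
        rw [hNK0 a hdeg]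
        exact Set.mem_insert _ _
    exact (Set.Finite.insert 0 (Set.finite_range _)).subset this
  have hfg : Algebra.EssFiniteType k κ := by
    rw [IntermediateField.essFiniteType_iff]
    exact IntermediateField.fg_adjoin_of_finite hGfin
  have hinjκ : Function.Injective (algebraMap κ K) := (algebraMap κ K).injective
  -- transfer of the identities
  have d1 : ∀ b : B, Nκ (b : Ex) = Pi.single b 1 := by
    intro b
    ext b'
    have h1 : NS (b : Ex) b' = (if b' = b then 1 else 0) := by
      ext i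
      show Nf i b b' = _
      rw [c1 i b, Pi.single_apply]
      split_ifs <;> rfl
    show NK b b' = (((Pi.single b 1 : B → κ) b' : κ) : K)
    show ψ (NS b b') = _
    rw [h1, Pi.single_apply]
    split_ifs <;> simp
  have d2 : ∀ a : Ex, n ≤ a.degree → Nκ a = 0 := by
    intro a ha
    ext b
    show NK a b = ((0 : κ) : K)
    rw [hNK0 a ha]; simp
  have d3 : ∀ a l, Nκ (a + Finsupp.single l 1) =
      ∑ b : B, Nκ a b • Nκ ((b : Ex) + Finsupp.single l 1) := by
    intro a l
    ext b'
    have h1 : NS (a + Finsupp.single l 1) b' =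
        ∑ b : B, NS a b * NS ((b : Ex) + Finsupp.single l 1) b' := by
      ext i
      rw [Finset.sum_apply]
      show Nf i (a + Finsupp.single l 1) b' = _
      rw [c3 i a l, Finset.sum_apply]
      rfl
    show NK (a + Finsupp.single l 1) b' = algebraMap κ K _
    rw [Finset.sum_apply, map_sum]
    show ψ (NS (a + Finsupp.single l 1) b') = _
    rw [h1, map_sum]
    refine Finset.sum_congr rfl fun b _ => ?_
    rw [Pi.smul_apply, smul_eq_mul, map_mul, map_mul]
    rfl
  have d4 : C4 B E g Nκ := by
    apply C4_descend (K := K)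
    have := C4_map B E g (ψ : (Ι → k) →+* K) _ (C4_pi B E g Nf c4)
    exact this
  have hgen : ∀ δ : Derivation k κ κ, (∀ a b, δ (Nκ a b) = 0) → δ = 0 := by
    intro δ hδ
    have h1 : ∀ x, (hx : x ∈ IntermediateField.adjoin k G) → δ ⟨x, hx⟩ = 0 := by
      intro x hx
      induction hx using IntermediateField.adjoin_induction with
      | mem x hx =>
        obtain ⟨a, b, rfl⟩ := hx
        exact hδ a b
      | algebraMap x => exact Derivation.map_algebraMap δ x
      | add x y hx hy h1 h2 =>
        have : (⟨x + y, IntermediateField.add_mem _ hx hy⟩ : κ) = ⟨x, hx⟩ + ⟨y, hy⟩ := rfl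
        rw [this, map_add, h1, h2, add_zero]
      | inv x hx h1 =>
        have : (⟨x⁻¹, IntermediateField.inv_mem _ hx⟩ : κ) = (⟨x, hx⟩ : κ)⁻¹ := rfl
        rw [this, Derivation.leibniz_inv, h1, smul_zero]
      | mul x y hx hy h1 h2 =>
        have : (⟨x * y, IntermediateField.mul_mem _ hx hy⟩ : κ) = ⟨x, hx⟩ * ⟨y, hy⟩ := rfl
        rw [this, Derivation.leibniz, h1, h2, smul_zero, smul_zero, add_zero]
    ext x
    rw [h1 x.1 x.2]; rfl
  have hb := ci_bound (k := k) B Nκ d1 d3 n d2 g (fun a => c4_of_C4 B E g Nκ n hE d2 d4 a) hgen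
  -- algebraic independence
  have hai : AlgebraicIndependent k (fun s => Nκ (idx s).1 (idx s).2) := by
    rw [algebraicIndependent_iff]
    intro P hP
    apply hinj
    by_contra hne
    have h1 : ψ (ev P) = 0 := by
      have h2 : (ψ.comp ev) P = algebraMap κ K (aeval (fun s => Nκ (idx s).1 (idx s).2) P) := by
        have h3 : ψ.comp ev = (IsScalarTower.toAlgHom k κ K).comp
            (aeval (fun s => Nκ (idx s).1 (idx s).2)) := by
          apply MvPolynomial.algHom_ext
          intro s
          simp [ev, Nκ, NK]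
        rw [h3]; rfl
      rw [hP, map_zero] at h2
      exact h2
    have h4 := hψ _ h1
    have hPne : P ≠ 0 := by
      rintro rfl
      exact hne (map_zero _)
    exact Set.disjoint_left.1 hpM h4 ⟨P, mem_nonZeroDivisors_of_ne_zero hPne, rfl⟩
  have hcard := card_le_finrank_derivation k κ _ hai
  omega

end Pool.Agent.H19
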