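import Mathlib
import Pool.Agent.H19.CIBound

namespace Pool.Agent.H19

open Module

/-- power series ring in three variables -/
abbrev PS (k : Type*) [Field k] := MvPowerSeries (Fin 3) k

section

variable {k : Type*} [Field k]

open MvPowerSeries in
theorem coeff_X_mul' (l : Fin 3) (f : MvPowerSeries (Fin 3) k) (a : Ex) :
    MvPowerSeries.coeff a (MvPowerSeries.X l * f) =
      if a l = 0 then 0 else MvPowerSeries.coeff (a - Finsupp.single l 1) f := by
  classical
  rw [MvPowerSeries.X, MvPowerSeries.coeff_monomial_mul]
  by_cases h : a l = 0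
  · rw [if_pos h, if_neg]
    intro hle
    have := hle l
    rw [Finsupp.single_apply, if_pos rfl, h] at this
    omega
  · rw [if_neg h, if_pos, one_mul]
    intro i
    rw [Finsupp.single_apply]
    split_ifs with hi
    · subst hi; omega
    · omega

/-- the ideal of power series of order at least `N`. -/
def Ord (k : Type*) [Field k] (N : ℕ) : Ideal (MvPowerSeries (Fin 3) k) where
  carrier := {f | ∀ a : Ex, a.degree < N → MvPowerSeries.coeff a f = 0}
  add_mem' := by
    intro f g hf hg a ha
    rw [map_add, hf a ha, hg a ha, add_zero]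
  zero_mem' := by intro a _; exact map_zero _
  smul_mem' := by
    classical
    intro c f hf a ha
    rw [smul_eq_mul, MvPowerSeries.coeff_mul]
    refine Finset.sum_eq_zero fun p hp => ?_
    rw [Finset.HasAntidiagonal.mem_antidiagonal] at hp
    rw [hf p.2, mul_zero]
    have : p.1.degree + p.2.degree = a.degree := by rw [← hp, map_add]
    omega

theorem mem_Ord {N : ℕ} {f : MvPowerSeries (Fin 3) k} :
    f ∈ Ord k N ↔ ∀ a : Ex, a.degree < N → MvPowerSeries.coeff a f = 0 := Iff.rfl

/-- the maximal ideal -/
noncomputable def mm (k : Type*) [Field k] : Ideal (MvPowerSeries (Fin 3) k) :=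
  Ideal.span (Set.range MvPowerSeries.X)

theorem X_mem_mm (l : Fin 3) : (MvPowerSeries.X l : MvPowerSeries (Fin 3) k) ∈ mm k :=
  Ideal.subset_span ⟨l, rfl⟩

/-- decomposition of a series of order at least `N+1`. -/
theorem exists_decomp (N : ℕ) (f : MvPowerSeries (Fin 3) k) (hf : f ∈ Ord k (N + 1)) :
    ∃ g : Fin 3 → MvPowerSeries (Fin 3) k, (∀ l, g l ∈ Ord k N) ∧
      f = ∑ l, MvPowerSeries.X l * g l := by
  classical
  let g : Fin 3 → MvPowerSeries (Fin 3) k := fun l a =>
    if ∀ i, i < l → a i = 0 then MvPowerSeries.coeff (a + Finsupp.single l 1) f else 0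
  have hg : ∀ l a, MvPowerSeries.coeff a (g l) =
      if ∀ i, i < l → a i = 0 then MvPowerSeries.coeff (a + Finsupp.single l 1) f else 0 :=
    fun _ _ => rfl
  refine ⟨g, ?_, ?_⟩
  · intro l a ha
    rw [hg]
    split_ifs
    · apply hf
      rw [map_add]
      have : (Finsupp.single l 1 : Ex).degree = 1 := by simp
      omega
    · rfl
  · ext a
    rw [map_sum]
    simp only [coeff_X_mul', hg]
    have hsub : ∀ l, a l ≠ 0 → a - Finsupp.single l 1 + Finsupp.single l 1 = a := by
      intro l hl
      refine tsub_add_cancel_of_le ?_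
      intro i
      rw [Finsupp.single_apply]
      split_ifs with hi
      · subst hi; omega
      · omega
    have hoth : ∀ l i, i ≠ l → (a - Finsupp.single l 1 : Ex) i = a i := by
      intro l i hil
      rw [Finsupp.tsub_apply, Finsupp.single_apply, if_neg (Ne.symm hil)]
      omega
    have hyes : ∀ l, a l ≠ 0 → (∀ i, i < l → a i = 0) →
        (if a l = 0 then (0 : k) else if ∀ i, i < l → (a - Finsupp.single l 1 : Ex) i = 0 then
          MvPowerSeries.coeff (a - Finsupp.single l 1 + Finsupp.single l 1) f else 0)
          = MvPowerSeries.coeff a f := by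
      intro l hl hmin
      rw [if_neg hl, if_pos, hsub l hl]
      intro i hi
      rw [hoth l i hi.ne, hmin i hi]
    have hno : ∀ l l', l' < l → a l' ≠ 0 →
        (if a l = 0 then (0 : k) else if ∀ i, i < l → (a - Finsupp.single l 1 : Ex) i = 0 then
          MvPowerSeries.coeff (a - Finsupp.single l 1 + Finsupp.single l 1) f else 0) = 0 := by
      intro l l' hl' hne
      split_ifs with h1 h2
      · rfl
      · exact absurd (h2 l' hl') (by rw [hoth l l' hl'.ne]; exact hne)
      · rfl
    have hzero : ∀ l, a l = 0 →
        (if a l = 0 then (0 : k) else if ∀ i, i < l → (a - Finsupp.single l 1 : Ex) i = 0 then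
          MvPowerSeries.coeff (a - Finsupp.single l 1 + Finsupp.single l 1) f else 0) = 0 := by
      intro l hl
      rw [if_pos hl]
    rw [Fin.sum_univ_three]
    by_cases h0 : a 0 = 0
    · by_cases h1 : a 1 = 0
      · by_cases h2 : a 2 = 0
        · have ha : a = 0 := by
            ext i; fin_cases i
            · exact h0
            · exact h1
            · exact h2
          rw [hzero 0 h0, hzero 1 h1, hzero 2 h2, ha, hf 0 (by simp)]
          simp
        · rw [hzero 0 h0, hzero 1 h1, hyes 2 h2 (by
            intro i hi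
            fin_cases i
            · exact h0
            · exact h1
            · exact absurd hi (lt_irrefl _))]
          simp
      · rw [hzero 0 h0, hno 2 1 (by decide) h1, hyes 1 h1 (by
            intro i hi
            fin_cases i
            · exact h0
            · exact absurd hi (lt_irrefl _)
            · exact absurd hi (by decide))]
        simp
    · rw [hno 1 0 (by decide) h0, hno 2 0 (by decide) h0, hyes 0 h0 (by
        intro i hi
        exact absurd hi (Fin.not_lt_zero i))]
      simp

theorem Ord_le_pow (N : ℕ) : Ord k N ≤ mm k ^ N := by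
  induction N with
  | zero => rw [pow_zero, Ideal.one_eq_top]; exact le_top
  | succ N ih =>
    intro f hf
    obtain ⟨g, hg, rfl⟩ := exists_decomp N f hf
    refine Ideal.sum_mem _ fun l _ => ?_
    rw [pow_succ']
    exact Ideal.mul_mem_mul (X_mem_mm l) (ih (hg l))

theorem X_mul_mem_Ord (N : ℕ) (l : Fin 3) (f : MvPowerSeries (Fin 3) k) (hf : f ∈ Ord k N) :
    MvPowerSeries.X l * f ∈ Ord k (N + 1) := by
  intro a ha
  rw [coeff_X_mul']
  split_ifs with h
  · rfl
  · apply hf
    have hsub : a - Finsupp.single l 1 + Finsupp.single l 1 = a := by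
      refine tsub_add_cancel_of_le ?_
      intro i
      rw [Finsupp.single_apply]
      split_ifs with hi
      · subst hi; omega
      · omega
    have h1 : (a - Finsupp.single l 1).degree + (Finsupp.single l 1 : Ex).degree = a.degree := by
      rw [← map_add, hsub]
    have : (Finsupp.single l 1 : Ex).degree = 1 := by simp
    omega

theorem pow_le_Ord (N : ℕ) : mm k ^ N ≤ Ord k N := by
  induction N with
  | zero => intro f _ a ha; exact absurd ha (Nat.not_lt_zero _)
  | succ N ih =>
    rw [pow_succ', Ideal.mul_le]
    intro r hr s hs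
    have hs' := ih hs
    rw [mm] at hr
    induction hr using Submodule.span_induction with
    | mem x hx =>
      obtain ⟨l, rfl⟩ := hx
      exact X_mul_mem_Ord N l s hs'
    | zero => rw [zero_mul]; exact Ideal.zero_mem _
    | add x y _ _ hx hy => rw [add_mul]; exact Ideal.add_mem _ hx hy
    | smul r x _ hx => rw [smul_eq_mul, mul_assoc]; exact Ideal.mul_mem_left _ _ hx

theorem pow_eq_Ord (N : ℕ) : mm k ^ N = Ord k N := le_antisymm (pow_le_Ord N) (Ord_le_pow N)

/-- `mm` is the maximal ideal -/
theorem mm_eq : mm k = IsLocalRing.maximalIdeal (MvPowerSeries (Fin 3) k) := by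
  apply le_antisymm
  · rw [mm, Ideal.span_le]
    rintro _ ⟨l, rfl⟩
    rw [SetLike.mem_coe, IsLocalRing.mem_maximalIdeal, mem_nonunits_iff,
      MvPowerSeries.isUnit_iff_constantCoeff]
    simp
  · intro f hf
    rw [IsLocalRing.mem_maximalIdeal, mem_nonunits_iff,
      MvPowerSeries.isUnit_iff_constantCoeff] at hf
    have : f ∈ Ord k 1 := by
      intro a ha
      have ha0 : a.degree = 0 := by omega
      rw [Finsupp.degree_eq_zero_iff] at ha0
      rw [ha0, MvPowerSeries.coeff_zero_eq_constantCoeff_apply]
      by_contra h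
      exact hf (isUnit_iff_ne_zero.2 h)
    have := Ord_le_pow 1 this
    rwa [pow_one] at this

theorem pow_finrank_eq_bot {k A : Type*} [Field k] [CommRing A] [Algebra k A] [Module.Finite k A]
    (m : Ideal A) (hmj : m ≤ Ideal.jacobson ⊥) (n : ℕ) (hn : finrank k A ≤ n) : m ^ n = ⊥ := by
  have hnoeth : IsNoetherianRing A := IsNoetherianRing.of_finite k A
  have key : ∀ i : ℕ, m ^ i = ⊥ ∨ finrank k ((m ^ i).restrictScalars k) + i ≤ n := by
    intro i
    induction i with
    | zero =>
      right
      have := Submodule.finrank_le ((m ^ 0).restrictScalars k)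
      omega
    | succ i ih =>
      rcases ih with ih | ih
      · left
        rw [pow_succ, ih, Ideal.bot_mul]
      · by_cases h0 : m ^ i = ⊥
        · left; rw [pow_succ, h0, Ideal.bot_mul]
        · right
          have hlt : m ^ (i + 1) < m ^ i := by
            refine lt_of_le_of_ne (Ideal.pow_le_pow_right (Nat.le_succ i)) ?_
            intro heq
            apply h0
            refine Submodule.eq_bot_of_le_smul_of_le_jacobson_bot m (m ^ i)
              (IsNoetherian.noetherian _) ?_ hmj
            rw [smul_eq_mul, ← pow_succ', heq]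
          have hlt' : (m ^ (i + 1)).restrictScalars k < (m ^ i).restrictScalars k := hlt
          have := Submodule.finrank_lt_finrank_of_lt hlt'
          omega
  rcases key n with h | h
  · exact h
  · have h0 : finrank k ((m ^ n).restrictScalars k) = 0 := by omega
    have := Submodule.finrank_eq_zero.1 h0
    rwa [Submodule.restrictScalars_eq_bot_iff] at this

/-- an ideal of colength `n` contains the `n`-th power of the maximal ideal. -/
theorem pow_le_of_finrank (J : Ideal (MvPowerSeries (Fin 3) k)) (n : ℕ)
    [Module.Finite k (MvPowerSeries (Fin 3) k ⧸ J)]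
    (hn : finrank k (MvPowerSeries (Fin 3) k ⧸ J) = n) : mm k ^ n ≤ J := by
  classical
  by_cases hJ : J = ⊤
  · rw [hJ]; exact le_top
  have hnt : Nontrivial (MvPowerSeries (Fin 3) k ⧸ J) := Ideal.Quotient.nontrivial_iff.2 hJ
  have hloc : IsLocalRing (MvPowerSeries (Fin 3) k ⧸ J) :=
    IsLocalRing.of_surjective' (Ideal.Quotient.mk J) Ideal.Quotient.mk_surjective
  have hmj : (mm k).map (Ideal.Quotient.mk J) ≤ Ideal.jacobson ⊥ := by
    rw [IsLocalRing.jacobson_eq_maximalIdeal ⊥ bot_ne_top]
    refine IsLocalRing.le_maximalIdeal ?_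
    rw [Ne, Ideal.eq_top_iff_one, Ideal.mem_map_iff_of_surjective _
      Ideal.Quotient.mk_surjective]
    rintro ⟨x, hx, hx1⟩
    rw [← map_one (Ideal.Quotient.mk J), Ideal.Quotient.eq] at hx1
    have h1 : x - 1 ∈ IsLocalRing.maximalIdeal (MvPowerSeries (Fin 3) k) :=
      IsLocalRing.le_maximalIdeal hJ hx1
    rw [mm_eq] at hx
    have h2 : (1 : MvPowerSeries (Fin 3) k) ∈ IsLocalRing.maximalIdeal
        (MvPowerSeries (Fin 3) k) := by
      have := Ideal.sub_mem _ hx h1
      simpa only [sub_sub_cancel] using this
    exact (IsLocalRing.maximalIdeal.isMaximal _).ne_top ((Ideal.eq_top_iff_one _).2 h2)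
  have hmn := pow_finrank_eq_bot (k := k) _ hmj n hn.le
  rw [← Ideal.map_pow] at hmn
  rwa [Ideal.map_eq_bot_iff_le_ker, Ideal.mk_ker] at hmn

end

end Pool.Agent.H19
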