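import Mathlib
import Pool.Agent.H19.PS
import Pool.Agent.H19.Generic

namespace Pool.Agent.H19

open Module

/-- exponents of degree at most `n` -/
def EE (n : ℕ) : Finset Ex :=
  (Finset.range (n + 1)).biUnion (fun d => (Finset.univ : Finset (Fin 3)).finsuppAntidiag d)

theorem mem_EE {n : ℕ} {a : Ex} : a ∈ EE n ↔ a.degree ≤ n := by
  simp only [EE, Finset.mem_biUnion, Finset.mem_range, Finset.mem_finsuppAntidiag,
    Finsupp.degree_eq_sum]
  constructor
  · rintro ⟨d, hd, h, -⟩
    have : ∑ i, a i = d := h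
    omega
  · intro h
    exact ⟨_, Nat.lt_succ_of_le h, rfl, Finset.subset_univ _⟩

section

variable {k : Type*} [Field k] (J : Ideal (MvPowerSeries (Fin 3) k)) (n : ℕ)
  [Module.Finite k (MvPowerSeries (Fin 3) k ⧸ J)]
  (hn : finrank k (MvPowerSeries (Fin 3) k ⧸ J) = n)
  (B : Finset Ex) (v : Basis B k (MvPowerSeries (Fin 3) k ⧸ J))
  (hv : ∀ b : B, v b = Ideal.Quotient.mk J (MvPowerSeries.monomial (b : Ex) (1 : k)))

/-- normal form coefficients -/
noncomputable def NJ (a : Ex) (b : B) : k :=
  v.repr (Ideal.Quotient.mk J (MvPowerSeries.monomial a (1 : k))) b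

omit [Module.Finite k (MvPowerSeries (Fin 3) k ⧸ J)] in
theorem mk_monomial_eq (a : Ex) : Ideal.Quotient.mk J (MvPowerSeries.monomial a (1 : k)) =
    ∑ b : B, NJ J B v a b • v b := by
  rw [← v.sum_repr (Ideal.Quotient.mk J (MvPowerSeries.monomial a (1 : k)))]
  simp only [NJ, v.sum_repr]

include hv in
omit [Module.Finite k (MvPowerSeries (Fin 3) k ⧸ J)] in
theorem NJ_c1 (b : B) : NJ J B v (b : Ex) = Pi.single b 1 := by
  classical
  ext b'
  rw [NJ, ← hv, Basis.repr_self, Finsupp.single_apply, Pi.single_apply]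
  simp [eq_comm]

include hn in
theorem NJ_c2 (a : Ex) (ha : n ≤ a.degree) : NJ J B v a = 0 := by
  classical
  ext b
  have h1 : (MvPowerSeries.monomial a (1 : k)) ∈ Ord k n := by
    intro c hc
    rw [MvPowerSeries.coeff_monomial, if_neg]
    rintro rfl
    omega
  have h2 := pow_le_of_finrank J n hn (Ord_le_pow n h1)
  rw [NJ, Ideal.Quotient.eq_zero_iff_mem.2 h2, map_zero]
  rfl

include hv in
omit [Module.Finite k (MvPowerSeries (Fin 3) k ⧸ J)] in
theorem NJ_c3 (a : Ex) (l : Fin 3) : NJ J B v (a + Finsupp.single l 1) =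
    ∑ b : B, NJ J B v a b • NJ J B v ((b : Ex) + Finsupp.single l 1) := by
  classical
  have hmul : ∀ a : Ex, MvPowerSeries.monomial (a + Finsupp.single l 1) (1 : k) =
      MvPowerSeries.monomial a (1 : k) * MvPowerSeries.X l := by
    intro a
    rw [MvPowerSeries.X, MvPowerSeries.monomial_mul_monomial, one_mul]
  ext b'
  rw [NJ, hmul, map_mul, mk_monomial_eq J B v a, Finset.sum_mul, map_sum, Finset.sum_apply,
    Finsupp.finsetSum_apply]
  refine Finset.sum_congr rfl fun b _ => ?_
  rw [smul_mul_assoc, map_smul, Pi.smul_apply, Finsupp.smul_apply, hv b, ← map_mul, ← hmul, NJ]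
  rfl

/-- the power series version of `wp` -/
noncomputable def wps (a : Ex) : MvPowerSeries (Fin 3) k :=
  MvPowerSeries.monomial a 1 - ∑ b : B, MvPowerSeries.monomial (b : Ex) (NJ J B v a b)

omit [Module.Finite k (MvPowerSeries (Fin 3) k ⧸ J)] in
theorem wps_eq (a : Ex) :
    wps J B v a = ((wp B (NJ J B v) a : MvPolynomial (Fin 3) k) : MvPowerSeries (Fin 3) k) := by
  rw [wps, wp]
  rw [← MvPolynomial.coeToMvPowerSeries.ringHom_apply, map_sub, map_sum]
  simp

omit [Module.Finite k (MvPowerSeries (Fin 3) k ⧸ J)] in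
theorem mk_smul_monomial (a : Ex) (c : k) :
    Ideal.Quotient.mk J (MvPowerSeries.monomial a c) =
      c • Ideal.Quotient.mk J (MvPowerSeries.monomial a (1 : k)) := by
  have : (MvPowerSeries.monomial a c : MvPowerSeries (Fin 3) k)
      = c • MvPowerSeries.monomial a (1 : k) := by
    rw [← map_smul, smul_eq_mul, mul_one]
  rw [this]; rfl

include hv in
omit [Module.Finite k (MvPowerSeries (Fin 3) k ⧸ J)] in
theorem wps_mem (a : Ex) : wps J B v a ∈ J := by
  rw [← Ideal.Quotient.eq_zero_iff_mem, wps, map_sub, map_sum, sub_eq_zero, mk_monomial_eq J B v]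
  refine Finset.sum_congr rfl fun b _ => ?_
  rw [mk_smul_monomial, hv]

include hn hv in
/-- every element of `J` is a combination of the `wps a` modulo order `> n`. -/
theorem sub_mem_Ord (r : MvPowerSeries (Fin 3) k) (hr : r ∈ J) :
    r - ∑ a ∈ EE n, MvPowerSeries.coeff a r • wps J B v a ∈ Ord k (n + 1) := by
  classical
  set r1 : MvPowerSeries (Fin 3) k :=
    ∑ a ∈ EE n, MvPowerSeries.coeff a r • MvPowerSeries.monomial a (1 : k) with hr1
  set z : B → k := fun b => ∑ a ∈ EE n, MvPowerSeries.coeff a r * NJ J B v a b with hz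
  have hfirst : r - r1 ∈ Ord k (n + 1) := by
    intro c hc
    rw [map_sub, hr1, map_sum, Finset.sum_eq_single c]
    · simp
    · intro b _ hb
      rw [map_smul, MvPowerSeries.coeff_monomial, if_neg hb.symm, smul_zero]
    · intro h
      exact absurd (mem_EE.2 (Nat.le_of_lt_succ hc)) h
  have hsplit : r - ∑ a ∈ EE n, MvPowerSeries.coeff a r • wps J B v a =
      (r - r1) + ∑ b : B, MvPowerSeries.monomial (b : Ex) (z b) := by
    have : ∑ a ∈ EE n, MvPowerSeries.coeff a r • wps J B v a =
        r1 - ∑ b : B, MvPowerSeries.monomial (b : Ex) (z b) := by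
      rw [hr1]
      simp only [wps, smul_sub, Finset.sum_sub_distrib]
      congr 1
      simp only [Finset.smul_sum]
      rw [Finset.sum_comm]
      refine Finset.sum_congr rfl fun b _ => ?_
      rw [hz]
      simp only [map_sum]
      refine Finset.sum_congr rfl fun a _ => ?_
      rw [← map_smul, smul_eq_mul]
    rw [this]; ring
  have hJz : ∑ b : B, MvPowerSeries.monomial (b : Ex) (z b) ∈ J := by
    have e : ∑ b : B, MvPowerSeries.monomial (b : Ex) (z b) =
      (r - ∑ a ∈ EE n, MvPowerSeries.coeff a r • wps J B v a) - (r - r1) := by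
      rw [hsplit]; ring
    rw [e]
    refine J.sub_mem (J.sub_mem hr (J.sum_mem fun a _ => ?_)) ?_
    · rw [MvPowerSeries.smul_eq_C_mul]
      exact J.mul_mem_left _ (wps_mem J B v hv a)
    · have h1 : Ord k (n + 1) ≤ J := by
        refine le_trans ?_ (pow_le_of_finrank J n hn)
        rw [← pow_eq_Ord]
        exact Ideal.pow_le_pow_right (Nat.le_succ n)
      exact h1 hfirst
  have hz0 : ∀ b, z b = 0 := by
    rw [← Ideal.Quotient.eq_zero_iff_mem, map_sum] at hJz
    have h2 : ∑ b : B, z b • v b = 0 := by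
      rw [← hJz]
      refine Finset.sum_congr rfl fun b _ => ?_
      rw [mk_smul_monomial, hv]
    exact fun b => Fintype.linearIndependent_iff.1 v.linearIndependent z h2 b
  rw [hsplit]
  simp only [hz0, map_zero, Finset.sum_const_zero, add_zero]
  exact hfirst

/-- the quotient `P / mm J` -/
noncomputable def imJ : Submodule k (MvPowerSeries (Fin 3) k ⧸ (mm k * J)) :=
  (J.restrictScalars k).map (Ideal.Quotient.mkₐ k (mm k * J)).toLinearMap

omit [Module.Finite k (MvPowerSeries (Fin 3) k ⧸ J)] in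
theorem imJ_finite (f : Fin 3 → MvPowerSeries (Fin 3) k)
    (hf : J = Ideal.span (Set.range f)) :
    Module.Finite k (imJ J) ∧ finrank k (imJ J) ≤ 3 := by
  classical
  have hle : imJ J ≤ Submodule.span k (Set.range fun i =>
      Ideal.Quotient.mk (mm k * J) (f i)) := by
    rintro _ ⟨r, hr, rfl⟩
    have hr' : r ∈ J := hr
    rw [hf] at hr'
    obtain ⟨s, hs⟩ := Ideal.mem_span_range_iff_exists_fun.1 hr'
    show Ideal.Quotient.mk (mm k * J) r ∈ _
    rw [← hs, map_sum]
    refine Submodule.sum_mem _ fun i _ => ?_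
    have h1 : s i - MvPowerSeries.C (MvPowerSeries.constantCoeff (s i)) ∈ mm k := by
      rw [← pow_one (mm k), pow_eq_Ord]
      intro a ha
      have ha0 : a.degree = 0 := by omega
      rw [Finsupp.degree_eq_zero_iff] at ha0
      rw [ha0, map_sub]
      simp
    have h2 : Ideal.Quotient.mk (mm k * J) (s i * f i) =
        MvPowerSeries.constantCoeff (s i) • Ideal.Quotient.mk (mm k * J) (f i) := by
      have h3 : MvPowerSeries.constantCoeff (s i) • Ideal.Quotient.mk (mm k * J) (f i) =
        Ideal.Quotient.mk (mm k * J) (MvPowerSeries.C (MvPowerSeries.constantCoeff (s i)) * f i) := by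
        rw [← MvPowerSeries.smul_eq_C_mul]; rfl
      rw [h3, Ideal.Quotient.eq, ← sub_mul]
      refine Ideal.mul_mem_mul h1 ?_
      rw [hf]
      exact Ideal.subset_span ⟨i, rfl⟩
    rw [h2]
    exact Submodule.smul_mem _ _ (Submodule.subset_span ⟨i, rfl⟩)
  have hfin : Module.Finite k (Submodule.span k (Set.range fun i =>
      Ideal.Quotient.mk (mm k * J) (f i))) :=
    FiniteDimensional.span_of_finite k (Set.finite_range _)
  refine ⟨Submodule.finiteDimensional_of_le hle, ?_⟩
  refine (Submodule.finrank_mono hle).trans ?_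
  exact (finrank_range_le_card _).trans (by simp)

include hn hv in
theorem imJ_eq : imJ J = Submodule.span k
    (Set.range fun a : EE n => Ideal.Quotient.mk (mm k * J) (wps J B v (a : Ex))) := by
  classical
  apply le_antisymm
  · rintro _ ⟨r, hr, rfl⟩
    have h1 := sub_mem_Ord J n hn B v hv r hr
    have h2 : r - ∑ a ∈ EE n, MvPowerSeries.coeff a r • wps J B v a ∈ mm k * J := by
      have h3 : Ord k (n + 1) ≤ mm k * J := by
        rw [← pow_eq_Ord, pow_succ']
        exact Ideal.mul_mono_right (pow_le_of_finrank J n hn)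
      exact h3 h1
    rw [← Ideal.Quotient.eq] at h2
    show Ideal.Quotient.mk (mm k * J) r ∈ _
    rw [h2, map_sum]
    refine Submodule.sum_mem _ fun a ha => ?_
    have h4 : Ideal.Quotient.mk (mm k * J) (MvPowerSeries.coeff a r • wps J B v a) =
      MvPowerSeries.coeff a r • Ideal.Quotient.mk (mm k * J) (wps J B v a) := rfl
    rw [h4]
    exact Submodule.smul_mem _ _ (Submodule.subset_span ⟨⟨a, ha⟩, rfl⟩)
  · rw [Submodule.span_le]
    rintro _ ⟨a, rfl⟩
    exact ⟨wps J B v (a : Ex), wps_mem J B v hv a, rfl⟩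

include hn hv in
/-- for a complete intersection, three of the `wp` generate. -/
theorem exists_g (f : Fin 3 → MvPowerSeries (Fin 3) k)
    (hf : J = Ideal.span (Set.range f)) :
    ∃ g : Fin 3 → EE n, imJ J = Submodule.span k
      (Set.range fun j => Ideal.Quotient.mk (mm k * J) (wps J B v (g j : Ex))) := by
  classical
  obtain ⟨hfin, h3⟩ := imJ_finite J f hf
  set s : Set (MvPowerSeries (Fin 3) k ⧸ (mm k * J)) :=
    (Set.range fun a : EE n => Ideal.Quotient.mk (mm k * J) (wps J B v (a : Ex))) with hs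
  have himJ := imJ_eq J n hn B v hv
  rw [← hs] at himJ
  have hfin' : Module.Finite k (Submodule.span k s) := himJ ▸ hfin
  obtain ⟨F, hFs, hFspan, -⟩ := Submodule.exists_fun_fin_finrank_span_eq k s
  choose g' hg' using hFs
  have hd : finrank k (Submodule.span k s) ≤ 3 := himJ ▸ h3
  have h0 : (0 : Ex) ∈ EE n := mem_EE.2 (by simp)
  refine ⟨fun j => if h : (j : ℕ) < finrank k (Submodule.span k s) then g' ⟨j, h⟩ else ⟨0, h0⟩, ?_⟩
  apply le_antisymm
  · rw [himJ]
    refine le_trans hFspan.ge ?_
    rw [Submodule.span_le]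
    rintro _ ⟨i, rfl⟩
    refine Submodule.subset_span ⟨⟨i, lt_of_lt_of_le i.2 hd⟩, ?_⟩
    have : (i : ℕ) < finrank k (Submodule.span k s) := i.2
    simp only [this, dif_pos]
    exact hg' i
  · rw [Submodule.span_le]
    rintro _ ⟨j, rfl⟩
    exact ⟨_, wps_mem J B v hv _, rfl⟩

omit [Module.Finite k (MvPowerSeries (Fin 3) k ⧸ J)] in
theorem mem_mm_mul (r : MvPowerSeries (Fin 3) k) (hr : r ∈ mm k * J) :
    ∃ s : Fin 3 → MvPowerSeries (Fin 3) k, (∀ l, s l ∈ J) ∧ r = ∑ l, MvPowerSeries.X l * s l := by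
  refine Submodule.mul_induction_on hr ?_ ?_
  · intro m hm x hx
    obtain ⟨c, hc⟩ := Ideal.mem_span_range_iff_exists_fun.1 hm
    refine ⟨fun l => c l * x, fun l => J.mul_mem_left _ hx, ?_⟩
    rw [← hc, Finset.sum_mul]
    refine Finset.sum_congr rfl fun l _ => ?_
    ring
  · rintro x y ⟨s, hs, rfl⟩ ⟨t, ht, rfl⟩
    refine ⟨fun l => s l + t l, fun l => J.add_mem (hs l) (ht l), ?_⟩
    rw [← Finset.sum_add_distrib]
    refine Finset.sum_congr rfl fun l _ => ?_
    ring

include hn hv in
theorem B_degree (b : B) : (b : Ex).degree < n := by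
  by_contra h
  have h1 := NJ_c2 J n hn B v (b : Ex) (not_lt.1 h)
  rw [NJ_c1 J B v hv] at h1
  have := congrFun h1 b
  simp at this

include hn hv in
theorem coeff_wp_zero (a γ : Ex) (ha : a.degree ≤ n) (hγ : n < γ.degree) :
    MvPolynomial.coeff γ (wp B (NJ J B v) a) = 0 := by
  classical
  rw [wp, MvPolynomial.coeff_sub, MvPolynomial.coeff_sum, MvPolynomial.coeff_monomial, if_neg]
  · rw [zero_sub, neg_eq_zero]
    refine Finset.sum_eq_zero fun b _ => ?_
    rw [MvPolynomial.coeff_monomial, if_neg]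
    intro h
    have := B_degree J n hn B v hv b
    rw [h] at this
    omega
  · rintro rfl
    omega

include hn hv in
/-- a complete intersection satisfies the certificate. -/
theorem C4_of_CI (f : Fin 3 → MvPowerSeries (Fin 3) k)
    (hf : J = Ideal.span (Set.range f)) :
    ∃ g : Fin 3 → EE n, C4 B (EE n) (fun j => (g j : Ex)) (NJ J B v) := by
  classical
  obtain ⟨g, hg⟩ := exists_g J n hn B v hv f hf
  refine ⟨g, ?_⟩
  intro a ha
  have h1 : Ideal.Quotient.mk (mm k * J) (wps J B v a) ∈ imJ J := ⟨_, wps_mem J B v hv a, rfl⟩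
  rw [hg, Submodule.mem_span_range_iff_exists_fun] at h1
  obtain ⟨c, hc⟩ := h1
  have h2 : wps J B v a - ∑ j, c j • wps J B v (g j : Ex) ∈ mm k * J := by
    rw [← Ideal.Quotient.eq, ← hc, map_sum]
    rfl
  obtain ⟨s, hs, hsum⟩ := mem_mm_mul J _ h2
  set d : Fin 3 → EE n → k := fun l β => MvPowerSeries.coeff (β : Ex) (s l) with hd
  have h3 : ∀ l, s l - ∑ β : EE n, d l β • wps J B v (β : Ex) ∈ Ord k (n + 1) := by
    intro l
    have := sub_mem_Ord J n hn B v hv (s l) (hs l)
    rw [← Finset.sum_coe_sort] at this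
    exact this
  have h4 : wps J B v a - ∑ j, c j • wps J B v (g j : Ex) -
      ∑ l, MvPowerSeries.X l * ∑ β : EE n, d l β • wps J B v (β : Ex) ∈ Ord k (n + 2) := by
    rw [hsum, ← Finset.sum_sub_distrib]
    refine Ideal.sum_mem _ fun l _ => ?_
    rw [← mul_sub]
    exact X_mul_mem_Ord _ _ _ (h3 l)
  refine ⟨c, d, fun γ => ?_⟩
  have hX : ∀ l β, MvPolynomial.coeff γ (MvPolynomial.X l * wp B (NJ J B v) β) =
      MvPowerSeries.coeff γ (MvPowerSeries.X l * wps J B v β) := by
    intro l β
    rw [wps_eq, ← MvPolynomial.coe_X, ← MvPolynomial.coe_mul, MvPolynomial.coeff_coe]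
  have hW : ∀ β, MvPolynomial.coeff γ (wp B (NJ J B v) β) =
      MvPowerSeries.coeff γ (wps J B v β) := by
    intro β
    rw [wps_eq, MvPolynomial.coeff_coe]
  by_cases hγ : γ.degree < n + 2
  · have h5 := h4 γ hγ
    rw [map_sub, map_sub, sub_sub, sub_eq_zero, map_sum, map_sum] at h5
    rw [hW, h5]
    congr 1
    · refine Finset.sum_congr rfl fun j _ => ?_
      rw [hW, map_smul, smul_eq_mul]
    · refine Finset.sum_congr rfl fun l _ => ?_
      rw [Finset.mul_sum, map_sum]
      refine Finset.sum_congr rfl fun β _ => ?_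
      rw [hX, mul_smul_comm, map_smul, smul_eq_mul]
  · rw [coeff_wp_zero J n hn B v hv a γ (mem_EE.1 ha) (by omega)]
    symm
    rw [Finset.sum_eq_zero, Finset.sum_eq_zero, add_zero]
    · intro l _
      refine Finset.sum_eq_zero fun β _ => ?_
      have : MvPolynomial.coeff γ (MvPolynomial.X l * wp B (NJ J B v) (β : Ex)) = 0 := by
        rw [hX, coeff_X_mul']
        split_ifs with h
        · rfl
        · have hsub : γ - Finsupp.single l 1 + Finsupp.single l 1 = γ := by
            refine tsub_add_cancel_of_le ?_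
            intro i
            rw [Finsupp.single_apply]
            split_ifs with hi
            · subst hi; omega
            · omega
          have h1 : (γ - Finsupp.single l 1).degree + (Finsupp.single l 1 : Ex).degree
              = γ.degree := by rw [← map_add, hsub]
          have h2 : (Finsupp.single l 1 : Ex).degree = 1 := by simp
          rw [wps_eq, MvPolynomial.coeff_coe]
          exact coeff_wp_zero J n hn B v hv _ _ (mem_EE.1 β.2) (by omega)
      rw [this, mul_zero]
    · intro j _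
      rw [coeff_wp_zero J n hn B v hv _ γ (mem_EE.1 (g j).2) (by omega), mul_zero]

end

end Pool.Agent.H19
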