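import Mathlib

/-!
# The punctual Hilbert scheme of `k[[x,y,z]]` (closed points, Zariski topology)

Let `k` be a field and `R = k[[x,y,z]] = MvPowerSeries (Fin 3) k`, with maximal ideal `m`.

* `Hilb0 k n` is the set of ideals `I` of `R` with `dim_k R/I = n`, i.e. the set of `k`-points of
  the punctual Hilbert scheme `Hilb^n_0`.
* `Framed k n` is the set of framed points: an ideal `I` as above together with a `k`-linear
  isomorphism `R/I ≃ k^n`.  Since `m^n ⊆ I`, a framed point is the same as a surjective linear map
  `R/m^n → k^n` whose kernel is an ideal; its matrix in the monomial basis of `R/m^n`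
  (the monomials of degree `< n`) is `Framed.coord`.  So `Framed k n` is a locally closed subset of
  an affine space; it gets the Zariski topology.
* `Hilb0 k n` is the quotient of `Framed k n` by `GL_n(k)` and has the quotient topology. It is a
  closed subset of the Grassmannian of `n`-dimensional quotients of `R/m^n`, and this is
  the usual Zariski topology on it.
-/

namespace Pool.Agent.H19

/-- The points of the punctual Hilbert scheme `Hilb^n_0`: ideals `I` of `R = k[[x,y,z]]` such that
`R/I` has finite dimension `n` over `k`. -/
def Hilb0 (k : Type*) [Field k] (n : ℕ) : Type _ :=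
  {I : Ideal (MvPowerSeries (Fin 3) k) //
    Module.Finite k (MvPowerSeries (Fin 3) k ⧸ I) ∧
      Module.finrank k (MvPowerSeries (Fin 3) k ⧸ I) = n}

/-- `R/I` is Gorenstein: its socle, the set of elements killed by the maximal ideal of `R`,
is one-dimensional over `k`. -/
def IsGorenstein {k : Type*} [Field k] {n : ℕ} (I : Hilb0 k n) : Prop :=
  Module.finrank k (Submodule.torsionBySet (MvPowerSeries (Fin 3) k)
    (MvPowerSeries (Fin 3) k ⧸ I.1) (IsLocalRing.maximalIdeal (MvPowerSeries (Fin 3) k))) = 1

/-- `R/I` is a complete intersection: the ideal `I` is generated by three elements. -/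
def IsCI {k : Type*} [Field k] {n : ℕ} (I : Hilb0 k n) : Prop :=
  ∃ f g h : MvPowerSeries (Fin 3) k, I.1 = Ideal.span {f, g, h}

/-- The affine space `k^σ`, with its Zariski topology (the instance below). -/
def AffSpace (k σ : Type*) : Type _ := σ → k

/-- The Zariski topology on the affine space `k^σ`: it is generated by the sets of points at which
a given polynomial does not vanish. -/
instance (k σ : Type*) [Field k] : TopologicalSpace (AffSpace k σ) :=
  TopologicalSpace.generateFrom
    (Set.range fun p : MvPolynomial σ k => {x : σ → k | MvPolynomial.eval x p ≠ 0})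

/-- Exponents of the monomials in `x,y,z` of degree `< n`: a basis of `R/m^n`. -/
def Mon (n : ℕ) : Type := {a : Fin 3 →₀ ℕ // a.degree < n}

/-- Framed points of `Hilb^n_0`: a point `I` together with a linear isomorphism `R/I ≃ k^n`. -/
structure Framed (k : Type*) [Field k] (n : ℕ) where
  /-- the point `I` of `Hilb^n_0` -/
  pt : Hilb0 k n
  /-- the frame -/
  frame : (MvPowerSeries (Fin 3) k ⧸ pt.1) ≃ₗ[k] (Fin n → k)

/-- The coordinates of a framed point: the matrix, in the monomial basis of `R/m^n`, of
the linear map `R/m^n → R/I ≃ k^n`. -/
noncomputable def Framed.coord {k : Type*} [Field k] {n : ℕ} (q : Framed k n) :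
    AffSpace k (Fin n × Mon n) :=
  fun p => q.frame (Ideal.Quotient.mk q.pt.1 (MvPowerSeries.monomial p.2.1 (1 : k))) p.1

/-- The Zariski topology on framed points, as a subset of an affine space. -/
noncomputable instance (k : Type*) [Field k] (n : ℕ) : TopologicalSpace (Framed k n) :=
  TopologicalSpace.induced Framed.coord inferInstance

/-- The Zariski topology on `Hilb^n_0`: the quotient topology from the framed points. -/
noncomputable instance (k : Type*) [Field k] (n : ℕ) : TopologicalSpace (Hilb0 k n) :=
  TopologicalSpace.coinduced (Framed.pt : Framed k n → Hilb0 k n) inferInstance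

end Pool.Agent.H19
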