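import Mathlib
import Pool.Agent.H19.Hilb

namespace Pool.Agent.H19

open MvPolynomial

variable {k : Type*} [Field k] {n : ℕ}

/-- The set of common zeros in `k^σ` of a set of polynomials. -/
def zeros {σ : Type*} (S : Set (MvPolynomial σ k)) : Set (AffSpace k σ) :=
  {x | ∀ p ∈ S, eval (x : σ → k) p = 0}

/-- the closed sets of the Zariski topology on `k^σ` are the common zero sets of polynomials -/
theorem isClosed_affSpace {σ : Type*} {Z : Set (AffSpace k σ)} :
    IsClosed Z ↔ ∃ S : Set (MvPolynomial σ k), Z = zeros S := by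
  constructor
  · intro hZ
    have key : ∀ U : Set (AffSpace k σ), TopologicalSpace.GenerateOpen
        (Set.range fun p : MvPolynomial σ k => {x : σ → k | eval x p ≠ 0}) U →
        ∃ S : Set (MvPolynomial σ k), Uᶜ = zeros S := by
      intro U hU
      induction hU with
      | basic U h =>
        obtain ⟨p, rfl⟩ := h
        refine ⟨{p}, ?_⟩
        ext x
        constructor
        · intro hx q hq
          rw [Set.mem_singleton_iff.1 hq]
          exact not_not.1 hx
        · intro hx h
          exact h (hx p rfl)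
      | univ =>
        refine ⟨{1}, ?_⟩
        ext x
        simp [zeros]
      | inter U V _ _ hU hV =>
        obtain ⟨S, hS⟩ := hU
        obtain ⟨T, hT⟩ := hV
        refine ⟨{p | ∃ s ∈ S, ∃ t ∈ T, p = s * t}, ?_⟩
        rw [Set.compl_inter, hS, hT]
        ext x
        constructor
        · rintro (hx | hx) p ⟨s, hs, t, ht, rfl⟩
          · rw [map_mul, hx s hs, zero_mul]
          · rw [map_mul, hx t ht, mul_zero]
        · intro hx
          by_contra hne
          rw [Set.mem_union, not_or] at hne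
          obtain ⟨h1, h2⟩ := hne
          have h1' : ∃ s ∈ S, eval (x : σ → k) s ≠ 0 := by
            by_contra hc
            push Not at hc
            exact h1 hc
          have h2' : ∃ t ∈ T, eval (x : σ → k) t ≠ 0 := by
            by_contra hc
            push Not at hc
            exact h2 hc
          obtain ⟨s, hs, hs'⟩ := h1'
          obtain ⟨t, ht, ht'⟩ := h2'
          have := hx (s * t) ⟨s, hs, t, ht, rfl⟩
          rw [map_mul, mul_eq_zero] at this
          exact this.elim hs' ht'
      | sUnion A _ hA =>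
        choose! S hS using hA
        refine ⟨{p | ∃ U ∈ A, p ∈ S U}, ?_⟩
        ext x
        constructor
        · rintro hx p ⟨U, hU, hp⟩
          have h1 : x ∈ Uᶜ := fun h => hx ⟨U, hU, h⟩
          rw [hS U hU] at h1
          exact h1 p hp
        · rintro hx ⟨U, hU, hxU⟩
          have h1 : x ∈ Uᶜ := by
            rw [hS U hU]
            exact fun p hp => hx p ⟨U, hU, hp⟩
          exact h1 hxU
    obtain ⟨S, hS⟩ := key Zᶜ hZ.isOpen_compl
    exact ⟨S, by rwa [compl_compl] at hS⟩
  · rintro ⟨S, rfl⟩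
    have h1 : zeros S = ⋂ p ∈ S, ({x : σ → k | eval x p ≠ 0}ᶜ : Set (AffSpace k σ)) := by
      ext x
      rw [Set.mem_iInter₂]
      exact forall₂_congr fun p _ => not_not.symm
    rw [h1]
    refine isClosed_biInter fun p _ => ?_
    rw [isClosed_compl_iff]
    exact TopologicalSpace.isOpen_generateFrom_of_mem ⟨p, rfl⟩

/-- closed sets in `Hilb^n_0`: those cut out by polynomials in the coordinates of the frames -/
theorem isClosed_hilb {Z : Set (Hilb0 k n)} :
    IsClosed Z ↔ ∃ S : Set (MvPolynomial (Fin n × Mon n) k),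
      ∀ q : Framed k n, q.pt ∈ Z ↔ ∀ p ∈ S, eval (q.coord : Fin n × Mon n → k) p = 0 := by
  rw [isClosed_coinduced, isClosed_induced_iff]
  constructor
  · rintro ⟨t, ht, hZ⟩
    obtain ⟨S, rfl⟩ := isClosed_affSpace.1 ht
    refine ⟨S, fun q => ?_⟩
    have := Set.ext_iff.1 hZ q
    exact this.symm
  · rintro ⟨S, hS⟩
    refine ⟨zeros S, isClosed_affSpace.2 ⟨S, rfl⟩, ?_⟩
    ext q
    exact (hS q).symm

/-- change of frame on polynomials -/
noncomputable def chg (g : (Fin n → k) ≃ₗ[k] (Fin n → k)) (P : MvPolynomial (Fin n × Mon n) k) :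
    MvPolynomial (Fin n × Mon n) k :=
  aeval (fun p : Fin n × Mon n => ∑ j : Fin n, C (g (Pi.single j 1) p.1) * X (j, p.2)) P

theorem eval_chg (g : (Fin n → k) ≃ₗ[k] (Fin n → k)) (P : MvPolynomial (Fin n × Mon n) k)
    (I : Hilb0 k n) (e : (MvPowerSeries (Fin 3) k ⧸ I.1) ≃ₗ[k] (Fin n → k)) :
    eval ((⟨I, e⟩ : Framed k n).coord : Fin n × Mon n → k) (chg g P) =
      eval ((⟨I, e.trans g⟩ : Framed k n).coord : Fin n × Mon n → k) P := by
  classical
  rw [chg, ← MvPolynomial.coe_aeval_eq_eval, ← MvPolynomial.coe_aeval_eq_eval]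
  have h : (aeval ((⟨I, e⟩ : Framed k n).coord : Fin n × Mon n → k)).comp
      (aeval (fun p : Fin n × Mon n => ∑ j : Fin n, C (g (Pi.single j 1) p.1) * X (j, p.2))) =
      (aeval ((⟨I, e.trans g⟩ : Framed k n).coord : Fin n × Mon n → k)) := by
    apply MvPolynomial.algHom_ext
    rintro ⟨i, a⟩
    rw [AlgHom.comp_apply, aeval_X, aeval_X, map_sum]
    simp only [map_mul, aeval_X, aeval_C, Algebra.algebraMap_self, RingHom.id_apply]
    show _ = g (e (Ideal.Quotient.mk I.1 (MvPowerSeries.monomial a.1 (1 : k)))) i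
    have h2 := (Pi.basisFun k (Fin n)).sum_repr
      (e (Ideal.Quotient.mk I.1 (MvPowerSeries.monomial a.1 (1 : k))))
    conv_rhs => rw [← h2, map_sum, Finset.sum_apply]
    refine Finset.sum_congr rfl fun j _ => ?_
    rw [map_smul, Pi.smul_apply, smul_eq_mul, mul_comm]
    simp [Framed.coord]
  exact DFunLike.congr_fun h P

/-- a polynomial vanishing on all frames of the ideals in `W` vanishes on all frames of the ideals
in the closure of `W` -/
theorem vanish_closure (W : Set (Hilb0 k n)) (P : MvPolynomial (Fin n × Mon n) k)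
    (hP : ∀ q : Framed k n, q.pt ∈ W → eval (q.coord : Fin n × Mon n → k) P = 0)
    (q : Framed k n) (hq : q.pt ∈ closure W) : eval (q.coord : Fin n × Mon n → k) P = 0 := by
  set Z : Set (Hilb0 k n) :=
    {J | ∀ e, eval ((⟨J, e⟩ : Framed k n).coord : Fin n × Mon n → k) P = 0} with hZ
  have hcl : IsClosed Z := by
    rw [isClosed_hilb]
    refine ⟨Set.range fun g => chg g P, ?_⟩
    rintro ⟨J, e⟩
    constructor
    · rintro h _ ⟨g, rfl⟩
      rw [eval_chg]
      exact h _
    · intro h e'
      have h1 := h _ ⟨e.symm.trans e', rfl⟩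
      rw [eval_chg] at h1
      have h2 : e.trans (e.symm.trans e') = e' := by
        ext x
        simp
      rw [h2] at h1
      exact h1
  have hsub : W ⊆ Z := fun J hJ e => hP ⟨J, e⟩ hJ
  have := closure_minimal hsub hcl hq
  obtain ⟨J, e⟩ := q
  exact this e

end Pool.Agent.H19
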