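import Mathlib
import Pool.Agent.H19.CIData

namespace Pool.Agent.H19

open Module

section

variable {k : Type*} [Field k]

theorem span_monomials (J : Ideal (MvPowerSeries (Fin 3) k)) (D : ℕ) (hJ : Ord k (D + 1) ≤ J) :
    Submodule.span k (Set.range fun a : EE D =>
      Ideal.Quotient.mk J (MvPowerSeries.monomial (a : Ex) (1 : k))) = ⊤ := by
  classical
  rw [eq_top_iff]
  rintro x -
  obtain ⟨r, rfl⟩ := Ideal.Quotient.mk_surjective x
  have h : r - ∑ a ∈ EE D, MvPowerSeries.coeff a r • MvPowerSeries.monomial a (1 : k) ∈ J := by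
    apply hJ
    intro c hc
    rw [map_sub, map_sum, Finset.sum_eq_single c]
    · simp
    · intro b _ hb
      rw [map_smul, MvPowerSeries.coeff_monomial, if_neg hb.symm, smul_zero]
    · intro h
      exact absurd (mem_EE.2 (Nat.le_of_lt_succ hc)) h
  rw [← Ideal.Quotient.eq] at h
  rw [h, map_sum]
  refine Submodule.sum_mem _ fun a ha => ?_
  have h4 : Ideal.Quotient.mk J (MvPowerSeries.coeff a r • MvPowerSeries.monomial a (1 : k)) =
    MvPowerSeries.coeff a r • Ideal.Quotient.mk J (MvPowerSeries.monomial a (1 : k)) := rfl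
  rw [h4]
  exact Submodule.smul_mem _ _ (Submodule.subset_span ⟨⟨a, ha⟩, rfl⟩)

theorem finite_of_Ord (J : Ideal (MvPowerSeries (Fin 3) k)) (D : ℕ) (hJ : Ord k (D + 1) ≤ J) :
    Module.Finite k (MvPowerSeries (Fin 3) k ⧸ J) :=
  ⟨by rw [← span_monomials J D hJ]; exact Submodule.fg_span (Set.finite_range _)⟩

variable (D : ℕ) (F : EE D → k)

/-- extension by zero -/
noncomputable def ext0 {S : Type*} [Zero S] (F : EE D → S) (a : Ex) : S :=
  if h : a ∈ EE D then F ⟨a, h⟩ else 0

/-- the functional -/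
noncomputable def lam : MvPowerSeries (Fin 3) k →ₗ[k] k :=
  ∑ a : EE D, F a • MvPowerSeries.coeff (a : Ex)

theorem lam_monomial (a : Ex) : lam D F (MvPowerSeries.monomial a 1) = ext0 D F a := by
  classical
  rw [lam, LinearMap.sum_apply, ext0]
  simp only [LinearMap.smul_apply, MvPowerSeries.coeff_monomial, smul_eq_mul, mul_ite, mul_one,
    mul_zero]
  split_ifs with h
  · rw [Finset.sum_eq_single ⟨a, h⟩]
    · simp
    · intro b _ hb
      rw [if_neg]
      intro h'
      exact hb (Subtype.ext h')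
    · intro h'; exact absurd (Finset.mem_univ _) h'
  · refine Finset.sum_eq_zero fun b _ => ?_
    rw [if_neg]
    rintro rfl
    exact h b.2

theorem lam_Ord (r : MvPowerSeries (Fin 3) k) (hr : r ∈ Ord k (D + 1)) : lam D F r = 0 := by
  rw [lam, LinearMap.sum_apply]
  refine Finset.sum_eq_zero fun a _ => ?_
  rw [LinearMap.smul_apply, hr a (Nat.lt_succ_of_le (mem_EE.1 a.2)), smul_zero]

/-- the annihilator ideal of the functional -/
noncomputable def IF : Ideal (MvPowerSeries (Fin 3) k) where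
  carrier := {r | ∀ s, lam D F (s * r) = 0}
  add_mem' := by
    intro a b ha hb s
    rw [mul_add, map_add, ha s, hb s, add_zero]
  zero_mem' := by intro s; rw [mul_zero, map_zero]
  smul_mem' := by
    intro c r hr s
    rw [smul_eq_mul, ← mul_assoc]
    exact hr _

theorem mem_IF {r : MvPowerSeries (Fin 3) k} : r ∈ IF D F ↔ ∀ s, lam D F (s * r) = 0 := Iff.rfl

theorem Ord_le_IF : Ord k (D + 1) ≤ IF D F := by
  intro r hr s
  exact lam_Ord D F _ (Ideal.mul_mem_left _ _ hr)

theorem IF_finite : Module.Finite k (MvPowerSeries (Fin 3) k ⧸ IF D F) :=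
  finite_of_Ord _ D (Ord_le_IF D F)

theorem Ord_mul (a b : ℕ) (r s : MvPowerSeries (Fin 3) k) (hr : r ∈ Ord k a) (hs : s ∈ Ord k b) :
    r * s ∈ Ord k (a + b) := by
  rw [← pow_eq_Ord] at hr hs ⊢
  rw [pow_add]
  exact Ideal.mul_mem_mul hr hs

/-- membership can be tested on monomials of small degree for elements of high order. -/
theorem mem_IF_of (t u : ℕ) (hD : D = t + u + 1) (r : MvPowerSeries (Fin 3) k)
    (hr : r ∈ Ord k (t + 1)) (h : ∀ b ∈ EE u, lam D F (MvPowerSeries.monomial b 1 * r) = 0) :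
    r ∈ IF D F := by
  classical
  intro s
  set s1 : MvPowerSeries (Fin 3) k :=
    ∑ a ∈ EE u, MvPowerSeries.coeff a s • MvPowerSeries.monomial a (1 : k) with hs1
  have h1 : s - s1 ∈ Ord k (u + 1) := by
    intro c hc
    rw [map_sub, hs1, map_sum, Finset.sum_eq_single c]
    · simp
    · intro b _ hb
      rw [map_smul, MvPowerSeries.coeff_monomial, if_neg hb.symm, smul_zero]
    · intro h
      exact absurd (mem_EE.2 (Nat.le_of_lt_succ hc)) h
  have h2 : s * r = (s - s1) * r + s1 * r := by ring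
  rw [h2, map_add]
  have h3 : lam D F ((s - s1) * r) = 0 := by
    apply lam_Ord
    have := Ord_mul (u + 1) (t + 1) _ _ h1 hr
    have e : u + 1 + (t + 1) = D + 1 := by omega
    rwa [e] at this
  have h4 : lam D F (s1 * r) = 0 := by
    rw [hs1, Finset.sum_mul, map_sum]
    refine Finset.sum_eq_zero fun a ha => ?_
    rw [smul_mul_assoc, map_smul, h a ha, smul_zero]
  rw [h3, h4, add_zero]

theorem finrank_IF_le (t u : ℕ) (hD : D = t + u + 1) :
    finrank k (MvPowerSeries (Fin 3) k ⧸ IF D F) ≤ (EE t).card + (EE u).card := by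
  classical
  let top : MvPowerSeries (Fin 3) k →ₗ[k] MvPowerSeries (Fin 3) k :=
    LinearMap.id - ∑ a : EE t, (MvPowerSeries.monomial (a : Ex)).comp
      (MvPowerSeries.coeff (R := k) (a : Ex))
  have htop : ∀ r, top r = r - ∑ a : EE t,
      MvPowerSeries.monomial (a : Ex) (MvPowerSeries.coeff (a : Ex) r) := by
    intro r
    simp [top]
  have htopO : ∀ r, top r ∈ Ord k (t + 1) := by
    intro r c hc
    rw [htop, map_sub, map_sum, Finset.sum_eq_single ⟨c, mem_EE.2 (Nat.le_of_lt_succ hc)⟩]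
    · simp
    · intro b _ hb
      rw [MvPowerSeries.coeff_monomial, if_neg]
      intro h
      exact hb (Subtype.ext h.symm)
    · intro h; exact absurd (Finset.mem_univ _) h
  let Θ : MvPowerSeries (Fin 3) k →ₗ[k] (EE t → k) × (EE u → k) :=
    LinearMap.prod (LinearMap.pi fun a : EE t => MvPowerSeries.coeff (a : Ex))
      (LinearMap.pi fun b : EE u => (lam D F).comp
        ((LinearMap.mulLeft k (MvPowerSeries.monomial (b : Ex) (1 : k))).comp top))
  have hker : LinearMap.ker Θ ≤ (IF D F).restrictScalars k := by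
    intro r hr
    rw [LinearMap.mem_ker] at hr
    have h1 : ∀ a : EE t, MvPowerSeries.coeff (a : Ex) r = 0 := fun a =>
      congrFun (congrArg Prod.fst hr) a
    have h2 : ∀ b : EE u, lam D F (MvPowerSeries.monomial (b : Ex) 1 * top r) = 0 := fun b =>
      congrFun (congrArg Prod.snd hr) b
    have h3 : top r = r := by
      rw [htop]
      simp [h1]
    rw [h3] at h2
    have h4 := htopO r
    rw [h3] at h4
    exact mem_IF_of D F t u hD r h4 (fun b hb => h2 ⟨b, hb⟩)
  have hfin : Module.Finite k (MvPowerSeries (Fin 3) k ⧸ LinearMap.ker Θ) :=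
    Module.Finite.equiv Θ.quotKerEquivRange.symm
  have h5 : finrank k (MvPowerSeries (Fin 3) k ⧸ (IF D F).restrictScalars k) ≤
      finrank k (MvPowerSeries (Fin 3) k ⧸ LinearMap.ker Θ) := by
    refine LinearMap.finrank_le_finrank_of_surjective (f := Submodule.factor hker) ?_
    exact Submodule.factor_surjective hker
  have h6 : finrank k (MvPowerSeries (Fin 3) k ⧸ LinearMap.ker Θ) ≤
      (EE t).card + (EE u).card := by
    rw [Θ.quotKerEquivRange.finrank_eq]
    refine (Submodule.finrank_le _).trans ?_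
    rw [Module.finrank_prod, Module.finrank_pi, Module.finrank_pi, Fintype.card_coe,
      Fintype.card_coe]
  exact h5.trans h6

theorem exists_socle (J : Ideal (MvPowerSeries (Fin 3) k)) (hJ : J ≠ ⊤)
    [Module.Finite k (MvPowerSeries (Fin 3) k ⧸ J)] :
    ∃ a : MvPowerSeries (Fin 3) k ⧸ J, a ≠ 0 ∧
      ∀ m ∈ mm k, Ideal.Quotient.mk J m * a = 0 := by
  classical
  have h1 := pow_le_of_finrank J _ rfl
  set P : ℕ → Prop := fun i => mm k ^ i ≤ J with hP
  have hex : ∃ i, P i := ⟨_, h1⟩
  set i := Nat.find hex with hi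
  have hi1 : mm k ^ i ≤ J := Nat.find_spec hex
  have hi0 : i ≠ 0 := by
    intro h0
    rw [h0, pow_zero, Ideal.one_eq_top, top_le_iff] at hi1
    exact hJ hi1
  obtain ⟨j, hj⟩ := Nat.exists_eq_succ_of_ne_zero hi0
  have hj1 : ¬ mm k ^ j ≤ J := Nat.find_min hex (by omega)
  obtain ⟨r, hr, hrJ⟩ := SetLike.not_le_iff_exists.1 hj1
  refine ⟨Ideal.Quotient.mk J r, ?_, ?_⟩
  · rwa [Ne, Ideal.Quotient.eq_zero_iff_mem]
  · intro m hm
    rw [← map_mul, Ideal.Quotient.eq_zero_iff_mem]
    apply hi1
    rw [hj, Nat.succ_eq_add_one, pow_succ']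
    exact Ideal.mul_mem_mul hm hr

theorem socle_IF (hJ : IF D F ≠ ⊤) (S : Submodule k (MvPowerSeries (Fin 3) k ⧸ IF D F))
    (hS : ∀ a, a ∈ S ↔ ∀ m ∈ mm k, Ideal.Quotient.mk (IF D F) m * a = 0) :
    finrank k S = 1 := by
  classical
  have hfin := IF_finite D F
  obtain ⟨a0, ha0, ha0m⟩ := exists_socle (IF D F) hJ
  -- the functional on the quotient
  have hker : (IF D F).restrictScalars k ≤ LinearMap.ker (lam D F) := by
    intro r hr
    have := hr 1
    rwa [one_mul] at this
  let Λ : (MvPowerSeries (Fin 3) k ⧸ (IF D F).restrictScalars k) →ₗ[k] k :=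
    ((IF D F).restrictScalars k).liftQ (lam D F) hker
  have hΛ : ∀ r, Λ (Ideal.Quotient.mk (IF D F) r) = lam D F r := fun r => rfl
  let Λ' : S →ₗ[k] k := Λ.comp S.subtype
  have hinj : Function.Injective Λ' := by
    rw [injective_iff_map_eq_zero]
    rintro ⟨a, ha⟩ h0
    obtain ⟨r, rfl⟩ := Ideal.Quotient.mk_surjective a
    have h1 : lam D F r = 0 := h0
    rw [hS] at ha
    ext1
    show Ideal.Quotient.mk (IF D F) r = 0
    rw [Ideal.Quotient.eq_zero_iff_mem]
    intro s
    have h2 : s - MvPowerSeries.C (MvPowerSeries.constantCoeff s) ∈ mm k := by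
      rw [← pow_one (mm k), pow_eq_Ord]
      intro a ha
      have ha0 : a.degree = 0 := by omega
      rw [Finsupp.degree_eq_zero_iff] at ha0
      rw [ha0, map_sub]
      simp
    have h3 := ha _ h2
    rw [← map_mul, Ideal.Quotient.eq_zero_iff_mem] at h3
    have h4 := hker h3
    rw [LinearMap.mem_ker] at h4
    have h5 : s * r = (s - MvPowerSeries.C (MvPowerSeries.constantCoeff s)) * r +
        MvPowerSeries.constantCoeff s • r := by
      rw [MvPowerSeries.smul_eq_C_mul]; ring
    rw [h5, map_add, h4, map_smul, h1, smul_zero, add_zero]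
  have hle : finrank k S ≤ 1 := by
    have := LinearMap.finrank_le_finrank_of_injective hinj
    rwa [Module.finrank_self] at this
  have hpos : 0 < finrank k S := by
    rw [Module.finrank_pos_iff_exists_ne_zero]
    refine ⟨⟨a0, (hS a0).2 ha0m⟩, ?_⟩
    intro h
    exact ha0 (congrArg Subtype.val h)
  omega

/-- a functional of maximal rank -/
theorem exists_max (D : ℕ) : ∃ F0 : EE D → k, ∀ F : EE D → k,
    finrank k (MvPowerSeries (Fin 3) k ⧸ IF D F) ≤
      finrank k (MvPowerSeries (Fin 3) k ⧸ IF D F0) := by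
  classical
  have hbd : BddAbove (Set.range fun F : EE D → k =>
      finrank k (MvPowerSeries (Fin 3) k ⧸ IF D F)) := by
    refine ⟨(EE D).card, ?_⟩
    rintro _ ⟨F, rfl⟩
    have h := span_monomials (IF D F) D (Ord_le_IF D F)
    show finrank k (MvPowerSeries (Fin 3) k ⧸ IF D F) ≤ _
    rw [← finrank_top k (MvPowerSeries (Fin 3) k ⧸ IF D F), ← h]
    exact (finrank_range_le_card _).trans (by simp)
  have hne : (Set.range fun F : EE D → k =>
      finrank k (MvPowerSeries (Fin 3) k ⧸ IF D F)).Nonempty := ⟨_, ⟨0, rfl⟩⟩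
  obtain ⟨F0, hF0⟩ := Nat.sSup_mem hne hbd
  refine ⟨F0, fun F => ?_⟩
  have : finrank k (MvPowerSeries (Fin 3) k ⧸ IF D F0) = sSup (Set.range fun F : EE D → k =>
      finrank k (MvPowerSeries (Fin 3) k ⧸ IF D F)) := hF0
  rw [this]
  exact le_csSup hbd ⟨F, rfl⟩

/-- a monomial basis of a finite-dimensional quotient, containing `1`. -/
theorem exists_monomial_basis (J : Ideal (MvPowerSeries (Fin 3) k)) (D : ℕ)
    (hJD : Ord k (D + 1) ≤ J) (hJ : J ≠ ⊤) :
    ∃ (B : Finset Ex) (v : Basis B k (MvPowerSeries (Fin 3) k ⧸ J)), (0 : Ex) ∈ B ∧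
      ∀ b : B, v b = Ideal.Quotient.mk J (MvPowerSeries.monomial (b : Ex) (1 : k)) := by
  classical
  have hfin := finite_of_Ord J D hJD
  set w : Ex → MvPowerSeries (Fin 3) k ⧸ J :=
    fun a => Ideal.Quotient.mk J (MvPowerSeries.monomial a (1 : k)) with hw
  have h0 : LinearIndepOn k w ({0} : Set Ex) := by
    rw [linearIndepOn_singleton_iff]
    rw [hw]
    show Ideal.Quotient.mk J (MvPowerSeries.monomial 0 (1 : k)) ≠ 0
    rw [Ne, Ideal.Quotient.eq_zero_iff_mem]
    intro h
    apply hJ
    rw [Ideal.eq_top_iff_one]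
    exact h
  obtain ⟨b, -, hsb, htb, hb⟩ := exists_linearIndepOn_extension h0 (Set.subset_univ _)
  have hbfin : b.Finite := by
    have := hb.finite
    exact Set.toFinite b
  have hspan : ⊤ ≤ Submodule.span k (Set.range fun i : b => w i) := by
    rw [← span_monomials J D hJD, Submodule.span_le]
    rintro _ ⟨a, rfl⟩
    have h1 := htb (Set.mem_image_of_mem w (Set.mem_univ (a : Ex)))
    have h2 : (Set.range fun i : b => w i) = w '' b := by
      ext x; simp
    rw [h2]
    exact h1
  set B : Finset Ex := hbfin.toFinset with hB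
  let e : b ≃ B := Equiv.subtypeEquivRight (fun x => by rw [hB, Set.Finite.mem_toFinset])
  refine ⟨B, (Basis.mk hb hspan).reindex e, ?_, ?_⟩
  · rw [hB, Set.Finite.mem_toFinset]
    exact hsb (Set.mem_singleton _)
  · intro i
    rw [Basis.reindex_apply, Basis.mk_apply]
    rfl

end

end Pool.Agent.H19
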