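import Mathlib

namespace Pool.Agent.H19

open Module MvPolynomial

universe u

/-- clearing denominators -/
theorem clear_den {k : Type u} [Field k] {A : Type u} [CommRing A] [Algebra k A] {σ : Type*}
    (P : MvPolynomial σ k) (y : σ → A) (d : A) :
    ∃ (M : ℕ) (R : A), ∀ (L : Type u) [Field L] [Algebra k L] (φ : A →ₐ[k] L) (N : σ → L),
      (∀ s, φ d * N s = φ (y s)) → φ R = φ d ^ M * aeval N P := by
  induction P using MvPolynomial.induction_on with
  | C c =>
    refine ⟨0, algebraMap k A c, ?_⟩
    intro L _ _ φ N _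
    simp
  | add p q hp hq =>
    obtain ⟨M1, R1, h1⟩ := hp
    obtain ⟨M2, R2, h2⟩ := hq
    refine ⟨M1 + M2, d ^ M2 * R1 + d ^ M1 * R2, ?_⟩
    intro L _ _ φ N hN
    rw [map_add, map_mul, map_mul, map_pow, map_pow, h1 L φ N hN, h2 L φ N hN, map_add, pow_add]
    ring
  | mul_X p s hp =>
    obtain ⟨M1, R1, h1⟩ := hp
    refine ⟨M1 + 1, R1 * y s, ?_⟩
    intro L _ _ φ N hN
    rw [map_mul, h1 L φ N hN, ← hN s, map_mul, aeval_X, pow_succ]
    ring

theorem isAlgebraic_of_adjoin_eq_top {k L : Type*} [Field k] [Field L] [Algebra k L] (s : Set L)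
    (hs : IntermediateField.adjoin k s = ⊤) : Algebra.IsAlgebraic (Algebra.adjoin k s) L := by
  rw [← IntermediateField.isAlgebraic_adjoin_iff_top, hs, Algebra.isAlgebraic_iff_isIntegral]
  exact Algebra.isIntegral_of_surjective IntermediateField.topEquiv.surjective

theorem exists_indep {k L : Type*} [Field k] [Field L] [Algebra k L] {E : Type*} [Fintype E]
    (c : E → L) (hc : AlgebraicIndependent k c)
    (hgen : IntermediateField.adjoin k (Set.range c) = ⊤) (T U : Set L) (hTfin : T.Finite)
    (hUfin : U.Finite) (hcT : ∀ e, c e ∈ IntermediateField.adjoin k (T ∪ U)) :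
    ∃ t : Finset L, (t : Set L) ⊆ T ∧ AlgebraicIndependent k (fun x : t => (x : L)) ∧
      Fintype.card E ≤ t.card + U.ncard := by
  classical
  have htop : IntermediateField.adjoin k (T ∪ U) = ⊤ := by
    rw [eq_top_iff, ← hgen, IntermediateField.adjoin_le_iff]
    rintro _ ⟨e, rfl⟩
    exact hcT e
  have halg := isAlgebraic_of_adjoin_eq_top _ htop
  have halg2 := isAlgebraic_of_adjoin_eq_top _ hgen
  obtain ⟨u, hu, hbasis⟩ := exists_isTranscendenceBasis_subset (R := k) (T ∪ U)
  have hufin : u.Finite := (hTfin.union hUfin).subset hu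
  have hcb : IsTranscendenceBasis k c := by
    rw [hc.isTranscendenceBasis_iff_isAlgebraic]
    exact halg2
  have hcard : Fintype.card E = u.ncard := by
    have h1 := hcb.lift_cardinalMk_eq hbasis
    have : Fintype u := hufin.fintype
    rw [Cardinal.mk_fintype, Cardinal.mk_fintype] at h1
    simp only [Cardinal.lift_natCast, Nat.cast_inj] at h1
    rw [h1, ← Nat.card_coe_set_eq, Nat.card_eq_fintype_card]
  refine ⟨(hufin.inter_of_left T).toFinset, ?_, ?_, ?_⟩
  · intro x hx
    rw [Set.Finite.coe_toFinset] at hx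
    exact hx.2
  · have hsub : ∀ x : (hufin.inter_of_left T).toFinset, (x : L) ∈ u := by
      intro x
      have := x.2
      rw [Set.Finite.mem_toFinset] at this
      exact this.1
    exact hbasis.1.comp (fun x : (hufin.inter_of_left T).toFinset => (⟨(x : L), hsub x⟩ : u)) (by
      intro x y hxy
      have h2 := congrArg (fun z : u => (z : L)) hxy
      exact Subtype.ext h2)
  · rw [hcard, ← Set.ncard_eq_toFinset_card _ (hufin.inter_of_left T)]
    have h1 : u ⊆ (u ∩ T) ∪ U := by
      intro x hx
      rcases hu hx with h | h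
      · exact Or.inl ⟨hx, h⟩
      · exact Or.inr h
    refine (Set.ncard_le_ncard h1 ((hufin.inter_of_left T).union hUfin)).trans ?_
    exact Set.ncard_union_le _ _

end Pool.Agent.H19
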