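import Mathlib
import Pool.Agent.H19.Gor
import Pool.Agent.H19.Indep

namespace Pool.Agent.H19

open Module MvPolynomial

universe u

section

variable {S : Type*} [CommRing S] (B : Finset Ex) (D : ℕ)

/-- the Gram matrix -/
noncomputable def Hm (F : EE D → S) : Matrix B B S :=
  fun b b' => ext0 D F ((b : Ex) + (b' : Ex))

/-- the numerator of the generic normal form coefficients -/
noncomputable def numN (F : EE D → S) (a : Ex) (b : B) : S :=
  ∑ b' : B, ext0 D F (a + (b' : Ex)) * (Hm B D F).adjugate b' b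

theorem ext0_map {S' : Type*} [CommRing S'] (φ : S →+* S') (F : EE D → S) (a : Ex) :
    ext0 D (fun e => φ (F e)) a = φ (ext0 D F a) := by
  unfold ext0
  split_ifs
  · rfl
  · rw [map_zero]

theorem Hm_map {S' : Type*} [CommRing S'] (φ : S →+* S') (F : EE D → S) :
    Hm B D (fun e => φ (F e)) = φ.mapMatrix (Hm B D F) := by
  ext b b'
  rw [Hm, ext0_map]
  rfl

theorem det_Hm_map {S' : Type*} [CommRing S'] (φ : S →+* S') (F : EE D → S) :
    (Hm B D (fun e => φ (F e))).det = φ (Hm B D F).det := by
  rw [Hm_map, RingHom.map_det]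

theorem numN_map {S' : Type*} [CommRing S'] (φ : S →+* S') (F : EE D → S) (a : Ex) (b : B) :
    numN B D (fun e => φ (F e)) a b = φ (numN B D F a b) := by
  rw [numN, numN, map_sum]
  refine Finset.sum_congr rfl fun b' _ => ?_
  rw [Hm_map, ext0_map, map_mul, ← RingHom.map_adjugate]
  rfl

/-- the defining relation of normal form coefficients determines them. -/
theorem det_mul_of_rel (F : EE D → S) (Nf : Ex → B → S)
    (h : ∀ a (b' : B), ext0 D F (a + (b' : Ex)) = ∑ b : B, Nf a b * Hm B D F b b') (a : Ex) (b : B) :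
    (Hm B D F).det * Nf a b = numN B D F a b := by
  have h1 : (fun b' : B => ext0 D F (a + (b' : Ex))) = Matrix.vecMul (Nf a) (Hm B D F) := by
    ext b'
    rw [h]
    rfl
  have h2 : numN B D F a b = Matrix.vecMul (fun b' : B => ext0 D F (a + (b' : Ex)))
      (Hm B D F).adjugate b := rfl
  rw [h2, h1, Matrix.vecMul_vecMul, Matrix.mul_adjugate, Matrix.vecMul_smul, Matrix.vecMul_one]
  rfl

/-- the converse: normal form coefficients defined by division satisfy the relation. -/
theorem rel_of_det_mul {L : Type*} [Field L] (F : EE D → L) (Nf : Ex → B → L)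
    (hd : (Hm B D F).det ≠ 0)
    (h : ∀ a b, (Hm B D F).det * Nf a b = numN B D F a b) (a : Ex) (b' : B) :
    ext0 D F (a + (b' : Ex)) = ∑ b : B, Nf a b * Hm B D F b b' := by
  have h1 : (Hm B D F).det • (fun b => Nf a b) = Matrix.vecMul
      (fun b' : B => ext0 D F (a + (b' : Ex))) (Hm B D F).adjugate := by
    ext b
    exact h a b
  have h2 := congrArg (fun w => Matrix.vecMul w (Hm B D F)) h1
  simp only [Matrix.vecMul_vecMul, Matrix.adjugate_mul, Matrix.smul_vecMul, Matrix.vecMul_smul,
    Matrix.vecMul_one] at h2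
  have h3 := congrFun h2 b'
  simp only [Pi.smul_apply, smul_eq_mul] at h3
  exact (mul_left_cancel₀ hd h3).symm

end

section

variable {k : Type*} [Field k] (D : ℕ) (F : EE D → k) (B : Finset Ex)

theorem lam_mul_monomial (a b : Ex) : lam D F (MvPowerSeries.monomial a 1 *
    MvPowerSeries.monomial b 1) = ext0 D F (a + b) := by
  rw [MvPowerSeries.monomial_mul_monomial, one_mul, lam_monomial]

/-- the coefficient relation from a basis -/
theorem NJ_rel (v : Basis B k (MvPowerSeries (Fin 3) k ⧸ IF D F))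
    (hv : ∀ b : B, v b = Ideal.Quotient.mk (IF D F) (MvPowerSeries.monomial (b : Ex) (1 : k)))
    (a : Ex) (b' : B) :
    ext0 D F (a + (b' : Ex)) = ∑ b : B, NJ (IF D F) B v a b * Hm B D F b b' := by
  have h1 := wps_mem (IF D F) B v hv a (MvPowerSeries.monomial (b' : Ex) 1)
  rw [wps, mul_sub, map_sub, sub_eq_zero, lam_mul_monomial, Finset.mul_sum, map_sum] at h1
  rw [add_comm a, h1]
  refine Finset.sum_congr rfl fun b _ => ?_
  have h2 : MvPowerSeries.monomial (b : Ex) (NJ (IF D F) B v a b) =
      NJ (IF D F) B v a b • (MvPowerSeries.monomial (b : Ex) (1 : k)) := by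
    rw [← map_smul, smul_eq_mul, mul_one]
  rw [h2, mul_smul_comm, map_smul, lam_mul_monomial, smul_eq_mul, add_comm, Hm]

theorem det_mul_NJ (v : Basis B k (MvPowerSeries (Fin 3) k ⧸ IF D F))
    (hv : ∀ b : B, v b = Ideal.Quotient.mk (IF D F) (MvPowerSeries.monomial (b : Ex) (1 : k)))
    (a : Ex) (b : B) : (Hm B D F).det * NJ (IF D F) B v a b = numN B D F a b :=
  det_mul_of_rel B D F _ (NJ_rel D F B v hv) a b

/-- the Gram matrix of a monomial basis is invertible. -/
theorem det_ne_zero (v : Basis B k (MvPowerSeries (Fin 3) k ⧸ IF D F))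
    (hv : ∀ b : B, v b = Ideal.Quotient.mk (IF D F) (MvPowerSeries.monomial (b : Ex) (1 : k))) :
    (Hm B D F).det ≠ 0 := by
  classical
  intro hdet
  obtain ⟨z, hz0, hz⟩ := Matrix.exists_vecMul_eq_zero_iff.2 hdet
  apply hz0
  set r : MvPowerSeries (Fin 3) k := ∑ b : B, z b • MvPowerSeries.monomial (b : Ex) (1 : k)
    with hr
  have h1 : ∀ b' : B, lam D F (MvPowerSeries.monomial (b' : Ex) 1 * r) = 0 := by
    intro b'
    rw [hr, Finset.mul_sum, map_sum]
    have := congrFun hz b'
    rw [Matrix.vecMul, dotProduct] at this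
    rw [Pi.zero_apply] at this
    rw [← this]
    refine Finset.sum_congr rfl fun b _ => ?_
    rw [mul_smul_comm, map_smul, lam_mul_monomial, smul_eq_mul, add_comm, Hm]
  have h2 : r ∈ IF D F := by
    intro s
    have hs := v.sum_repr (Ideal.Quotient.mk (IF D F) s)
    have h3 : s - ∑ b : B, v.repr (Ideal.Quotient.mk (IF D F) s) b •
        MvPowerSeries.monomial (b : Ex) (1 : k) ∈ IF D F := by
      rw [← Ideal.Quotient.eq, ← hs, map_sum]
      refine Finset.sum_congr rfl fun b _ => ?_
      rw [hs, hv]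
      rfl
    have h4 := h3 r
    rw [mul_sub, map_sub, sub_eq_zero] at h4
    rw [mul_comm, h4, Finset.mul_sum, map_sum]
    refine Finset.sum_eq_zero fun b _ => ?_
    rw [mul_smul_comm, map_smul, mul_comm, h1, smul_zero]
  rw [← Ideal.Quotient.eq_zero_iff_mem, hr, map_sum] at h2
  have h5 : ∑ b : B, z b • v b = 0 := by
    rw [← h2]
    refine Finset.sum_congr rfl fun b _ => ?_
    rw [hv]
    rfl
  ext b
  exact Fintype.linearIndependent_iff.1 v.linearIndependent z h5 b

/-- an invertible Gram matrix of maximal size gives a monomial basis. -/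
theorem exists_basis_of_det (hd : (Hm B D F).det ≠ 0)
    (hmax : finrank k (MvPowerSeries (Fin 3) k ⧸ IF D F) ≤ B.card) :
    finrank k (MvPowerSeries (Fin 3) k ⧸ IF D F) = B.card ∧
    ∃ v : Basis B k (MvPowerSeries (Fin 3) k ⧸ IF D F),
      ∀ b : B, v b = Ideal.Quotient.mk (IF D F) (MvPowerSeries.monomial (b : Ex) (1 : k)) := by
  classical
  have hfin := IF_finite D F
  have hli : LinearIndependent k (fun b : B =>
      Ideal.Quotient.mk (IF D F) (MvPowerSeries.monomial (b : Ex) (1 : k))) := by
    rw [Fintype.linearIndependent_iff]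
    intro z hz
    by_contra hne
    apply hd
    rw [← Matrix.exists_vecMul_eq_zero_iff]
    refine ⟨z, fun h => hne fun b => congrFun h b, ?_⟩
    ext b'
    have h1 : ∑ b : B, z b • MvPowerSeries.monomial (b : Ex) (1 : k) ∈ IF D F := by
      rw [← Ideal.Quotient.eq_zero_iff_mem, ← hz, map_sum]
      rfl
    have h2 := h1 (MvPowerSeries.monomial (b' : Ex) 1)
    rw [Finset.mul_sum, map_sum] at h2
    rw [Matrix.vecMul, dotProduct, Pi.zero_apply, ← h2]
    refine Finset.sum_congr rfl fun b _ => ?_
    rw [mul_smul_comm, map_smul, lam_mul_monomial, smul_eq_mul, add_comm, Hm]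
  have hcard : finrank k (MvPowerSeries (Fin 3) k ⧸ IF D F) = B.card := by
    refine le_antisymm hmax ?_
    have := hli.fintype_card_le_finrank
    rwa [Fintype.card_coe] at this
  refine ⟨hcard, ?_⟩
  by_cases hB : Nonempty B
  · refine ⟨basisOfLinearIndependentOfCardEqFinrank hli (by rw [Fintype.card_coe, hcard]), ?_⟩
    intro b
    rw [coe_basisOfLinearIndependentOfCardEqFinrank]
  · have hB' : IsEmpty B := not_nonempty_iff.1 hB
    have h0 : finrank k (MvPowerSeries (Fin 3) k ⧸ IF D F) = 0 := by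
      rw [hcard]
      exact Finset.card_eq_zero.2 (Finset.eq_empty_of_forall_notMem fun x hx => hB'.elim ⟨x, hx⟩)
    have hsub : Subsingleton (MvPowerSeries (Fin 3) k ⧸ IF D F) := finrank_zero_iff.1 h0
    exact ⟨Basis.empty _, fun b => isEmptyElim b⟩

end

end Pool.Agent.H19
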