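import Mathlib
import Pool.Agent.H19.Gram

namespace Pool.Agent.H19

open Module MvPolynomial

universe u

section

variable {k : Type u} [Field k] (D : ℕ) (B : Finset Ex)

/-- the generic functional -/
noncomputable def gX : EE D → MvPolynomial (EE D) k := fun e => X e

theorem eval_det (F : EE D → k) : aeval F (Hm B D (gX (k := k) D)).det = (Hm B D F).det := by
  have h := det_Hm_map B D ((aeval F : MvPolynomial (EE D) k →ₐ[k] k) : MvPolynomial (EE D) k →+* k)
    (gX (k := k) D)
  have h2 : (fun e => ((aeval F : MvPolynomial (EE D) k →ₐ[k] k) : MvPolynomial (EE D) k →+* k)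
    (gX (k := k) D e)) = F := by
    ext e
    simp [gX]
  rw [h2] at h
  exact h.symm

theorem eval_numN (F : EE D → k) (a : Ex) (b : B) :
    aeval F (numN B D (gX (k := k) D) a b) = numN B D F a b := by
  have h := numN_map B D ((aeval F : MvPolynomial (EE D) k →ₐ[k] k) : MvPolynomial (EE D) k →+* k)
    (gX (k := k) D) a b
  have h2 : (fun e => ((aeval F : MvPolynomial (EE D) k →ₐ[k] k) : MvPolynomial (EE D) k →+* k)
    (gX (k := k) D e)) = F := by
    ext e
    simp [gX]
  rw [h2] at h
  exact h.symm

theorem transfer [Infinite k] (hdet : (Hm B D (gX (k := k) D)).det ≠ 0)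
    {σ : Type*} (idx : σ → Ex × B) (P : MvPolynomial σ k)
    (h : ∀ (F : EE D → k) (Nf : Ex → B → k), (Hm B D F).det ≠ 0 →
      (∀ a b, (Hm B D F).det * Nf a b = numN B D F a b) →
      aeval (fun s => Nf (idx s).1 (idx s).2) P = 0)
    (L : Type u) [Field L] [Algebra k L] (φ : MvPolynomial (EE D) k →ₐ[k] L)
    (hinj : Function.Injective φ) (Ngen : Ex → B → L)
    (hN : ∀ a b, φ (Hm B D (gX (k := k) D)).det * Ngen a b = φ (numN B D (gX (k := k) D) a b)) :
    aeval (fun s => Ngen (idx s).1 (idx s).2) P = 0 := by
  classical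
  obtain ⟨M, R, hR⟩ := clear_den P (fun s => numN B D (gX (k := k) D) (idx s).1 (idx s).2)
    (Hm B D (gX (k := k) D)).det
  have h1 : R * (Hm B D (gX (k := k) D)).det = 0 := by
    apply MvPolynomial.funext
    intro F
    rw [map_mul, map_zero]
    by_cases hF : (Hm B D F).det = 0
    · have := eval_det D B F
      rw [hF] at this
      rw [MvPolynomial.aeval_eq_eval] at this
      have h3 : eval F (Hm B D (gX (k := k) D)).det = 0 := this
      rw [h3, mul_zero]
    · have h2 := hR k (aeval F) (fun s => numN B D F (idx s).1 (idx s).2 / (Hm B D F).det) (by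
        intro s
        rw [eval_det, eval_numN]
        field_simp)
      have h4 := h F (fun a b => numN B D F a b / (Hm B D F).det) hF (by
        intro a b
        field_simp)
      rw [h4, mul_zero] at h2
      have h3 : eval F R = 0 := by
        rw [MvPolynomial.aeval_eq_eval] at h2
        exact h2
      rw [h3, zero_mul]
  have hR0 : R = 0 := (mul_eq_zero.1 h1).resolve_right hdet
  have h5 := hR L φ (fun s => Ngen (idx s).1 (idx s).2) (fun s => hN _ _)
  rw [hR0, map_zero] at h5
  have h6 : φ (Hm B D (gX (k := k) D)).det ≠ 0 := by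
    rw [Ne, map_eq_zero_iff φ hinj]
    exact hdet
  exact (mul_eq_zero.1 h5.symm).resolve_left (pow_ne_zero _ h6)

theorem adjoin_X_top (ι : Type*) (L : Type*) [Field L] [Algebra k L]
    [Algebra (MvPolynomial ι k) L] [IsScalarTower k (MvPolynomial ι k) L]
    [IsFractionRing (MvPolynomial ι k) L] :
    IntermediateField.adjoin k (Set.range fun e : ι => algebraMap (MvPolynomial ι k) L (X e)) = ⊤ := by
  rw [eq_top_iff]
  rintro x -
  have hmem : ∀ p : MvPolynomial ι k, algebraMap (MvPolynomial ι k) L p ∈
      IntermediateField.adjoin k (Set.range fun e : ι => algebraMap (MvPolynomial ι k) L (X e)) := by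
    intro p
    induction p using MvPolynomial.induction_on with
    | C c =>
      have : algebraMap (MvPolynomial ι k) L (C c) = algebraMap k L c := by
        rw [IsScalarTower.algebraMap_apply k (MvPolynomial ι k) L]
        rfl
      rw [this]
      exact IntermediateField.algebraMap_mem _ c
    | add p q hp hq => rw [map_add]; exact add_mem hp hq
    | mul_X p i hp =>
      rw [map_mul]
      exact mul_mem hp (IntermediateField.subset_adjoin k _ ⟨i, rfl⟩)
  obtain ⟨a, b, -, rfl⟩ := IsFractionRing.div_surjective (A := MvPolynomial ι k) x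
  exact div_mem (hmem a) (hmem b)

theorem exists_sigma [Infinite k] (h0 : (0 : Ex) ∈ B)
    (hdet : (Hm B D (gX (k := k) D)).det ≠ 0) :
    ∃ (σ : Type u) (_ : Fintype σ) (idx : σ → Ex × B),
      (EE D).card ≤ Fintype.card σ + B.card ∧
      ∀ P : MvPolynomial σ k,
        (∀ (F : EE D → k) (Nf : Ex → B → k), (Hm B D F).det ≠ 0 →
          (∀ a b, (Hm B D F).det * Nf a b = numN B D F a b) →
          aeval (fun s => Nf (idx s).1 (idx s).2) P = 0) → P = 0 := by
  classical
  let A := MvPolynomial (EE D) k
  let L := FractionRing A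
  let φ : A →ₐ[k] L := IsScalarTower.toAlgHom k A L
  have hφ : Function.Injective φ := IsFractionRing.injective A L
  let c : EE D → L := fun e => φ (X e)
  have hc : AlgebraicIndependent k c := by
    have h1 : AlgebraicIndependent k (X : EE D → A) := MvPolynomial.algebraicIndependent_X _ _
    exact h1.map' (f := φ) hφ
  have hgen : IntermediateField.adjoin k (Set.range c) = ⊤ := adjoin_X_top (EE D) L
  have hdL : (Hm B D c).det ≠ 0 := by
    have := det_Hm_map B D (φ : A →+* L) (gX (k := k) D)
    have h2 : (fun e => (φ : A →+* L) (gX (k := k) D e)) = c := rfl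
    rw [h2] at this
    rw [this, Ne]
    have h3 := map_eq_zero_iff φ hφ (x := (Hm B D (gX (k := k) D)).det)
    exact fun h => hdet (h3.1 h)
  let Ng : Ex → B → L := fun a b => numN B D c a b / (Hm B D c).det
  have hNg : ∀ a b, (Hm B D c).det * Ng a b = numN B D c a b := by
    intro a b
    simp only [Ng]
    rw [mul_comm, div_mul_cancel₀ _ hdL]
  have hrel := rel_of_det_mul B D c Ng hdL hNg
  set T : Set L := Set.range (fun p : (EE D) × B => Ng (p.1 : Ex) p.2) with hT
  set U : Set L := Set.range (fun b : B => ext0 D c (b : Ex)) with hU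
  have hcT : ∀ e, c e ∈ IntermediateField.adjoin k (T ∪ U) := by
    intro e
    have h1 := hrel (e : Ex) ⟨0, h0⟩
    have h2 : ext0 D c ((e : Ex) + ((⟨0, h0⟩ : B) : Ex)) = c e := by
      rw [ext0]
      simp
    rw [← h2, h1]
    refine sum_mem fun b _ => mul_mem ?_ ?_
    · exact IntermediateField.subset_adjoin k _ (Or.inl ⟨(e, b), rfl⟩)
    · refine IntermediateField.subset_adjoin k _ (Or.inr ⟨b, ?_⟩)
      rw [Hm]
      simp
  obtain ⟨t, htT, htind, htcard⟩ := exists_indep c hc hgen T U (Set.finite_range _)
    (Set.finite_range _) hcT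
  have hUc : U.ncard ≤ B.card := by
    rw [hU, ← Set.image_univ]
    refine (Set.ncard_image_le Set.finite_univ).trans ?_
    rw [Set.ncard_univ, Nat.card_eq_fintype_card, Fintype.card_coe]
  choose pr hpr using fun x : t => htT x.2
  refine ⟨t, inferInstance, fun x => ((pr x).1, (pr x).2), ?_, ?_⟩
  · rw [Fintype.card_coe] at htcard ⊢
    omega
  · intro P hP
    have h1 := transfer D B hdet (fun x : t => (((pr x).1 : Ex), (pr x).2)) P hP L φ hφ Ng (by
      intro a b
      have e1 := det_Hm_map B D (φ : A →+* L) (gX (k := k) D)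
      have e2 := numN_map B D (φ : A →+* L) (gX (k := k) D) a b
      have e3 : (fun e => (φ : A →+* L) (gX (k := k) D e)) = c := rfl
      rw [e3] at e1 e2
      have e4 := hNg a b
      rw [e1, e2] at e4
      exact e4)
    have h2 : (fun s : t => Ng ((pr s).1 : Ex) (pr s).2) = fun s : t => (s : L) := by
      ext s
      exact hpr s
    have h3 : aeval (fun s : t => (s : L)) P = 0 := by
      rw [← h2]; exact h1
    rw [algebraicIndependent_iff] at htind
    exact htind P h3

end

end Pool.Agent.H19
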