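import Mathlib
import Pool.Agent.H19.Closure
import Pool.Agent.H19.Sigma

namespace Pool.Agent.H19

open Module MvPolynomial

universe u

/-- complete intersections with a given monomial basis -/
structure CIdat (k : Type u) [Field k] (B : Finset Ex) where
  /-- the ideal -/
  J : Ideal (MvPowerSeries (Fin 3) k)
  /-- finiteness -/
  fin : Module.Finite k (MvPowerSeries (Fin 3) k ⧸ J)
  /-- the basis -/
  v : Basis B k (MvPowerSeries (Fin 3) k ⧸ J)
  /-- it consists of monomials -/
  hv : ∀ b : B, v b = Ideal.Quotient.mk J (MvPowerSeries.monomial (b : Ex) (1 : k))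
  /-- generators -/
  f : Fin 3 → MvPowerSeries (Fin 3) k
  /-- they generate -/
  hf : J = Ideal.span (Set.range f)

section

variable {k : Type u} [Field k]

/-- coordinates, extended by zero -/
noncomputable def Qv (n : ℕ) (i : Fin n) (a : Ex) : MvPolynomial (Fin n × Mon n) k :=
  if h : a.degree < n then X (i, (⟨a, h⟩ : Mon n)) else 0

theorem eval_Qv {n : ℕ} (q : Framed k n) (i : Fin n) (a : Ex) :
    aeval (q.coord : Fin n × Mon n → k) (Qv (k := k) n i a) =
      q.frame (Ideal.Quotient.mk q.pt.1 (MvPowerSeries.monomial a (1 : k))) i := by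
  classical
  rw [Qv]
  split_ifs with h
  · rw [aeval_X]; rfl
  · have hfin := q.pt.2.1
    have h1 : (MvPowerSeries.monomial a (1 : k)) ∈ Ord k n := by
      intro c hc
      rw [MvPowerSeries.coeff_monomial, if_neg]
      rintro rfl
      omega
    have h2 := pow_le_of_finrank q.pt.1 n q.pt.2.2 (Ord_le_pow n h1)
    rw [Ideal.Quotient.eq_zero_iff_mem.2 h2, map_zero, map_zero]
    rfl

variable (B : Finset Ex)

/-- the matrix of the candidates for a basis -/
noncomputable def Mq : Matrix (Fin B.card) (Fin B.card) (MvPolynomial (Fin B.card × Mon B.card) k) :=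
  fun i j => Qv B.card i (B.equivFin.symm j : Ex)

/-- the numerators -/
noncomputable def yq (s : Ex × B) : MvPolynomial (Fin B.card × Mon B.card) k :=
  ∑ i, (Mq B).adjugate (B.equivFin s.2) i * Qv B.card i s.1

/-- value of `Mq` at a framed point -/
noncomputable def mq (q : Framed k B.card) : Matrix (Fin B.card) (Fin B.card) k :=
  fun i j => q.frame (Ideal.Quotient.mk q.pt.1
    (MvPowerSeries.monomial (B.equivFin.symm j : Ex) (1 : k))) i

theorem map_Mq (q : Framed k B.card) :
    (aeval (q.coord : Fin B.card × Mon B.card → k) :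
      MvPolynomial (Fin B.card × Mon B.card) k →ₐ[k] k).mapMatrix (Mq B) = mq B q := by
  ext i j
  rw [AlgHom.mapMatrix_apply, Matrix.map_apply, Mq, eval_Qv]
  rfl

theorem map_det_Mq (q : Framed k B.card) :
    (aeval (q.coord : Fin B.card × Mon B.card → k) (Mq (k := k) B).det) = (mq B q).det := by
  rw [AlgHom.map_det, map_Mq]

theorem map_yq (q : Framed k B.card) (s : Ex × B) :
    (aeval (q.coord : Fin B.card × Mon B.card → k) (yq (k := k) B s)) =
      ∑ i, (mq B q).adjugate (B.equivFin s.2) i *
        q.frame (Ideal.Quotient.mk q.pt.1 (MvPowerSeries.monomial s.1 (1 : k))) i := by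
  rw [yq, map_sum]
  refine Finset.sum_congr rfl fun i _ => ?_
  rw [map_mul, eval_Qv, ← map_Mq, ← AlgHom.map_adjugate]
  rfl

theorem det_mul_NJ_frame (q : Framed k B.card) (v : Basis B k (MvPowerSeries (Fin 3) k ⧸ q.pt.1))
    (hv : ∀ b : B, v b = Ideal.Quotient.mk q.pt.1 (MvPowerSeries.monomial (b : Ex) (1 : k)))
    (s : Ex × B) :
    aeval (q.coord : Fin B.card × Mon B.card → k) (Mq (k := k) B).det *
      NJ q.pt.1 B v s.1 s.2 =
    aeval (q.coord : Fin B.card × Mon B.card → k) (yq (k := k) B s) := by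
  classical
  rw [map_det_Mq, map_yq]
  set N : Fin B.card → k := fun j => NJ q.pt.1 B v s.1 (B.equivFin.symm j) with hN
  have h1 : (fun i => q.frame (Ideal.Quotient.mk q.pt.1 (MvPowerSeries.monomial s.1 (1 : k))) i) =
      (mq B q).mulVec N := by
    ext i
    rw [mk_monomial_eq q.pt.1 B v, map_sum, Finset.sum_apply, Matrix.mulVec, dotProduct]
    rw [← B.equivFin.symm.sum_comp]
    refine Finset.sum_congr rfl fun j _ => ?_
    rw [map_smul, Pi.smul_apply, smul_eq_mul, mul_comm, hv]
    rfl
  have h2 : ∑ i, (mq B q).adjugate (B.equivFin s.2) i *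
        q.frame (Ideal.Quotient.mk q.pt.1 (MvPowerSeries.monomial s.1 (1 : k))) i =
      (mq B q).adjugate.mulVec (fun i =>
        q.frame (Ideal.Quotient.mk q.pt.1 (MvPowerSeries.monomial s.1 (1 : k))) i)
        (B.equivFin s.2) := rfl
  rw [h2, h1, Matrix.mulVec_mulVec, Matrix.adjugate_mul, Matrix.smul_mulVec, Matrix.one_mulVec,
    Pi.smul_apply, smul_eq_mul, hN]
  simp

theorem exists_basis_frame (h0 : (0 : Ex) ∈ B) (q : Framed k B.card)
    (hd : aeval (q.coord : Fin B.card × Mon B.card → k) (Mq (k := k) B).det ≠ 0) :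
    ∃ v : Basis B k (MvPowerSeries (Fin 3) k ⧸ q.pt.1),
      ∀ b : B, v b = Ideal.Quotient.mk q.pt.1 (MvPowerSeries.monomial (b : Ex) (1 : k)) := by
  classical
  rw [map_det_Mq] at hd
  have hfin := q.pt.2.1
  have hli : LinearIndependent k (fun b : B =>
      Ideal.Quotient.mk q.pt.1 (MvPowerSeries.monomial (b : Ex) (1 : k))) := by
    rw [Fintype.linearIndependent_iff]
    intro z hz
    by_contra hne
    apply hd
    rw [← Matrix.exists_mulVec_eq_zero_iff]
    refine ⟨fun j => z (B.equivFin.symm j), fun h => hne fun b => ?_, ?_⟩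
    · have := congrFun h (B.equivFin b)
      simpa using this
    · ext i
      have h1 := congrFun (congrArg q.frame hz) i
      rw [map_sum, map_zero, Finset.sum_apply, ← B.equivFin.symm.sum_comp] at h1
      rw [Matrix.mulVec, dotProduct, Pi.zero_apply]
      rw [Pi.zero_apply] at h1
      rw [← h1]
      refine Finset.sum_congr rfl fun j _ => ?_
      rw [map_smul, Pi.smul_apply, smul_eq_mul, mul_comm]
      rfl
  have hne : Nonempty B := ⟨⟨0, h0⟩⟩
  refine ⟨basisOfLinearIndependentOfCardEqFinrank hli (by rw [Fintype.card_coe, q.pt.2.2]), ?_⟩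
  intro b
  rw [coe_basisOfLinearIndependentOfCardEqFinrank]

theorem closure_cert (h0 : (0 : Ex) ∈ B) (I : Hilb0 k B.card)
    (hI : I ∈ closure {J : Hilb0 k B.card | IsCI J})
    (v : Basis B k (MvPowerSeries (Fin 3) k ⧸ I.1))
    (hv : ∀ b : B, v b = Ideal.Quotient.mk I.1 (MvPowerSeries.monomial (b : Ex) (1 : k)))
    {σ : Type*} (idx : σ → Ex × B) (P : MvPolynomial σ k)
    (hP : ∀ i : CIdat k B, aeval (fun s => NJ i.J B i.v (idx s).1 (idx s).2) P = 0) :
    aeval (fun s => NJ I.1 B v (idx s).1 (idx s).2) P = 0 := by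
  classical
  obtain ⟨M, R, hR⟩ := clear_den P (fun s => yq (k := k) B (idx s)) (Mq (k := k) B).det
  have hvan : ∀ q : Framed k B.card, q.pt ∈ {J : Hilb0 k B.card | IsCI J} →
      eval (q.coord : Fin B.card × Mon B.card → k) (R * (Mq (k := k) B).det) = 0 := by
    intro q hq
    rw [map_mul]
    by_cases hd : eval (q.coord : Fin B.card × Mon B.card → k) (Mq (k := k) B).det = 0
    · rw [hd, mul_zero]
    · have hd' : aeval (q.coord : Fin B.card × Mon B.card → k) (Mq (k := k) B).det ≠ 0 := by
        rw [MvPolynomial.aeval_eq_eval]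
        exact hd
      obtain ⟨w, hw⟩ := exists_basis_frame B h0 q hd'
      obtain ⟨f, g, h, hfgh⟩ := hq
      let dat : CIdat k B := ⟨q.pt.1, q.pt.2.1, w, hw, ![f, g, h], by
        rw [hfgh]
        congr 1
        simp [Matrix.range_cons, Matrix.range_empty]
        ext x
        simp
        tauto⟩
      have h1 := hR k (aeval (q.coord : Fin B.card × Mon B.card → k))
        (fun s => NJ q.pt.1 B w (idx s).1 (idx s).2)
        (fun s => det_mul_NJ_frame B q w hw (idx s))
      have h2 : aeval (fun s => NJ q.pt.1 B w (idx s).1 (idx s).2) P = 0 := hP dat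
      rw [h2, mul_zero] at h1
      rw [MvPolynomial.aeval_eq_eval] at h1
      have h3 : eval (q.coord : Fin B.card × Mon B.card → k) R = 0 := h1
      rw [h3, zero_mul]
  let q0 : Framed k B.card := ⟨I, (v.reindex B.equivFin).equivFun⟩
  have h1 := vanish_closure _ _ hvan q0 hI
  have hm : mq B q0 = 1 := by
    ext i j
    have h2 : Ideal.Quotient.mk q0.pt.1
        (MvPowerSeries.monomial (B.equivFin.symm j : Ex) (1 : k)) =
        (v.reindex B.equivFin) j := by
      rw [Basis.reindex_apply, hv]
    rw [mq, h2]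
    show (v.reindex B.equivFin).equivFun ((v.reindex B.equivFin) j) i = _
    rw [Basis.equivFun_self, Matrix.one_apply]
    simp only [eq_comm]
  have hd0 : aeval (q0.coord : Fin B.card × Mon B.card → k) (Mq (k := k) B).det = 1 := by
    rw [map_det_Mq, hm, Matrix.det_one]
  have h3 := hR k (aeval (q0.coord : Fin B.card × Mon B.card → k))
    (fun s => NJ I.1 B v (idx s).1 (idx s).2)
    (fun s => det_mul_NJ_frame B q0 v hv (idx s))
  rw [hd0, one_pow, one_mul] at h3
  rw [← h3]
  rw [map_mul] at h1
  have h4 : eval (q0.coord : Fin B.card × Mon B.card → k) (Mq (k := k) B).det = 1 := by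
    rw [MvPolynomial.aeval_eq_eval] at hd0
    exact hd0
  rw [h4, mul_one] at h1
  rw [MvPolynomial.aeval_eq_eval]
  exact h1

end

end Pool.Agent.H19
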