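import Mathlib
import Pool.Agent.H19.Step

namespace Pool.Agent.H19

open Module MvPolynomial

universe u

theorem card_EE (n : ℕ) : (EE n).card = (n + 3).choose 3 := by
  classical
  rw [EE, Finset.card_biUnion]
  · have h : ∀ d, ((Finset.univ : Finset (Fin 3)).finsuppAntidiag d).card = (d + 2).choose 2 := by
      intro d
      rw [Finset.card_finsuppAntidiag_nat_eq_choose, Finset.card_univ, Fintype.card_fin]
      have : 3 + d - 1 = d + 2 := by omega
      rw [this]
      exact Nat.choose_symm_add
    simp only [h]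
    rw [Nat.sum_range_add_choose]
  · intro x _ y _ hxy
    rw [Function.onFun, Finset.disjoint_left]
    intro a ha hb
    rw [Finset.mem_finsuppAntidiag] at ha hb
    exact hxy (ha.1.symm.trans hb.1)

theorem main_aux (k : Type u) [Field k] [Infinite k] [PerfectField k] (D t w : ℕ)
    (hD : D = t + w + 1) (hnum : 323 * ((EE t).card + (EE w).card) < 81 * (EE D).card) :
    ∃ (n : ℕ) (I : Hilb0 k n), IsGorenstein I ∧ I ∉ closure {J : Hilb0 k n | IsCI J} := by
  classical
  by_contra hcon
  push Not at hcon
  obtain ⟨F0, hF0⟩ := exists_max (k := k) D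
  have hpos : 0 < finrank k (MvPowerSeries (Fin 3) k ⧸ IF D F0) := by
    have hm : (0 : Ex) ∈ EE D := mem_EE.2 (by simp)
    set F1 : EE D → k := fun _ => 1 with hF1
    have hfin := IF_finite D F1
    have h1 : (1 : MvPowerSeries (Fin 3) k) ∉ IF D F1 := by
      intro h
      have h2 := h 1
      rw [mul_one] at h2
      have h3 : (1 : MvPowerSeries (Fin 3) k) = MvPowerSeries.monomial 0 1 := rfl
      rw [h3, lam_monomial, ext0, dif_pos hm] at h2
      exact one_ne_zero h2
    have h2 : Nontrivial (MvPowerSeries (Fin 3) k ⧸ IF D F1) := by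
      rw [Ideal.Quotient.nontrivial_iff]
      intro h
      rw [h] at h1
      exact h1 Submodule.mem_top
    have h3 : 0 < finrank k (MvPowerSeries (Fin 3) k ⧸ IF D F1) := finrank_pos
    exact lt_of_lt_of_le h3 (hF0 F1)
  have hne : ∀ F : EE D → k, 0 < finrank k (MvPowerSeries (Fin 3) k ⧸ IF D F) →
      IF D F ≠ ⊤ := by
    intro F hF h
    have hfin := IF_finite D F
    have h2 := Module.finrank_pos_iff.1 hF
    rw [Ideal.Quotient.nontrivial_iff] at h2
    exact h2 h
  obtain ⟨B, v0, h0, hv0⟩ := exists_monomial_basis (IF D F0) D (Ord_le_IF _ _) (hne _ hpos)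
  have hcard : finrank k (MvPowerSeries (Fin 3) k ⧸ IF D F0) = B.card := by
    rw [finrank_eq_card_basis v0, Fintype.card_coe]
  have hdet0 := det_ne_zero D F0 B v0 hv0
  have hdetX : (Hm B D (gX (k := k) D)).det ≠ 0 := by
    intro h
    apply hdet0
    rw [← eval_det, h, map_zero]
  obtain ⟨σ, hσfin, idx, hσcard, hσ⟩ := exists_sigma D B h0 hdetX
  have key : ∀ P : MvPolynomial σ k,
      (∀ i : CIdat k B, aeval (fun s => NJ i.J B i.v (idx s).1 (idx s).2) P = 0) → P = 0 := by
    intro P hP
    apply hσ
    intro F Nf hF hNf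
    obtain ⟨hfr, v, hv⟩ := exists_basis_of_det D F B hF (by rw [← hcard]; exact hF0 F)
    have hfin := IF_finite D F
    let I : Hilb0 k B.card := ⟨IF D F, hfin, hfr⟩
    have hG : IsGorenstein I := by
      refine socle_IF D F (hne F ?_) ((Submodule.torsionBySet (MvPowerSeries (Fin 3) k)
        (MvPowerSeries (Fin 3) k ⧸ I.1)
        (IsLocalRing.maximalIdeal (MvPowerSeries (Fin 3) k))).restrictScalars k) ?_
      · rw [hfr, ← hcard]
        exact hpos
      · intro a
        rw [mm_eq, Submodule.restrictScalars_mem, Submodule.mem_torsionBySet_iff]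
        constructor
        · intro h m hm
          exact h ⟨m, hm⟩
        · intro h m
          exact h m.1 m.2
    have h1 := closure_cert B h0 I (hcon _ I hG) v hv idx P hP
    have h2 : (fun s => Nf (idx s).1 (idx s).2) =
        fun s => NJ (IF D F) B v (idx s).1 (idx s).2 := by
      ext s
      have h3 := det_mul_NJ D F B v hv (idx s).1 (idx s).2
      rw [← hNf] at h3
      exact (mul_left_cancel₀ hF h3).symm
    rw [h2]
    exact h1
  have split : ∃ g : Fin 3 → EE B.card, ∀ P : MvPolynomial σ k,
      (∀ i : {i : CIdat k B // C4 B (EE B.card) (fun j => (g j : Ex)) (NJ i.J B i.v)},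
        aeval (fun s => NJ i.1.J B i.1.v (idx s).1 (idx s).2) P = 0) → P = 0 := by
    by_contra hno
    push Not at hno
    choose P hP hP0 using hno
    have hprod : ∏ g, P g ≠ 0 := Finset.prod_ne_zero_iff.2 (fun g _ => hP0 g)
    apply hprod
    apply key
    intro i
    have hfi := i.fin
    obtain ⟨g, hg⟩ := C4_of_CI i.J B.card (by rw [finrank_eq_card_basis i.v, Fintype.card_coe])
      B i.v i.hv i.f i.hf
    rw [map_prod]
    exact Finset.prod_eq_zero (Finset.mem_univ g) (hP g ⟨i, hg⟩)
  obtain ⟨g, hg⟩ := split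
  have hb := generic_bound {i : CIdat k B // C4 B (EE B.card) (fun j => (g j : Ex)) (NJ i.J B i.v)}
    B (EE B.card) B.card (fun a ha => mem_EE.2 ha) (fun j => (g j : Ex))
    (fun i => NJ i.1.J B i.1.v)
    (fun i b => NJ_c1 i.1.J B i.1.v i.1.hv b)
    (fun i a ha => by
      have hfi := i.1.fin
      exact NJ_c2 i.1.J B.card (by rw [finrank_eq_card_basis i.1.v, Fintype.card_coe]) B i.1.v a ha)
    (fun i a l => NJ_c3 i.1.J B i.1.v i.1.hv a l)
    (fun i => i.2) σ idx hg
  have hle := finrank_IF_le D F0 t w hD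
  rw [hcard] at hle
  omega

theorem main_theorem (k : Type u) [Field k] [Infinite k] [PerfectField k] :
    ∃ (n : ℕ) (I : Hilb0 k n), IsGorenstein I ∧ I ∉ closure {J : Hilb0 k n | IsCI J} := by
  refine main_aux k 1000 500 499 rfl ?_
  rw [card_EE, card_EE, card_EE]
  have d1 : Nat.choose 1003 3 = 167668501 := by
    rw [Nat.choose_eq_descFactorial_div_factorial]; norm_num [Nat.descFactorial, Nat.factorial]
  have d2 : Nat.choose 503 3 = 21084251 := by
    rw [Nat.choose_eq_descFactorial_div_factorial]; norm_num [Nat.descFactorial, Nat.factorial]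
  have d3 : Nat.choose 502 3 = 20958500 := by
    rw [Nat.choose_eq_descFactorial_div_factorial]; norm_num [Nat.descFactorial, Nat.factorial]
  norm_num [d1, d2, d3]

end Pool.Agent.H19
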