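import Pool.Agent.H19.NagaiMain

/-! # The Looijenga-Lunts-Verbitsky model of the even cohomology of a hyperkähler manifold

`V` is the complexified extended Mukai lattice with its symmetric form `B`, `so(V,B)` is Mathlib's
`skewAdjointLieSubalgebra B`, and `H` (a finite-dimensional `so(V,B)`-module) is the even
cohomology of the manifold. -/

namespace Pool.Agent.H19.Nagai

open Module LieModule

variable {V : Type*} [AddCommGroup V] [Module ℂ V] {B : LinearMap.BilinForm ℂ V}

/-- The element `u ∧ v` of `so(V,B)`, that is `w ↦ B(u,w) v - B(v,w) u`. -/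
noncomputable def wedge (hB : B.IsSymm) (u v : V) : skewAdjointLieSubalgebra B :=
  ⟨(B u).smulRight v - (B v).smulRight u, by
    change _ ∈ B.skewAdjointSubmodule
    rw [LinearMap.mem_skewAdjointSubmodule]
    intro a b
    have h1 := hB.eq u a
    have h2 := hB.eq v a
    simp only [LinearMap.sub_apply, LinearMap.smulRight_apply, map_sub, map_smul,
      LinearMap.smul_apply, smul_eq_mul, Pi.neg_apply, map_neg, h1, h2]
    ring⟩

section

variable (hB : B.IsSymm) (H : Type*) [AddCommGroup H] [Module ℂ H]
  [LieRingModule (skewAdjointLieSubalgebra B) H] [LieModule ℂ (skewAdjointLieSubalgebra B) H]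

/-- The classes of Hodge type `(p,q)`: `α ∧ β` (the degree operator) acts by `(p+q)/2 - n` and
`τ ∧ σ` (the Hodge operator) acts by `(p-q)/2`. -/
noncomputable def hodgePiece (n : ℕ) (α β σ τ : V) (p q : ℕ) : Submodule ℂ H :=
  (toEnd ℂ (skewAdjointLieSubalgebra B) H (wedge hB α β)).eigenspace (((p : ℂ) + q) / 2 - n) ⊓
  (toEnd ℂ (skewAdjointLieSubalgebra B) H (wedge hB τ σ)).eigenspace (((p : ℂ) - q) / 2)

/-- The Verbitsky component: the smallest subspace containing the unit `one` and stable under
cup product by the classes `z` of `H²` (that is, under the operators `β ∧ z`). -/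
def verbitsky (α β : V) (one : H) : Submodule ℂ H :=
  sInf {S | one ∈ S ∧ ∀ z ∈ hTwo B α β, ∀ s ∈ S, ⁅wedge hB β z, s⁆ ∈ S}

/-- The model of the even cohomology of a hyperkähler manifold of complex dimension `2n`, with its
Hodge decomposition and the action of the Looijenga-Lunts-Verbitsky Lie algebra `so(V,B)`.
`H²` is the orthogonal complement of the hyperbolic pair `α, β`; the class `z` of `H²` acts by cup
product through `β ∧ z`; `σ` and `τ` are the class of the holomorphic symplectic form and of its
complex conjugate, with `B(τ,σ)` normalised to `1`. -/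
structure IsLLVHodge (n : ℕ) (α β σ τ : V) (one : H) : Prop where
  nondeg : B.Nondegenerate
  αα : B α α = 0
  ββ : B β β = 0
  αβ : B α β = 1
  σ_mem : σ ∈ hTwo B α β
  τ_mem : τ ∈ hTwo B α β
  σσ : B σ σ = 0
  ττ : B τ τ = 0
  τσ : B τ σ = 1
  /-- Hodge decomposition -/
  hodge : ⨆ p ∈ Finset.range (2 * n + 1), ⨆ q ∈ Finset.range (2 * n + 1),
    hodgePiece hB H n α β σ τ p q = ⊤
  one_ne : one ≠ 0
  /-- the unit has type `(0,0)` -/
  one_mem : one ∈ hodgePiece hB H n α β σ τ 0 0
  /-- the unit is invariant under `so(H²)` -/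
  one_inv : ∀ u ∈ hTwo B α β, ∀ v ∈ hTwo B α β, ⁅wedge hB u v, one⁆ = 0
  /-- `H^{0,q}` is spanned by the power `τ^{q/2}` (and vanishes for `q` odd) -/
  sheaf : ∀ q ≤ 2 * n, hodgePiece hB H n α β σ τ 0 q ≤ Submodule.span ℂ
    {a | ∃ k, 2 * k = q ∧ a = (toEnd ℂ (skewAdjointLieSubalgebra B) H (wedge hB β τ) ^ k) one}

/-- The index `ν_{2i}` of `N`: the largest `m` such that `N ^ m` is not zero on `H^{2i}`, the
eigenspace of the degree operator for the eigenvalue `i - n`. -/
noncomputable def nu (n : ℕ) (α β : V) (N : skewAdjointLieSubalgebra B) (i : ℕ) : ℕ :=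
  sSup {m : ℕ | ∃ a : H, ⁅wedge hB α β, a⁆ = ((i : ℂ) - n) • a ∧
    (toEnd ℂ (skewAdjointLieSubalgebra B) H N ^ m) a ≠ 0}

end

/-- `x, y` span an isotropic plane of `H²`; then `x ∧ y` is a nilpotent of type II. -/
structure IsIsotropicPlane (B : LinearMap.BilinForm ℂ V) (α β x y : V) : Prop where
  x_mem : x ∈ hTwo B α β
  y_mem : y ∈ hTwo B α β
  indep : LinearIndependent ℂ ![x, y]
  xx : B x x = 0
  xy : B x y = 0
  yy : B y y = 0

/-! ### translation to the operators `D u v` -/

lemma wedge_apply (hB : B.IsSymm) (u v w : V) :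
    (wedge hB u v : Module.End ℂ V) w = B u w • v - B v w • u := by
  simp [wedge]

lemma wedge_rel (hB : B.IsSymm) (a b u v : V) : ⁅wedge hB a b, wedge hB u v⁆
    = wedge hB (B a u • b - B b u • a) v + wedge hB u (B a v • b - B b v • a) := by
  apply Subtype.ext
  ext w
  have h1 := hB.eq a u
  have h2 := hB.eq b u
  have h3 := hB.eq a v
  have h4 := hB.eq b v
  change (wedge hB a b : Module.End ℂ V) ((wedge hB u v : Module.End ℂ V) w)
    - (wedge hB u v : Module.End ℂ V) ((wedge hB a b : Module.End ℂ V) w)
    = (wedge hB (B a u • b - B b u • a) v : Module.End ℂ V) w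
      + (wedge hB u (B a v • b - B b v • a) : Module.End ℂ V) w
  simp only [wedge_apply, map_sub, map_smul, LinearMap.sub_apply,
    LinearMap.smul_apply, smul_eq_mul, smul_sub, sub_smul, h1, h2, h3, h4]
  module

variable (hB : B.IsSymm) {H : Type*} [AddCommGroup H] [Module ℂ H]
  [LieRingModule (skewAdjointLieSubalgebra B) H] [LieModule ℂ (skewAdjointLieSubalgebra B) H]

lemma rep_wedge : Rep B (fun u v => toEnd ℂ (skewAdjointLieSubalgebra B) H (wedge hB u v)) where
  add u u' v := by
    have : wedge hB (u + u') v = wedge hB u v + wedge hB u' v := by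
      apply Subtype.ext; ext w
      change (wedge hB (u + u') v : Module.End ℂ V) w
        = (wedge hB u v : Module.End ℂ V) w + (wedge hB u' v : Module.End ℂ V) w
      simp only [wedge_apply, LinearMap.add_apply, map_add]
      module
    rw [this, map_add]
  smul c u v := by
    have : wedge hB (c • u) v = c • wedge hB u v := by
      apply Subtype.ext; ext w
      change (wedge hB (c • u) v : Module.End ℂ V) w = c • (wedge hB u v : Module.End ℂ V) w
      simp only [wedge_apply, LinearMap.smul_apply, map_smul, smul_eq_mul]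
      module
    rw [this, map_smul]
  alt u v := by
    have : wedge hB v u = - wedge hB u v := by
      apply Subtype.ext; ext w
      change (wedge hB v u : Module.End ℂ V) w = - (wedge hB u v : Module.End ℂ V) w
      simp only [wedge_apply]
      module
    rw [this, map_neg]
  comm a b u v := by
    rw [← map_add, ← wedge_rel]
    ext w
    simp [Module.End.mul_apply]
  symm u v := by
    have := hB.eq u v
    simpa using this

lemma model_of_llv {n : ℕ} {α β σ τ : V} {one : H} (hX : IsLLVHodge hB H n α β σ τ one) :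
    Model B (fun u v => toEnd ℂ (skewAdjointLieSubalgebra B) H (wedge hB u v)) n α β σ τ one where
  rep := rep_wedge hB
  nondeg := hX.nondeg
  αα := hX.αα
  ββ := hX.ββ
  αβ := hX.αβ
  σmem := hX.σ_mem
  τmem := hX.τ_mem
  σσ := hX.σσ
  ττ := hX.ττ
  τσ := hX.τσ
  hodge := hX.hodge
  one_ne := hX.one_ne
  one_mem := hX.one_mem
  inv := hX.one_inv
  sheaf := hX.sheaf

lemma verbitsky_le (α β : V) (one : H) : verbitsky hB H α β one
    ≤ vsum B (fun u v => toEnd ℂ (skewAdjointLieSubalgebra B) H (wedge hB u v)) α β one := by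
  refine sInf_le ⟨one_mem_vsum, fun z hz s hs => ?_⟩
  exact vsum_raise (D := fun u v => toEnd ℂ (skewAdjointLieSubalgebra B) H (wedge hB u v)) hz hs

end Pool.Agent.H19.Nagai
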