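import Pool.Agent.H19.NagaiRep

/-! Propagation of `e_u ^ r = 0` to all isotropic vectors of `H²`, hyperbolic duals. -/

namespace Pool.Agent.H19.Nagai

open Module

variable {V W : Type*} [AddCommGroup V] [Module ℂ V] [AddCommGroup W] [Module ℂ W]
variable {B : LinearMap.BilinForm ℂ V} {D : V → V → Module.End ℂ W}

/-- the orthogonal complement of the pair `α, β` -/
def hTwo (B : LinearMap.BilinForm ℂ V) (α β : V) : Submodule ℂ V where
  carrier := {w | B α w = 0 ∧ B β w = 0}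
  add_mem' := by
    intro a b ha hb
    exact ⟨by rw [map_add, ha.1, hb.1, add_zero], by rw [map_add, ha.2, hb.2, add_zero]⟩
  zero_mem' := ⟨map_zero _, map_zero _⟩
  smul_mem' := by
    intro c a ha
    exact ⟨by rw [map_smul, ha.1, smul_zero], by rw [map_smul, ha.2, smul_zero]⟩

lemma mem_hTwo {α β w : V} : w ∈ hTwo B α β ↔ B α w = 0 ∧ B β w = 0 := Iff.rfl

namespace Rep

variable (R : Rep B D)
include R

lemma propagate_one {β u u' z : V} {r : ℕ} (hββ : B β β = 0) (hβu : B β u = 0)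
    (hβu' : B β u' = 0) (hβz : B β z = 0) (huu : B u u = 0) (hu'u' : B u' u' = 0)
    (hzz : B z z = 0) (hu'u : B u' u = 1) (hu'z : B u' z = 1) (hr : (D β u) ^ r = 0) :
    (D β z) ^ r = 0 := by
  set b : V := z - u - B u z • u' with hb
  have huu' : B u u' = 1 := by rw [R.symm, hu'u]
  have hzu' : B z u' = 1 := by rw [R.symm, hu'z]
  have hu'β : B u' β = 0 := by rw [R.symm, hβu']
  have hbβ : B b β = 0 := by
    rw [R.symm, hb, map_sub, map_sub, map_smul, hβz, hβu, hβu', smul_zero, sub_zero, sub_zero]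
  have hbu : B b u = 0 := by
    rw [R.symm, hb, map_sub, map_sub, map_smul, huu, huu', sub_zero, smul_eq_mul, mul_one, sub_self]
  have hbu' : B b u' = 0 := by
    rw [R.symm, hb, map_sub, map_sub, map_smul, hu'z, hu'u, hu'u', sub_self, smul_zero, sub_zero]
  have hu'b : B u' b = 0 := by rw [R.symm, hbu']
  have hbb : B b b = -2 * B u z := by
    have h1 : B b z = - 2 * B u z := by
      rw [R.symm, hb, map_sub, map_sub, map_smul, hzz, hzu', smul_eq_mul, R.symm z u]; ring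
    calc B b b = B b z - B b u - B u z * B b u' := by
          conv_lhs => rw [show B b b = B b (z - u - B u z • u') by rw [← hb]]
          rw [map_sub, map_sub, map_smul, smul_eq_mul]
      _ = _ := by rw [h1, hbu, hbu']; ring
  have key : ∀ w, D u' b * D β w - D β w * D u' b = D β (B u' w • b - B b w • u') := by
    intro w
    rw [R.comm u' b β w, hu'β, hbβ]
    simp [R.zero_left]
  have h0 : D u' b * D β u - D β u * D u' b = D β b := by
    rw [key, hu'u, hbu]; simp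
  have h1 : D u' b * D β b - D β b * D u' b = (2 : ℂ) • (B u z • D β u') := by
    rw [key, hu'b, hbb, zero_smul, zero_sub, R.neg_right, R.smul_right, smul_smul, ← neg_smul]
    congr 1; ring
  have h2 : D u' b * (B u z • D β u') - (B u z • D β u') * D u' b = 0 := by
    rw [mul_smul_comm, smul_mul_assoc, ← smul_sub, key, hu'u', hbu']
    simp [R.zero_right]
  have h3 := pow_sum_eq_zero h0 h1 h2 r hr
  have h4 : D β u + D β b + B u z • D β u' = D β z := by
    rw [← R.smul_right, ← R.add_right, ← R.add_right]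
    congr 1; rw [hb]; abel
  rw [← h4]; exact h3

lemma pow_smul_right {β z : V} {r : ℕ} {c : ℂ} (h : (D β z) ^ r = 0) : (D β (c • z)) ^ r = 0 := by
  rw [R.smul_right, smul_pow, h, smul_zero]

lemma propagate {β u u' z : V} {r : ℕ} (hββ : B β β = 0) (hβu : B β u = 0)
    (hβu' : B β u' = 0) (hβz : B β z = 0) (huu : B u u = 0) (hu'u' : B u' u' = 0)
    (hzz : B z z = 0) (hu'u : B u' u ≠ 0) (hu'z : B u' z ≠ 0) (hr : (D β u) ^ r = 0) :
    (D β z) ^ r = 0 := by
  have h := R.propagate_one (β := β) (u := (B u' u)⁻¹ • u) (u' := u') (z := (B u' z)⁻¹ • z)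
    (r := r) hββ (by simp [hβu]) hβu' (by simp [hβz]) (by simp [huu]) hu'u' (by simp [hzz])
    (by simp [hu'u]) (by simp [hu'z]) (R.pow_smul_right hr)
  have h2 := R.pow_smul_right (c := B u' z) h
  rwa [smul_smul, mul_inv_cancel₀ hu'z, one_smul] at h2

end Rep

section Geom

variable (hs : ∀ u v, B u v = B v u) (hn : B.Nondegenerate) {α β : V} (hαα : B α α = 0)
  (hββ : B β β = 0) (hαβ : B α β = 1)

/-- projection of a vector to `H²` -/
def proj (B : LinearMap.BilinForm ℂ V) (α β w : V) : V := w - B β w • α - B α w • β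

include hs hαα hββ hαβ in
lemma proj_mem (w : V) : proj B α β w ∈ hTwo B α β := by
  have hβα : B β α = 1 := by rw [hs, hαβ]
  constructor
  · simp [proj, hαα, hαβ]
  · simp [proj, hββ, hβα]

include hs in
lemma proj_apply {w z : V} (hz : z ∈ hTwo B α β) : B (proj B α β w) z = B w z := by
  simp [proj, hz.1, hz.2]

include hn hs in
lemma exists_ne {z : V} (hz : z ≠ 0) : ∃ w, B w z ≠ 0 := by
  by_contra! h
  exact hz (hn.1 z fun w => by rw [hs]; exact h w)

include hs hn hαα hββ hαβ in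
lemma exists_ne_two {z0 z : V} (hz0 : z0 ∈ hTwo B α β) (hz : z ∈ hTwo B α β) (h0 : z0 ≠ 0)
    (h1 : z ≠ 0) : ∃ w ∈ hTwo B α β, B w z0 ≠ 0 ∧ B w z ≠ 0 := by
  obtain ⟨w1, hw1⟩ := exists_ne hs hn h0
  obtain ⟨w2, hw2⟩ := exists_ne hs hn h1
  rw [← proj_apply hs hz0] at hw1
  rw [← proj_apply hs hz] at hw2
  have m1 := proj_mem hs hαα hββ hαβ w1
  have m2 := proj_mem hs hαα hββ hαβ w2
  by_cases h2 : B (proj B α β w1) z = 0
  · by_cases h3 : B (proj B α β w2) z0 = 0
    · refine ⟨_, (hTwo B α β).add_mem m1 m2, ?_, ?_⟩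
      · rw [map_add, LinearMap.add_apply, h3, add_zero]; exact hw1
      · rw [map_add, LinearMap.add_apply, h2, zero_add]; exact hw2
    · exact ⟨_, m2, h3, hw2⟩
  · exact ⟨_, m1, hw1, h2⟩

include hs hn hαα hββ hαβ in
/-- propagation along orthogonal isotropic vectors -/
lemma Rep.propagate_orth (R : Rep B D) {z0 z : V} {r : ℕ} (hz0 : z0 ∈ hTwo B α β)
    (hz : z ∈ hTwo B α β) (h0 : z0 ≠ 0) (h1 : z ≠ 0) (hz00 : B z0 z0 = 0) (hzz : B z z = 0)
    (hz0z : B z0 z = 0) (hr : (D β z0) ^ r = 0) : (D β z) ^ r = 0 := by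
  obtain ⟨w, hw, hw0, hw1⟩ := exists_ne_two hs hn hαα hββ hαβ hz0 hz h0 h1
  set c : ℂ := B w w / (2 * B w z0) with hc
  have hmem : w - c • z0 ∈ hTwo B α β :=
    (hTwo B α β).sub_mem hw ((hTwo B α β).smul_mem c hz0)
  refine R.propagate (u := z0) (u' := w - c • z0) hββ hz0.2 hmem.2 hz.2 hz00 ?_ hzz ?_ ?_ hr
  · simp only [map_sub, map_smul, LinearMap.sub_apply, LinearMap.smul_apply, smul_eq_mul, hz00,
      hs z0 w]
    rw [hc]; field_simp; ring
  · simpa [hz00] using hw0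
  · simpa [hz0z] using hw1

include hs in
/-- an isotropic plane contains a nonzero vector orthogonal to any given vector -/
lemma exists_plane_orth {x y : V} (hx : x ∈ hTwo B α β) (hy : y ∈ hTwo B α β)
    (hxy : LinearIndependent ℂ ![x, y]) (hxx : B x x = 0) (hxy0 : B x y = 0) (hyy : B y y = 0)
    (s : V) : ∃ a b : ℂ, a • x + b • y ∈ hTwo B α β ∧ a • x + b • y ≠ 0 ∧
      B s (a • x + b • y) = 0 := by
  have hmem : ∀ a b : ℂ, a • x + b • y ∈ hTwo B α β := fun a b =>
    (hTwo B α β).add_mem ((hTwo B α β).smul_mem a hx) ((hTwo B α β).smul_mem b hy)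
  have hli := LinearIndependent.pair_iff.1 hxy
  by_cases h : B s x = 0
  · refine ⟨1, 0, hmem _ _, ?_, ?_⟩
    · intro h0; exact one_ne_zero (hli 1 0 h0).1
    · simp [h]
  · refine ⟨B s y, - B s x, hmem _ _, ?_, ?_⟩
    · intro h0; exact h (neg_eq_zero.1 (hli _ _ h0).2)
    · simp only [map_add, map_smul, smul_eq_mul]; ring

include hs hn hαα hββ hαβ in
/-- if `e_u ^ r = 0` for one nonzero isotropic vector `u` of `H²` and `H²` contains an isotropic
plane then `e_z ^ r = 0` for all nonzero isotropic vectors -/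
lemma Rep.propagate_all (R : Rep B D) {u x y : V} {r : ℕ} (hu : u ∈ hTwo B α β) (hu0 : u ≠ 0)
    (huu : B u u = 0) (hx : x ∈ hTwo B α β) (hy : y ∈ hTwo B α β)
    (hxy : LinearIndependent ℂ ![x, y]) (hxx : B x x = 0) (hxy0 : B x y = 0) (hyy : B y y = 0)
    (hr : (D β u) ^ r = 0) {z : V} (hz : z ∈ hTwo B α β) (hz0 : z ≠ 0) (hzz : B z z = 0) :
    (D β z) ^ r = 0 := by
  obtain ⟨a, b, m1, n1, o1⟩ := exists_plane_orth hs hx hy hxy hxx hxy0 hyy u
  obtain ⟨a', b', m2, n2, o2⟩ := exists_plane_orth hs hx hy hxy hxx hxy0 hyy z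
  have iso : ∀ a b a' b' : ℂ, B (a • x + b • y) (a' • x + b' • y) = 0 := by
    intro a b a' b'
    simp [hxx, hxy0, hyy, hs y x]
  have h1 := R.propagate_orth hs hn hαα hββ hαβ hu m1 hu0 n1 huu (iso _ _ _ _) o1 hr
  have h2 := R.propagate_orth hs hn hαα hββ hαβ m1 m2 n1 n2 (iso _ _ _ _) (iso _ _ _ _)
    (iso _ _ _ _) h1
  exact R.propagate_orth hs hn hαα hββ hαβ m2 hz n2 hz0 (iso _ _ _ _) hzz
    (by rw [hs]; exact o2) h2

include hs hn hαα hββ hαβ in
/-- hyperbolic duals of an isotropic plane of `H²` -/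
lemma exists_duals [FiniteDimensional ℂ V] {x y : V} (hx : x ∈ hTwo B α β) (hy : y ∈ hTwo B α β)
    (hxy : LinearIndependent ℂ ![x, y]) (hxx : B x x = 0) (hxy0 : B x y = 0) (hyy : B y y = 0) :
    ∃ x' y', x' ∈ hTwo B α β ∧ y' ∈ hTwo B α β ∧ B x' x = 1 ∧ B x' y = 0 ∧ B y' x = 0 ∧
      B y' y = 1 ∧ B x' x' = 0 ∧ B y' y' = 0 ∧ B x' y' = 0 := by
  have hyx0 : B y x = 0 := by rw [hs, hxy0]
  -- vectors with prescribed pairings
  have hsep : ∀ p q : V, p ∉ Submodule.span ℂ {q} → p ∈ hTwo B α β → q ∈ hTwo B α β →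
      ∃ w ∈ hTwo B α β, B w p = 1 ∧ B w q = 0 := by
    intro p q hp hpm hqm
    obtain ⟨φ, hφp, hφq⟩ := Submodule.exists_le_ker_of_notMem hp
    have hφq0 : φ q = 0 := hφq (Submodule.mem_span_singleton_self q)
    set w0 := (B.toDual hn).symm φ with hw0
    have hw : ∀ v, B w0 v = φ v := fun v => by
      rw [hw0]; exact LinearMap.BilinForm.apply_toDual_symm_apply φ v
    refine ⟨proj B α β ((φ p)⁻¹ • w0), proj_mem hs hαα hββ hαβ _, ?_, ?_⟩
    · rw [proj_apply hs hpm, map_smul, LinearMap.smul_apply, hw, smul_eq_mul, inv_mul_cancel₀ hφp]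
    · rw [proj_apply hs hqm, map_smul, LinearMap.smul_apply, hw, hφq0, smul_zero]
  have hli := LinearIndependent.pair_iff.1 hxy
  have hxn : x ∉ Submodule.span ℂ {y} := by
    intro h
    obtain ⟨c, hc⟩ := Submodule.mem_span_singleton.1 h
    exact one_ne_zero (hli 1 (-c) (by rw [← hc]; simp)).1
  have hyn : y ∉ Submodule.span ℂ {x} := by
    intro h
    obtain ⟨c, hc⟩ := Submodule.mem_span_singleton.1 h
    exact one_ne_zero (hli (-c) 1 (by rw [← hc]; simp)).2
  obtain ⟨w1, m1, a1, b1⟩ := hsep x y hxn hx hy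
  obtain ⟨w2, m2, b2, a2⟩ := hsep y x hyn hy hx
  set x' : V := w1 - (B w1 w1 / 2) • x with hx'
  have hx'm : x' ∈ hTwo B α β := (hTwo B α β).sub_mem m1 ((hTwo B α β).smul_mem _ hx)
  have hx'x : B x' x = 1 := by simp [hx', a1, hxx]
  have hx'y : B x' y = 0 := by simp [hx', b1, hxy0]
  have hx'x' : B x' x' = 0 := by
    simp only [hx', map_sub, map_smul, LinearMap.sub_apply, LinearMap.smul_apply, smul_eq_mul, hxx,
      hs x w1, a1]
    ring
  set y0 : V := w2 - B w2 x' • x with hy0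
  have hy0m : y0 ∈ hTwo B α β := (hTwo B α β).sub_mem m2 ((hTwo B α β).smul_mem _ hx)
  have hxx' : B x x' = 1 := by rw [hs, hx'x]
  have hyx' : B y x' = 0 := by rw [hs, hx'y]
  have hy0x' : B y0 x' = 0 := by simp [hy0, hxx']
  have hy0y : B y0 y = 1 := by simp [hy0, b2, hxy0]
  have hy0x : B y0 x = 0 := by simp [hy0, a2, hxx]
  set y' : V := y0 - (B y0 y0 / 2) • y with hy'
  have hy'm : y' ∈ hTwo B α β := (hTwo B α β).sub_mem hy0m ((hTwo B α β).smul_mem _ hy)
  refine ⟨x', y', hx'm, hy'm, hx'x, hx'y, ?_, ?_, hx'x', ?_, ?_⟩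
  · simp [hy', hy0x, hyx0]
  · simp [hy', hy0y, hyy]
  · simp only [hy', map_sub, map_smul, LinearMap.sub_apply, LinearMap.smul_apply, smul_eq_mul, hyy,
      hs y y0, hy0y]
    ring
  · rw [hs]; simp [hy', hy0x', hyx']

end Geom

end Pool.Agent.H19.Nagai
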