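import Pool.Agent.H19.NagaiDefs

/-! Sanity check: the standard representation is a model with `n = 1` (a K3 surface). -/

namespace Pool.Agent.H19.Nagai

open Module LieModule

variable {V : Type*} [AddCommGroup V] [Module ℂ V] {B : LinearMap.BilinForm ℂ V}

lemma toEnd_wedge_std (hB : B.IsSymm) (u v w : V) :
    toEnd ℂ (skewAdjointLieSubalgebra B) V (wedge hB u v) w = B u w • v - B v w • u := by
  rw [← wedge_apply hB]; rfl

theorem k3_model (hB : B.IsSymm) (hn : B.Nondegenerate) {α β σ τ : V} (h1 : B α α = 0)
    (h2 : B β β = 0) (h3 : B α β = 1) (h4 : σ ∈ hTwo B α β) (h5 : τ ∈ hTwo B α β)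
    (h6 : B σ σ = 0) (h7 : B τ τ = 0) (h8 : B τ σ = 1) :
    IsLLVHodge hB V 1 α β σ τ α := by
  have hs : ∀ u v, B u v = B v u := fun u v => hB.eq u v
  have hβα : B β α = 1 := by rw [hs, h3]
  have hστ : B σ τ = 1 := by rw [hs, h8]
  have hασ := h4.1
  have hβσ := h4.2
  have hατ := h5.1
  have hβτ := h5.2
  have hσα : B σ α = 0 := by rw [hs, hασ]
  have hσβ : B σ β = 0 := by rw [hs, hβσ]
  have hτα : B τ α = 0 := by rw [hs, hατ]
  have hτβ : B τ β = 0 := by rw [hs, hβτ]
  have mem : ∀ (p q : ℕ) (w : V), B α w • β - B β w • α = (((p : ℂ) + q) / 2 - 1) • w →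
      B τ w • σ - B σ w • τ = (((p : ℂ) - q) / 2) • w → w ∈ hodgePiece hB V 1 α β σ τ p q := by
    intro p q w e1 e2
    refine ⟨Module.End.mem_eigenspace_iff.2 ?_, Module.End.mem_eigenspace_iff.2 ?_⟩
    · rw [toEnd_wedge_std, e1]; simp
    · rw [toEnd_wedge_std, e2]
  have le : ∀ p q, p ≤ 2 → q ≤ 2 → hodgePiece hB V 1 α β σ τ p q ≤
      ⨆ p ∈ Finset.range (2 * 1 + 1), ⨆ q ∈ Finset.range (2 * 1 + 1),
        hodgePiece hB V 1 α β σ τ p q := by
    intro p q hp hq
    refine le_trans ?_ (le_iSup₂ (f := fun p (_ : p ∈ Finset.range (2 * 1 + 1)) =>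
      ⨆ q ∈ Finset.range (2 * 1 + 1), hodgePiece hB V 1 α β σ τ p q) p
      (Finset.mem_range.2 (by omega)))
    exact le_iSup₂ (f := fun q (_ : q ∈ Finset.range (2 * 1 + 1)) =>
      hodgePiece hB V 1 α β σ τ p q) q (Finset.mem_range.2 (by omega))
  refine ⟨hn, h1, h2, h3, h4, h5, h6, h7, h8, ?_, ?_, ?_, ?_, ?_⟩
  · rw [eq_top_iff]
    intro w _
    have hα : α ∈ hodgePiece hB V 1 α β σ τ 0 0 := by
      apply mem
      · rw [h1, hβα]; simp
      · rw [hτα, hσα]; simp
    have hβ : β ∈ hodgePiece hB V 1 α β σ τ 2 2 := by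
      apply mem
      · rw [h3, h2]; norm_num
      · rw [hτβ, hσβ]; simp
    have hσ : σ ∈ hodgePiece hB V 1 α β σ τ 2 0 := by
      apply mem
      · rw [hασ, hβσ]; norm_num
      · rw [h8, h6]; norm_num
    have hτ : τ ∈ hodgePiece hB V 1 α β σ τ 0 2 := by
      apply mem
      · rw [hατ, hβτ]; norm_num
      · rw [h7, hστ]; norm_num
    have hw : w - B β w • α - B α w • β - B τ w • σ - B σ w • τ
        ∈ hodgePiece hB V 1 α β σ τ 1 1 := by
      apply mem
      · simp [h1, hβα, h3, h2, hασ, hβσ, hατ, hβτ]
      · simp [hτα, hσα, hτβ, hσβ, h7, h8, hστ, h6]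
    have hdec : w = B β w • α + B α w • β + B τ w • σ + B σ w • τ
        + (w - B β w • α - B α w • β - B τ w • σ - B σ w • τ) := by abel
    rw [hdec]
    refine Submodule.add_mem _ (Submodule.add_mem _ (Submodule.add_mem _ (Submodule.add_mem _
      ?_ ?_) ?_) ?_) ?_
    · exact Submodule.smul_mem _ _ (le 0 0 (by omega) (by omega) hα)
    · exact Submodule.smul_mem _ _ (le 2 2 (by omega) (by omega) hβ)
    · exact Submodule.smul_mem _ _ (le 2 0 (by omega) (by omega) hσ)
    · exact Submodule.smul_mem _ _ (le 0 2 (by omega) (by omega) hτ)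
    · exact le 1 1 (by omega) (by omega) hw
  · intro h; rw [h, map_zero] at hβα; exact zero_ne_one hβα
  · apply mem
    · rw [h1, hβα]; simp
    · rw [hτα, hσα]; simp
  · intro u hu v hv
    change toEnd ℂ (skewAdjointLieSubalgebra B) V (wedge hB u v) α = 0
    rw [toEnd_wedge_std, hs u α, hs v α, hu.1, hv.1]; simp
  · intro q hq w hw
    have e1 := Module.End.mem_eigenspace_iff.1 hw.1
    have e2 := Module.End.mem_eigenspace_iff.1 hw.2
    rw [toEnd_wedge_std] at e1 e2
    push_cast at e1 e2
    interval_cases q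
    · -- q = 0
      have h9 : w = B β w • α := by
        have a1 := congrArg (B α) e1
        simp only [map_sub, map_smul, smul_eq_mul, h1, h3] at a1
        have a2 : B α w = 0 := by
          have : (2 : ℂ) * B α w = 0 := by linear_combination a1
          simpa using this
        rw [a2] at e1
        have : -w = -(B β w • α) := by
          rw [zero_smul, zero_sub] at e1
          rw [e1]; norm_num
        exact neg_injective this
      rw [h9]
      exact Submodule.smul_mem _ _ (Submodule.subset_span ⟨0, rfl, by simp⟩)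
    · -- q = 1 : zero
      have : w = 0 := by
        have a1 := congrArg (B α) e1
        have a2 := congrArg (B β) e1
        simp only [map_sub, map_smul, smul_eq_mul, h1, h3, hβα, h2] at a1 a2
        have b1 : B α w = 0 := by
          have : (3 / 2 : ℂ) * B α w = 0 := by
            push_cast at a1; linear_combination a1
          simpa using this
        have b2 : B β w = 0 := by
          have : (1 / 2 : ℂ) * B β w = 0 := by
            push_cast at a2; linear_combination -a2
          simpa using this
        rw [b1, b2] at e1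
        have e3 : (((0 : ℂ) + (1 : ℕ)) / 2 - 1) • w = 0 := by rw [← e1]; simp
        exact (smul_eq_zero.1 e3).resolve_left (by norm_num)
      rw [this]; exact Submodule.zero_mem _
    · -- q = 2
      have h9 : w = B σ w • τ := by
        have a1 := congrArg (B τ) e2
        simp only [map_sub, map_smul, smul_eq_mul, h7, h8] at a1
        have a2 : B τ w = 0 := by
          have : (2 : ℂ) * B τ w = 0 := by push_cast at a1; linear_combination a1
          simpa using this
        rw [a2] at e2
        have : -w = -(B σ w • τ) := by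
          rw [zero_smul, zero_sub] at e2
          rw [e2]; norm_num
        exact neg_injective this
      rw [h9]
      refine Submodule.smul_mem _ _ (Submodule.subset_span ⟨1, rfl, ?_⟩)
      rw [pow_one, toEnd_wedge_std, hβα, hτα]; simp

end Pool.Agent.H19.Nagai
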