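import Pool.Agent.H19.NagaiVerb

/-! The bounds for `N` in the LLV model. -/

namespace Pool.Agent.H19.Nagai

open Module

variable {V W : Type*} [AddCommGroup V] [Module ℂ V] [AddCommGroup W] [Module ℂ W]
variable {B : LinearMap.BilinForm ℂ V} {D : V → V → Module.End ℂ W}

/-- the piece of Hodge type `(p,q)` -/
noncomputable def hp (D : V → V → Module.End ℂ W) (n : ℕ) (α β σ τ : V) (p q : ℕ) : Submodule ℂ W :=
  (D α β).eigenspace (((p : ℂ) + q) / 2 - n) ⊓ (D τ σ).eigenspace (((p : ℂ) - q) / 2)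

/-- the hypotheses of the model, in terms of the operators `D u v` -/
structure Model (B : LinearMap.BilinForm ℂ V) (D : V → V → Module.End ℂ W) (n : ℕ)
    (α β σ τ : V) (one : W) : Prop where
  rep : Rep B D
  nondeg : B.Nondegenerate
  αα : B α α = 0
  ββ : B β β = 0
  αβ : B α β = 1
  σmem : σ ∈ hTwo B α β
  τmem : τ ∈ hTwo B α β
  σσ : B σ σ = 0
  ττ : B τ τ = 0
  τσ : B τ σ = 1
  hodge : ⨆ p ∈ Finset.range (2 * n + 1), ⨆ q ∈ Finset.range (2 * n + 1),
    hp D n α β σ τ p q = ⊤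
  one_ne : one ≠ 0
  one_mem : one ∈ hp D n α β σ τ 0 0
  inv : ∀ u ∈ hTwo B α β, ∀ v ∈ hTwo B α β, D u v one = 0
  sheaf : ∀ q ≤ 2 * n, hp D n α β σ τ 0 q
    ≤ Submodule.span ℂ {a | ∃ k, 2 * k = q ∧ a = (D β τ ^ k) one}

lemma eigvec_eq_zero {T : Module.End ℂ W} {μ : ℂ} {v : W}
    (htop : (⊤ : Submodule ℂ W) ≤ ⨆ ν : ℂ, ⨆ _ : ν ≠ μ, T.eigenspace ν) (hv : T v = μ • v) :
    v = 0 :=
  (Submodule.disjoint_def.1 (Module.End.eigenspaces_iSupIndep T μ)) v
    (Module.End.mem_eigenspace_iff.2 hv) (htop Submodule.mem_top)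

namespace Model

variable {n : ℕ} {α β σ τ : V} {one : W} (X : Model B D n α β σ τ one)
include X

lemma deg_one : D α β one = (-(n : ℂ)) • one := by
  have := Module.End.mem_eigenspace_iff.1 X.one_mem.1
  rw [this]; simp

lemma low : ∀ z ∈ hTwo B α β, D α z one = 0 := by
  intro z hz
  have hβα : B β α = 1 := by rw [X.rep.symm, X.αβ]
  have h1 : D α β (D α z one) = (-(n : ℂ) - 1) • D α z one := by
    rw [X.rep.comm_apply, X.deg_one, X.αα, hβα, hz.1, hz.2, map_smul]
    simp only [one_smul, zero_smul, sub_zero, zero_sub, X.rep.zero_right, add_zero,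
      X.rep.neg_left, LinearMap.neg_apply]
    module
  refine eigvec_eq_zero ?_ h1
  rw [← X.hodge]
  refine iSup₂_le fun p _ => iSup₂_le fun q _ => ?_
  refine inf_le_left.trans ?_
  refine le_iSup₂ (f := fun (ν : ℂ) (_ : ν ≠ -(n : ℂ) - 1) => (D α β).eigenspace ν) _ ?_
  intro h
  have h2 : ((p + q + 2 : ℕ) : ℂ) = 0 := by push_cast; linear_combination 2 * h
  have h3 : p + q + 2 = 0 := by exact_mod_cast h2
  omega

lemma stable (u v : V) : vsum B D α β one ≤ (vsum B D α β one).comap (D u v) :=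
  fun _ hs => vsum_stable X.rep X.αα X.ββ X.αβ X.deg_one X.inv X.low u v hs

lemma quot_rep : Rep B (quotD (vsum B D α β one) D X.stable) :=
  quotD_rep X.rep _ X.stable

lemma pow_τ_mem (k : ℕ) : (D β τ ^ k) one ∈ vsum B D α β one := by
  induction k with
  | zero => simpa using one_mem_vsum
  | succ k ih =>
    rw [pow_succ', Module.End.mul_apply]
    exact vsum_raise X.τmem ih

lemma sheaf_le (q : ℕ) (hq : q ≤ 2 * n) : hp D n α β σ τ 0 q ≤ vsum B D α β one := by
  refine (X.sheaf q hq).trans (Submodule.span_le.2 ?_)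
  rintro _ ⟨k, _, rfl⟩
  exact X.pow_τ_mem k

variable {c : ℕ} (hver : ∀ p, 1 ≤ p → p < c → ∀ q ≤ 2 * n, hp D n α β σ τ p q
  ≤ vsum B D α β one)

include hver in
lemma quot_eig {μ : ℂ} {v : W ⧸ vsum B D α β one} (hv0 : v ≠ 0)
    (hv : (quotD (vsum B D α β one) D X.stable α β + quotD (vsum B D α β one) D X.stable τ σ) v
      = μ • v) : ∃ p : ℕ, c ≤ p ∧ μ = (p : ℂ) - n := by
  by_contra! hcon
  apply hv0
  refine eigvec_eq_zero ?_ hv
  set T := quotD (vsum B D α β one) D X.stable α β + quotD (vsum B D α β one) D X.stable τ σ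
    with hT
  have h1 : (⊤ : Submodule ℂ W) ≤ (⨆ ν : ℂ, ⨆ _ : ν ≠ μ, T.eigenspace ν).comap
      (vsum B D α β one).mkQ := by
    rw [← X.hodge]
    refine iSup₂_le fun p hp1 => iSup₂_le fun q hq1 => ?_
    have hq2 : q ≤ 2 * n := by have := Finset.mem_range.1 hq1; omega
    rcases lt_or_ge p c with hpc | hpc
    · have hle : hp D n α β σ τ p q ≤ vsum B D α β one := by
        rcases Nat.eq_zero_or_pos p with h0 | h0
        · subst h0; exact X.sheaf_le q hq2
        · exact hver p h0 hpc q hq2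
      intro a ha
      rw [Submodule.mem_comap, Submodule.mkQ_apply, (Submodule.Quotient.mk_eq_zero _).2 (hle ha)]
      exact Submodule.zero_mem _
    · intro a ha
      rw [Submodule.mem_comap]
      have hle := le_iSup₂ (f := fun (ν : ℂ) (_ : ν ≠ μ) => T.eigenspace ν) ((p : ℂ) - n)
        (fun h => hcon p hpc h.symm)
      apply hle
      rw [Module.End.mem_eigenspace_iff, hT]
      have e1 := Module.End.mem_eigenspace_iff.1 ha.1
      have e2 := Module.End.mem_eigenspace_iff.1 ha.2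
      simp only [quotD, LinearMap.add_apply, Submodule.mkQ_apply, Submodule.mapQ_apply]
      rw [e1, e2, Submodule.Quotient.mk_smul, Submodule.Quotient.mk_smul, ← add_smul]
      congr 1; ring
  intro w _
  obtain ⟨a, rfl⟩ := Submodule.mkQ_surjective _ w
  exact h1 (Submodule.mem_top (x := a))

include hver in
lemma quot_nilp [FiniteDimensional ℂ W] :
    (quotD (vsum B D α β one) D X.stable β σ) ^ (n + 1 - c) = 0 := by
  by_contra hne
  have hσα : B α σ = 0 := X.σmem.1
  have t := X.quot_rep.triple (u := β) (u' := α) (v := σ) (v' := τ) X.αβ X.τσ X.ββ X.αα X.σσ X.ττ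
    X.σmem.2 X.τmem.2 X.σmem.1 X.τmem.1
  obtain ⟨u, hu⟩ : ∃ u, ((quotD (vsum B D α β one) D X.stable β σ) ^ (n + 1 - c)) u ≠ 0 := by
    by_contra! h
    exact hne (LinearMap.ext h)
  obtain ⟨k, hk, v, hv0, hv⟩ := t.exists_eig_ge hu
  have h1 := t.f_pow_ne hv0 hv
  have h2 := t.h_f_pow hv k
  obtain ⟨p, hp, hpe⟩ := X.quot_eig hver h1 h2
  have h3 : ((n : ℕ) : ℂ) = ((p + k : ℕ) : ℂ) := by push_cast; linear_combination hpe
  have h4 : n = p + k := by exact_mod_cast h3
  omega

lemma comm_deg {u v : V} (hu : u ∈ hTwo B α β) (hv : v ∈ hTwo B α β) (s : W) :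
    D u v (D α β s) = D α β (D u v s) := by
  have h1 : B u α = 0 := by rw [X.rep.symm, hu.1]
  have h2 : B v α = 0 := by rw [X.rep.symm, hv.1]
  have h3 : B u β = 0 := by rw [X.rep.symm, hu.2]
  have h4 : B v β = 0 := by rw [X.rep.symm, hv.2]
  rw [X.rep.comm_apply, h1, h2, h3, h4]
  simp [X.rep.zero_left, X.rep.zero_right]

include hver in
/-- the upper bound -/
theorem upper [FiniteDimensional ℂ V] [FiniteDimensional ℂ W] {x y : V} (hx : x ∈ hTwo B α β)
    (hy : y ∈ hTwo B α β) (hxy : LinearIndependent ℂ ![x, y]) (hxx : B x x = 0)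
    (hxy0 : B x y = 0) (hyy : B y y = 0) {i m : ℕ} (hi : i ≤ n) {a : W}
    (ha : D α β a = ((i : ℂ) - n) • a) (hm : (D x y ^ m) a ≠ 0) :
    m ≤ max i (min (2 * i - 2 * c) (n - c)) := by
  have R := X.rep
  obtain ⟨x', y', hx', hy', hx'x, hx'y, hy'x, hy'y, hx'x', hy'y', hx'y'⟩ :=
    exists_duals R.symm X.nondeg X.αα X.ββ X.αβ hx hy hxy hxx hxy0 hyy
  have hxx' : B x x' = 1 := by rw [R.symm, hx'x]
  have hyy' : B y y' = 1 := by rw [R.symm, hy'y]
  have hxy' : B x y' = 0 := by rw [R.symm, hy'x]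
  have hyx' : B y x' = 0 := by rw [R.symm, hx'y]
  -- the sl2 triple of N on H
  have t := R.triple (u := x) (u' := x') (v := y) (v' := y') hx'x hy'y hxx hx'x' hyy hy'y' hxy0
    hxy' hx'y hx'y'
  -- restrict to the degree part P
  set P : Submodule ℂ W := (D α β).eigenspace ((i : ℂ) - n) with hP
  have hstab : ∀ {u v : V}, u ∈ hTwo B α β → v ∈ hTwo B α β → ∀ s ∈ P, D u v s ∈ P := by
    intro u v hu hv s hs
    rw [hP, Module.End.mem_eigenspace_iff] at hs ⊢
    rw [← X.comm_deg hu hv, hs, map_smul]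
  have hh : ∀ s ∈ P, (D x' x + D y' y) s ∈ P := fun s hs =>
    P.add_mem (hstab hx' hx s hs) (hstab hy' hy s hs)
  have he : ∀ s ∈ P, (D x y) s ∈ P := hstab hx hy
  have hf : ∀ s ∈ P, (-D x' y') s ∈ P := fun s hs => P.neg_mem (hstab hx' hy' s hs)
  have tP : Sl2 ((D x' x + D y' y).restrict hh) ((D x y).restrict he) ((-D x' y').restrict hf) := by
    refine ⟨?_, ?_, ?_⟩
    · ext s
      exact congrArg (fun g : Module.End ℂ W => g s) t.he
    · ext s
      exact congrArg (fun g : Module.End ℂ W => g s) t.hf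
    · ext s
      exact congrArg (fun g : Module.End ℂ W => g s) t.ef
  have haP : a ∈ P := Module.End.mem_eigenspace_iff.2 ha
  have hpow : ∀ (j : ℕ) (s : P), (((D x y).restrict he ^ j) s : W) = (D x y ^ j) (s : W) := by
    intro j
    induction j with
    | zero => intro s; simp
    | succ j ih => intro s; rw [pow_succ, Module.End.mul_apply, ih, pow_succ, Module.End.mul_apply]; rfl
  obtain ⟨k, hk, v, hv0, hv⟩ := tP.exists_eig_ge (m := m) (u := ⟨a, haP⟩) (by
    intro h0; apply hm; rw [← hpow m ⟨a, haP⟩, h0]; rfl)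
  refine hk.trans ?_
  -- joint eigenvector
  set Q : Submodule ℂ W := P ⊓ (D x' x + D y' y).eigenspace (k : ℂ) with hQ
  have hQstab : ∀ s ∈ Q, D x' x s ∈ Q := by
    intro s hs
    refine ⟨hstab hx' hx s hs.1, Module.End.mem_eigenspace_iff.2 ?_⟩
    have hs2 := Module.End.mem_eigenspace_iff.1 hs.2
    have hc : (D x' x + D y' y) (D x' x s) = D x' x ((D x' x + D y' y) s) := by
      rw [LinearMap.add_apply, LinearMap.add_apply, map_add]
      congr 1
      rw [R.comm_apply y' y x' x, hy'x, R.symm y' x', hx'y', hyx', R.symm y x, hxy0]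
      simp [R.zero_left, R.zero_right]
    rw [hc, hs2, map_smul]
  have hvQ : (v : W) ∈ Q := by
    refine ⟨v.2, Module.End.mem_eigenspace_iff.2 ?_⟩
    exact congrArg (fun s : P => (s : W)) hv
  have hQne : Nontrivial Q := by
    refine ⟨⟨⟨v, hvQ⟩, 0, ?_⟩⟩
    intro h
    apply hv0
    have := congrArg (fun s : Q => (s : W)) h
    exact Subtype.ext (by simpa using this)
  obtain ⟨μ, hμ⟩ := Module.End.exists_eigenvalue ((D x' x).restrict hQstab)
  obtain ⟨w, hw⟩ := hμ.exists_hasEigenvector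
  have hw1 : D x' x (w : W) = μ • (w : W) := by
    exact congrArg (fun s : Q => (s : W)) (Module.End.mem_eigenspace_iff.1 hw.1)
  have hw0 : (w : W) ≠ 0 := fun h => hw.2 (Subtype.ext h)
  have hwk : (D x' x + D y' y) (w : W) = (k : ℂ) • (w : W) :=
    Module.End.mem_eigenspace_iff.1 w.2.2
  have hwi : D α β (w : W) = ((i : ℂ) - n) • (w : W) := Module.End.mem_eigenspace_iff.1 w.2.1
  have hw2 : D y' y (w : W) = ((k : ℂ) - μ) • (w : W) := by
    rw [LinearMap.add_apply, hw1] at hwk
    rw [sub_smul, ← hwk]; abel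
  by_cases hS : (w : W) ∈ vsum B D α β one
  · -- the Verbitsky component
    have h1 := t.f_pow_ne hw0 hwk
    have h2 := t.h_f_pow hwk k
    have h3 := t.e_pow_ne h1 (k := k) (by rw [h2]; congr 1; ring)
    have hfS : ∀ j : ℕ, ((-D x' y') ^ j) (w : W) ∈ vsum B D α β one ⊓ P := by
      intro j
      induction j with
      | zero => simpa using ⟨hS, w.2.1⟩
      | succ j ih =>
        rw [pow_succ', Module.End.mul_apply]
        exact ⟨by
          rw [LinearMap.neg_apply]
          exact Submodule.neg_mem _ (X.stable x' y' ih.1), hf _ ih.2⟩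
    have h4 := hfS k
    have h5 := mem_vs_of_deg R X.ββ X.αβ X.deg_one h4.1
      (Module.End.mem_eigenspace_iff.1 h4.2)
    have h6 := vs_nilp R X.inv hx hy hxx hxy0 hyy i h5
    have h7 : k ≤ i := by
      by_contra hki
      apply h3
      rw [show k = (k - (i + 1)) + (i + 1) by omega, pow_add, Module.End.mul_apply]
      rw [show k - (i + 1) + (i + 1) = k by omega, h6, map_zero]
    exact h7.trans (le_max_left _ _)
  · -- the complement
    have RM := X.quot_rep
    set DM := quotD (vsum B D α β one) D X.stable with hDM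
    set r := n + 1 - c with hr
    have hnil := X.quot_nilp hver
    have hσ0 : σ ≠ 0 := by
      intro h
      have := X.τσ
      rw [h, map_zero] at this
      exact zero_ne_one this
    have hx'0 : x' ≠ 0 := by
      intro h; rw [h, map_zero, LinearMap.zero_apply] at hx'x; exact zero_ne_one hx'x
    have hy'0 : y' ≠ 0 := by
      intro h; rw [h, map_zero, LinearMap.zero_apply] at hy'y; exact zero_ne_one hy'y
    have hy0 : y ≠ 0 := by
      intro h; rw [h, map_zero] at hy'y; exact zero_ne_one hy'y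
    have nx' := RM.propagate_all R.symm X.nondeg X.αα X.ββ X.αβ X.σmem hσ0 X.σσ hx hy hxy hxx
      hxy0 hyy hnil hx' hx'0 hx'x'
    have ny' := RM.propagate_all R.symm X.nondeg X.αα X.ββ X.αβ X.σmem hσ0 X.σσ hx hy hxy hxx
      hxy0 hyy hnil hy' hy'0 hy'y'
    have ny := RM.propagate_all R.symm X.nondeg X.αα X.ββ X.αβ X.σmem hσ0 X.σσ hx hy hxy hxx
      hxy0 hyy hnil hy hy0 hyy
    have hβx : B β x = 0 := hx.2
    have hβy : B β y = 0 := hy.2
    have nxy : (DM x y) ^ r = 0 := by
      refine pow_lead_eq_zero (X := DM α x) (a0 := DM β y) ?_ ?_ r ny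
      · rw [RM.comm, X.αβ, R.symm x β, hβx, hy.1, hxy0]
        simp [RM.zero_right]
      · rw [RM.comm, hx.1, hxx, hy.1, hxy0]
        simp [RM.zero_right, RM.zero_left]
    have ta := RM.triple (u := β) (u' := α) (v := x') (v' := x) X.αβ hxx' X.ββ X.αα hx'x' hxx
      hx'.2 hβx hx'.1 hx.1
    have tb := RM.triple (u := β) (u' := α) (v := y') (v' := y) X.αβ hyy' X.ββ X.αα hy'y' hyy
      hy'.2 hβy hy'.1 hy.1
    have tc := RM.triple (u := x) (u' := x') (v := y) (v' := y') hx'x hy'y hxx hx'x' hyy hy'y'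
      hxy0 hxy' hx'y hx'y'
    set wb : W ⧸ vsum B D α β one := Submodule.Quotient.mk (w : W) with hwb
    have hwb0 : wb ≠ 0 := by
      rw [hwb, Ne, Submodule.Quotient.mk_eq_zero]; exact hS
    have q0 : DM α β wb = ((i : ℂ) - n) • wb := by
      rw [hDM, quotD, hwb, Submodule.mapQ_apply, hwi, Submodule.Quotient.mk_smul]
    have q1 : DM x' x wb = μ • wb := by
      rw [hDM, quotD, hwb, Submodule.mapQ_apply, hw1, Submodule.Quotient.mk_smul]
    have q2 : DM y' y wb = ((k : ℂ) - μ) • wb := by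
      rw [hDM, quotD, hwb, Submodule.mapQ_apply, hw2, Submodule.Quotient.mk_smul]
    obtain ⟨ka, ha1, _, ha2⟩ := ta.eig_bound nx' hwb0 (μ := ((i : ℂ) - n) - μ) (by
      rw [LinearMap.add_apply, RM.alt x' x, LinearMap.neg_apply, q0, q1]; module)
    obtain ⟨kb, hb1, _, hb2⟩ := tb.eig_bound ny' hwb0 (μ := ((i : ℂ) - n) - ((k : ℂ) - μ)) (by
      rw [LinearMap.add_apply, RM.alt y' y, LinearMap.neg_apply, q0, q2]; module)
    obtain ⟨kc, hc1, hc2, _⟩ := tc.eig_bound nxy hwb0 (μ := (k : ℂ)) (by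
      rw [LinearMap.add_apply, q1, q2]; module)
    have hkc : (k : ℤ) = kc := by exact_mod_cast hc1
    have hsum : ((ka + kb : ℤ) : ℂ) = ((2 * ((i : ℤ) - n) - k : ℤ) : ℂ) := by
      push_cast
      rw [← ha1, ← hb1]; ring
    have hsum2 : ka + kb = 2 * ((i : ℤ) - n) - k := by exact_mod_cast hsum
    refine le_trans ?_ (le_max_right _ _)
    omega

/-- `e_y ^ i · 1 ≠ 0` -/
lemma pow_one_ne [FiniteDimensional ℂ W] {y y' : V} (hy : y ∈ hTwo B α β) (hy' : y' ∈ hTwo B α β)
    (hyy : B y y = 0) (hy'y' : B y' y' = 0) (hy'y : B y' y = 1) {i : ℕ} (hi : i ≤ n) :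
    (D β y ^ i) one ≠ 0 := by
  have t := X.rep.triple (u := β) (u' := α) (v := y) (v' := y') X.αβ hy'y X.ββ X.αα hyy hy'y'
    hy.2 hy'.2 hy.1 hy'.1
  have h1 : (D α β + D y' y) one = (-(n : ℂ)) • one := by
    rw [LinearMap.add_apply, X.deg_one, X.inv y' hy' y hy, add_zero]
  have h2 := t.e_pow_ne X.one_ne h1
  intro h0
  apply h2
  rw [show n = (n - i) + i by omega, pow_add, Module.End.mul_apply, h0, map_zero]

/-- the lower bound -/
theorem lower [FiniteDimensional ℂ V] [FiniteDimensional ℂ W] {x y : V} (hx : x ∈ hTwo B α β)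
    (hy : y ∈ hTwo B α β) (hxy : LinearIndependent ℂ ![x, y]) (hxx : B x x = 0)
    (hxy0 : B x y = 0) (hyy : B y y = 0) {i : ℕ} (hi : i ≤ n) :
    ∃ a, D α β a = ((i : ℂ) - n) • a ∧ (D x y ^ i) a ≠ 0 := by
  have R := X.rep
  obtain ⟨x', y', hx', hy', hx'x, hx'y, hy'x, hy'y, hx'x', hy'y', hx'y'⟩ :=
    exists_duals R.symm X.nondeg X.αα X.ββ X.αβ hx hy hxy hxx hxy0 hyy
  have hxx' : B x x' = 1 := by rw [R.symm, hx'x]
  have hyx' : B y x' = 0 := by rw [R.symm, hx'y]
  have hyx0 : B y x = 0 := by rw [R.symm, hxy0]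
  have hxβ : B x β = 0 := by rw [R.symm, hx.2]
  have hyβ : B y β = 0 := by rw [R.symm, hy.2]
  have hx'β : B x' β = 0 := by rw [R.symm, hx'.2]
  have c1 : ∀ s, D x y (D β x' s) = D β x' (D x y s) + D β y s := by
    intro s
    rw [R.comm_apply, hxβ, hyβ, hxx', hyx']
    simp only [zero_smul, one_smul, sub_zero, R.zero_left, zero_add]
  have c2 : ∀ s, D x y (D β y s) = D β y (D x y s) := by
    intro s
    rw [R.comm_apply, hxβ, hyβ, hxy0, hyy]
    simp [R.zero_left, R.zero_right]
  have c3 : ∀ s, D β x' (D β y s) = D β y (D β x' s) := by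
    intro s
    rw [R.comm_apply, X.ββ, hx'β, hx'y, hy.2]
    simp [R.zero_left, R.zero_right]
  have c4 : ∀ l : ℕ, D x y ((D β y ^ l) one) = 0 := by
    intro l
    induction l with
    | zero => simpa using X.inv x hx y hy
    | succ l ih => rw [pow_succ', Module.End.mul_apply, c2, ih, map_zero]
  have c5 : ∀ (j : ℕ) s, D x y ((D β x' ^ (j + 1)) s) = (D β x' ^ (j + 1)) (D x y s)
      + ((j : ℂ) + 1) • (D β x' ^ j) (D β y s) := by
    intro j
    induction j with
    | zero => intro s; simp [c1]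
    | succ j ih =>
      intro s
      have e0 : ∀ t, (D β x' ^ (j + 1 + 1)) t = (D β x' ^ (j + 1)) (D β x' t) := by
        intro t; rw [pow_succ, Module.End.mul_apply]
      have e2 : (D β x' ^ (j + 1)) (D β y s) = (D β x' ^ j) (D β x' (D β y s)) := by
        rw [pow_succ, Module.End.mul_apply]
      have e4 : ∀ t, (D β x' ^ (j + 1)) t = (D β x' ^ j) (D β x' t) := by
        intro t; rw [pow_succ, Module.End.mul_apply]
      rw [e0, ih, c1, map_add, e0]
      simp only [e4, c3]
      push_cast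
      module
  have c6 : ∀ j l : ℕ, (D x y ^ j) ((D β x' ^ j) ((D β y ^ l) one))
      = (j.factorial : ℂ) • (D β y ^ (j + l)) one := by
    intro j
    induction j with
    | zero => intro l; simp
    | succ j ih =>
      intro l
      rw [pow_succ (D x y), Module.End.mul_apply, c5, c4, map_zero, zero_add, map_smul,
        ← Module.End.mul_apply (D β y), ← pow_succ', ih, smul_smul,
        show j + (l + 1) = j + 1 + l by omega, Nat.factorial_succ]
      push_cast
      rfl
  refine ⟨(D β x' ^ i) one, ?_, ?_⟩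
  · have h1 : (D β x' ^ i) one ∈ vs B D α β one i := by
      induction i with
      | zero => exact Submodule.mem_span_singleton_self _
      | succ i ih =>
        rw [pow_succ', Module.End.mul_apply]
        exact vs_succ_mem hx' (ih (by omega))
    exact vs_deg R X.ββ X.αβ X.deg_one i h1
  · have h2 := c6 i 0
    rw [pow_zero, Module.End.one_apply, add_zero] at h2
    rw [h2]
    refine smul_ne_zero (by exact_mod_cast i.factorial_ne_zero) ?_
    exact X.pow_one_ne hy hy' hyy hy'y' hy'y hi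

end Model

end Pool.Agent.H19.Nagai
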