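import Pool.Agent.H19.NagaiSl2

/-! Representations of `so(V,B)` written through the elements `u ∧ v`. -/

namespace Pool.Agent.H19.Nagai

open Module

variable {V W : Type*} [AddCommGroup V] [Module ℂ V] [AddCommGroup W] [Module ℂ W]

/-- a family of operators `D u v` satisfying the relations of the elements `u ∧ v` of `so(V,B)` -/
structure Rep (B : LinearMap.BilinForm ℂ V) (D : V → V → Module.End ℂ W) : Prop where
  add : ∀ u u' v, D (u + u') v = D u v + D u' v
  smul : ∀ (c : ℂ) u v, D (c • u) v = c • D u v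
  alt : ∀ u v, D v u = - D u v
  comm : ∀ a b u v, D a b * D u v - D u v * D a b
    = D (B a u • b - B b u • a) v + D u (B a v • b - B b v • a)
  symm : ∀ u v, B u v = B v u

variable {B : LinearMap.BilinForm ℂ V} {D : V → V → Module.End ℂ W}

namespace Rep

variable (R : Rep B D)
include R

lemma add_right (u v v' : V) : D u (v + v') = D u v + D u v' := by
  rw [R.alt (v + v') u, R.add, R.alt u v, R.alt u v']; abel

lemma smul_right (c : ℂ) (u v : V) : D u (c • v) = c • D u v := by
  rw [R.alt (c • v) u, R.smul, R.alt u v]; simp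

lemma zero_left (v : V) : D 0 v = 0 := by
  have := R.smul 0 0 v; simpa using this

lemma zero_right (v : V) : D v 0 = 0 := by
  have := R.smul_right 0 v 0; simpa using this

lemma neg_left (u v : V) : D (-u) v = - D u v := by
  have := R.smul (-1) u v; simpa using this

lemma neg_right (u v : V) : D u (-v) = - D u v := by
  have := R.smul_right (-1) u v; simpa using this

lemma sub_left (u u' v : V) : D (u - u') v = D u v - D u' v := by
  rw [sub_eq_add_neg, R.add, R.neg_left, ← sub_eq_add_neg]

lemma sub_right (u v v' : V) : D u (v - v') = D u v - D u v' := by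
  rw [sub_eq_add_neg, R.add_right, R.neg_right, ← sub_eq_add_neg]

lemma self (u : V) : D u u = 0 := by
  have h := R.alt u u
  have h2 : D u u + D u u = 0 := by nth_rewrite 1 [h]; simp
  rwa [← two_smul ℂ, smul_eq_zero_iff_right two_ne_zero] at h2

lemma comm_apply (a b u v : V) (s : W) : D a b (D u v s)
    = D u v (D a b s) + (D (B a u • b - B b u • a) v + D u (B a v • b - B b v • a)) s := by
  have := congrArg (fun g : Module.End ℂ W => g s) (R.comm a b u v)
  simp only [LinearMap.sub_apply, Module.End.mul_apply] at this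
  rw [← this]; abel

/-- the `sl₂`-triple attached to two hyperbolic pairs -/
lemma triple {u u' v v' : V} (huu' : B u' u = 1) (hvv' : B v' v = 1) (h1 : B u u = 0)
    (h2 : B u' u' = 0) (h3 : B v v = 0) (h4 : B v' v' = 0) (h5 : B u v = 0) (h6 : B u v' = 0)
    (h7 : B u' v = 0) (h8 : B u' v' = 0) :
    Sl2 (D u' u + D v' v) (D u v) (-D u' v') := by
  have huu2 : B u u' = 1 := by rw [R.symm, huu']
  have hvv2 : B v v' = 1 := by rw [R.symm, hvv']
  have h5' : B v u = 0 := by rw [R.symm, h5]
  have h6' : B v' u = 0 := by rw [R.symm, h6]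
  have h7' : B v u' = 0 := by rw [R.symm, h7]
  have h8' : B v' u' = 0 := by rw [R.symm, h8]
  refine ⟨?_, ?_, ?_⟩
  · have e1 := R.comm u' u u v
    have e2 := R.comm v' v u v
    simp only [huu', hvv', h1, h2, h3, h4, h5, h6, h7, h8, h5', h6', h7', h8', one_smul, zero_smul,
      sub_zero, R.zero_left, R.zero_right, add_zero, zero_add] at e1 e2
    rw [add_mul, mul_add, add_sub_add_comm, e1, e2, two_smul]
  · have e1 := R.comm u' u u' v'
    have e2 := R.comm v' v u' v'
    simp only [huu2, hvv2, h1, h2, h3, h4, h5, h6, h7, h8, h5', h6', h7', h8', one_smul, zero_smul,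
      sub_zero, zero_sub, R.zero_left, R.zero_right, add_zero, zero_add, R.neg_left,
      R.neg_right] at e1 e2
    rw [mul_neg, neg_mul, sub_neg_eq_add, neg_add_eq_sub, ← neg_sub, add_mul, mul_add,
      add_sub_add_comm, e1, e2, smul_neg, two_smul]
    abel
  · have e1 := R.comm u v u' v'
    simp only [huu2, hvv2, h1, h2, h3, h4, h5, h6, h7, h8, h5', h6', h7', h8', one_smul, zero_smul,
      sub_zero, zero_sub, R.zero_left, R.zero_right, add_zero, zero_add, R.neg_left,
      R.neg_right] at e1
    rw [mul_neg, neg_mul, sub_neg_eq_add, neg_add_eq_sub, ← neg_sub, e1, R.alt v' v]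
    abel

end Rep

section Poly

open Polynomial

variable {X a0 a1 a2 : Module.End ℂ W}

lemma deriv_pow (h0 : X * a0 - a0 * X = a1) (h1 : X * a1 - a1 * X = (2 : ℂ) • a2)
    (h2 : X * a2 - a2 * X = 0) (r : ℕ) :
    derivative ((C a0 + C a1 * Polynomial.X + C a2 * Polynomial.X ^ 2) ^ r)
      = C X * (C a0 + C a1 * Polynomial.X + C a2 * Polynomial.X ^ 2) ^ r
        - (C a0 + C a1 * Polynomial.X + C a2 * Polynomial.X ^ 2) ^ r * C X := by
  set P : (Module.End ℂ W)[X] := C a0 + C a1 * Polynomial.X + C a2 * Polynomial.X ^ 2 with hP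
  have hd : derivative P = C X * P - P * C X := by
    have e1 : derivative P = C a1 + C ((2 : ℂ) • a2) * Polynomial.X := by
      rw [hP]
      simp only [derivative_add, derivative_C, zero_add, derivative_mul, zero_mul, derivative_X,
        mul_one, derivative_X_pow]
      congr 1
      rw [two_smul, C_add]
      rw [show C (((2 : ℕ) : Module.End ℂ W)) = 1 + 1 by
        rw [← C_1, ← C_add]; norm_num]
      rw [show (2 - 1 : ℕ) = 1 from rfl, pow_one, ← mul_assoc, mul_add, mul_one]
    have e2 : C X * P - P * C X = C (X * a0 - a0 * X) + C (X * a1 - a1 * X) * Polynomial.X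
        + C (X * a2 - a2 * X) * Polynomial.X ^ 2 := by
      rw [hP]
      simp only [C_sub, C_mul, mul_add, add_mul, sub_mul, mul_assoc]
      rw [X_mul_C, X_pow_mul_C]
      abel
    rw [e1, e2, h0, h1, h2]; simp
  induction r with
  | zero => simp
  | succ r ih =>
    rw [pow_succ, derivative_mul, ih, hd, sub_mul, mul_sub]
    simp only [mul_assoc]
    abel

lemma poly_eq_zero (h0 : X * a0 - a0 * X = a1) (h1 : X * a1 - a1 * X = (2 : ℂ) • a2)
    (h2 : X * a2 - a2 * X = 0) (r : ℕ) (hr : a0 ^ r = 0) :
    (C a0 + C a1 * Polynomial.X + C a2 * Polynomial.X ^ 2) ^ r = 0 := by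
  set P : (Module.End ℂ W)[X] := C a0 + C a1 * Polynomial.X + C a2 * Polynomial.X ^ 2 with hP
  have hd := deriv_pow h0 h1 h2 r
  rw [← hP] at hd
  have hc : ∀ k, (P ^ r).coeff k = 0 := by
    intro k
    induction k with
    | zero =>
      have h3 : ∀ r : ℕ, (P ^ r).coeff 0 = (P.coeff 0) ^ r := by
        intro r
        induction r with
        | zero => simp
        | succ r ih => rw [pow_succ, mul_coeff_zero, ih, pow_succ]
      rw [h3, hP]
      simp [hr]
    | succ k ih =>
      have h3 := congrArg (fun q => coeff q k) hd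
      simp only [coeff_derivative, coeff_sub, coeff_C_mul, coeff_mul_C, ih, mul_zero, zero_mul,
        sub_zero] at h3
      have h4 : ((k : ℂ) + 1) • (P ^ r).coeff (k + 1) = 0 := by
        rw [← h3, add_smul, one_smul, mul_add, mul_one, Nat.cast_smul_eq_nsmul, nsmul_eq_mul,
          (Nat.cast_commute k _).eq]
      exact (smul_eq_zero.1 h4).resolve_left (Nat.cast_add_one_ne_zero k)
  ext1 k
  rw [hc k, coeff_zero]

lemma pow_sum_eq_zero (h0 : X * a0 - a0 * X = a1) (h1 : X * a1 - a1 * X = (2 : ℂ) • a2)
    (h2 : X * a2 - a2 * X = 0) (r : ℕ) (hr : a0 ^ r = 0) : (a0 + a1 + a2) ^ r = 0 := by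
  have h := poly_eq_zero h0 h1 h2 r hr
  let φ : (Module.End ℂ W)[X] →+* Module.End ℂ W :=
    eval₂RingHom' (RingHom.id _) 1 (fun a => Commute.one_right _)
  have hC : ∀ a, φ (C a) = a := fun a => by simp [φ, eval₂RingHom']
  have hX : φ Polynomial.X = 1 := by simp [φ, eval₂RingHom']
  have := congrArg φ h
  simpa only [map_pow, map_add, map_mul, map_zero, hC, hX, mul_one, one_pow] using this

lemma pow_lead_eq_zero (h0 : X * a0 - a0 * X = a1) (h1 : X * a1 - a1 * X = 0) (r : ℕ)
    (hr : a0 ^ r = 0) : a1 ^ r = 0 := by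
  have h := poly_eq_zero (a2 := 0) h0 (by rw [h1, smul_zero]) (by simp) r hr
  have hdeg : (C a0 + C a1 * Polynomial.X + C (0 : Module.End ℂ W) * Polynomial.X ^ 2).natDegree
      ≤ 1 := by
    rw [C_0, zero_mul, add_zero]
    refine natDegree_add_le_of_degree_le ?_ ?_
    · simp
    · exact (natDegree_C_mul_le _ _).trans natDegree_X_le
  have h2 := coeff_pow_of_natDegree_le (m := r) hdeg
  rw [h] at h2
  simpa using h2.symm

end Poly

end Pool.Agent.H19.Nagai
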