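import Mathlib

/-! Elementary `sl₂` lemmas for endomorphisms of a finite-dimensional complex vector space. -/

namespace Pool.Agent.H19.Nagai

open Module

variable {M : Type*} [AddCommGroup M] [Module ℂ M]

/-- `(h, e, f)` satisfy the `sl₂` relations (possibly all zero). -/
structure Sl2 (h e f : Module.End ℂ M) : Prop where
  he : h * e - e * h = (2 : ℂ) • e
  hf : h * f - f * h = -((2 : ℂ) • f)
  ef : e * f - f * e = h

variable {h e f : Module.End ℂ M}

lemma Sl2.symm (t : Sl2 h e f) : Sl2 (-h) f e where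
  he := by
    have := t.hf
    rw [neg_mul, mul_neg, sub_neg_eq_add, neg_add_eq_sub, ← neg_sub, this, neg_neg]
  hf := by
    have := t.he
    rw [neg_mul, mul_neg, sub_neg_eq_add, neg_add_eq_sub, ← neg_sub, this]
  ef := by
    rw [← neg_sub, t.ef]

lemma Sl2.he_apply (t : Sl2 h e f) (v : M) : h (e v) = e (h v) + (2 : ℂ) • e v := by
  have := congrArg (fun g : Module.End ℂ M => g v) t.he
  simp only [LinearMap.sub_apply, Module.End.mul_apply, LinearMap.smul_apply] at this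
  rw [← this]; abel

lemma Sl2.ef_apply (t : Sl2 h e f) (v : M) : e (f v) = f (e v) + h v := by
  have := congrArg (fun g : Module.End ℂ M => g v) t.ef
  simp only [LinearMap.sub_apply, Module.End.mul_apply] at this
  rw [← this]; abel

lemma Sl2.h_e_pow (t : Sl2 h e f) {v : M} {μ : ℂ} (hv : h v = μ • v) (j : ℕ) :
    h ((e ^ j) v) = (μ + 2 * j) • (e ^ j) v := by
  induction j with
  | zero => simpa using hv
  | succ j ih =>
    rw [pow_succ', Module.End.mul_apply, t.he_apply, ih, map_smul, ← add_smul]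
    congr 1; push_cast; ring

lemma Sl2.h_f_pow (t : Sl2 h e f) {v : M} {μ : ℂ} (hv : h v = μ • v) (j : ℕ) :
    h ((f ^ j) v) = (μ - 2 * j) • (f ^ j) v := by
  have h1 := t.symm.h_e_pow (v := v) (μ := -μ) (by simp [hv]) j
  rw [LinearMap.neg_apply, neg_eq_iff_eq_neg, ← neg_smul] at h1
  rw [h1]; congr 1; ring

lemma Sl2.e_f_pow (t : Sl2 h e f) {v : M} {μ : ℂ} (hv : h v = μ • v) (j : ℕ) :
    e ((f ^ (j + 1)) v) = (f ^ (j + 1)) (e v) + (((j : ℂ) + 1) * (μ - j)) • (f ^ j) v := by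
  induction j with
  | zero => simp [t.ef_apply, hv]
  | succ j ih =>
    rw [pow_succ' f (j + 1), Module.End.mul_apply, t.ef_apply, ih, t.h_f_pow hv, map_add,
      Module.End.mul_apply, map_smul, add_assoc, ← Module.End.mul_apply f (f ^ j), ← pow_succ',
      ← add_smul]
    congr 2; push_cast; ring

lemma Sl2.exists_f_pow_eq_zero [FiniteDimensional ℂ M] (t : Sl2 h e f) {v : M} {μ : ℂ}
    (hv : h v = μ • v) : ∃ j : ℕ, (f ^ j) v = 0 := by
  by_contra! hne
  have hli := Module.End.eigenvectors_linearIndependent' h (fun j : ℕ => μ - 2 * (j : ℂ))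
    (fun a b hab => by simpa using hab) (fun j => (f ^ j) v)
    (fun j => ⟨Module.End.mem_eigenspace_iff.2 (t.h_f_pow hv j), hne j⟩)
  have := hli.finite
  exact not_finite ℕ

lemma Sl2.exists_e_pow_eq_zero [FiniteDimensional ℂ M] (t : Sl2 h e f) {v : M} {μ : ℂ}
    (hv : h v = μ • v) : ∃ j : ℕ, (e ^ j) v = 0 :=
  t.symm.exists_f_pow_eq_zero (μ := -μ) (by simp [hv])

/-- a primitive vector has natural weight -/
lemma Sl2.prim_nat [FiniteDimensional ℂ M] (t : Sl2 h e f) {v : M} {μ : ℂ} (hv0 : v ≠ 0)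
    (hv : h v = μ • v) (he : e v = 0) : ∃ k : ℕ, μ = k := by
  obtain ⟨j, hj1, hj2⟩ := Nat.exists_not_and_succ_of_not_zero_of_exists
    (p := fun j => (f ^ j) v = 0) (by simpa using hv0) (t.exists_f_pow_eq_zero hv)
  refine ⟨j, ?_⟩
  have h1 := t.e_f_pow hv j
  rw [hj2, he, map_zero, map_zero, zero_add, eq_comm, smul_eq_zero] at h1
  rcases h1 with h1 | h1
  · rcases mul_eq_zero.1 h1 with h2 | h2
    · exact absurd h2 (Nat.cast_add_one_ne_zero j)
    · exact sub_eq_zero.1 h2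
  · exact absurd h1 hj1

/-- eigenvalues of `h` are integers -/
lemma Sl2.eig_int [FiniteDimensional ℂ M] (t : Sl2 h e f) {v : M} {μ : ℂ} (hv0 : v ≠ 0)
    (hv : h v = μ • v) : ∃ k : ℤ, μ = k := by
  obtain ⟨j, hj1, hj2⟩ := Nat.exists_not_and_succ_of_not_zero_of_exists
    (p := fun j => (e ^ j) v = 0) (by simpa using hv0) (t.exists_e_pow_eq_zero hv)
  obtain ⟨k, hk⟩ := t.prim_nat hj1 (t.h_e_pow hv j) (by
    rw [← Module.End.mul_apply, ← pow_succ']; exact hj2)
  exact ⟨(k : ℤ) - 2 * j, by push_cast; rw [← hk]; ring⟩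

lemma Sl2.aux (t : Sl2 h e f) : ∀ (m k : ℕ) (v : M), (e ^ m) v = 0 → h v = (k : ℂ) • v →
    (f ^ k) v = 0 → v = 0 := by
  intro m
  induction m with
  | zero => intro k v hv _ _; simpa using hv
  | succ m ih =>
    intro k v hm hv hf
    have hf1 : (f ^ (k + 1)) v = 0 := by rw [pow_succ', Module.End.mul_apply, hf, map_zero]
    have hf2 : (f ^ (k + 2)) v = 0 := by rw [pow_succ', Module.End.mul_apply, hf1, map_zero]
    have hev : e v = 0 := by
      refine ih (k + 2) (e v) ?_ ?_ ?_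
      · rw [← Module.End.mul_apply, ← pow_succ]; exact hm
      · have := t.h_e_pow hv 1
        simp only [pow_one] at this
        rw [this]; congr 1; push_cast; ring
      · have := t.e_f_pow hv (k + 1)
        rw [hf2, hf1, map_zero, smul_zero, add_zero] at this
        exact this.symm
    have key : ∀ j : ℕ, j ≤ k → (f ^ (k - j)) v = 0 := by
      intro j
      induction j with
      | zero => intro _; simpa using hf
      | succ j ihj =>
        intro hj
        have h1 := ihj (by omega)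
        obtain ⟨l, hl⟩ : ∃ l, k - j = l + 1 := ⟨k - j - 1, by omega⟩
        rw [hl] at h1
        have h2 := t.e_f_pow hv l
        rw [h1, hev, map_zero, map_zero, zero_add, eq_comm, smul_eq_zero] at h2
        have hl' : k - (j + 1) = l := by omega
        rw [hl']
        refine h2.resolve_left ?_
        refine mul_ne_zero (Nat.cast_add_one_ne_zero l) ?_
        rw [sub_ne_zero]
        exact_mod_cast (show k ≠ l by omega)
    simpa using key k le_rfl

/-- `f^k` is injective on the `k`-eigenspace -/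
lemma Sl2.f_pow_ne [FiniteDimensional ℂ M] (t : Sl2 h e f) {v : M} {k : ℕ} (hv0 : v ≠ 0)
    (hv : h v = (k : ℂ) • v) : (f ^ k) v ≠ 0 := by
  obtain ⟨m, hm⟩ := t.exists_e_pow_eq_zero hv
  exact fun hf => hv0 (t.aux m k v hm hv hf)

lemma Sl2.e_pow_ne [FiniteDimensional ℂ M] (t : Sl2 h e f) {v : M} {k : ℕ} (hv0 : v ≠ 0)
    (hv : h v = (-(k : ℂ)) • v) : (e ^ k) v ≠ 0 :=
  t.symm.f_pow_ne hv0 (by simp [hv])

/-- if `e^r = 0` then all eigenvalues of `h` are integers of absolute value at most `r - 1` -/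
lemma Sl2.eig_bound [FiniteDimensional ℂ M] (t : Sl2 h e f) {r : ℕ} (hr : e ^ r = 0)
    {v : M} {μ : ℂ} (hv0 : v ≠ 0) (hv : h v = μ • v) :
    ∃ k : ℤ, μ = k ∧ k + 1 ≤ r ∧ -(r : ℤ) + 1 ≤ k := by
  obtain ⟨k, hk⟩ := t.eig_int hv0 hv
  have hlt : ∀ (m : ℕ) (w : M), (e ^ m) w ≠ 0 → m < r := by
    intro m w hw
    by_contra hmr
    apply hw
    rw [show m = (m - r) + r by omega, pow_add, hr, mul_zero, LinearMap.zero_apply]
  refine ⟨k, hk, ?_⟩
  rcases Int.le_total 0 k with h0 | h0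
  · obtain ⟨m, rfl⟩ := Int.eq_ofNat_of_zero_le h0
    have hv' : h v = (m : ℂ) • v := by rw [hv, hk]; simp
    have h1 := t.f_pow_ne hv0 hv'
    have h2 := t.h_f_pow hv' m
    have h3 := t.e_pow_ne h1 (k := m) (by rw [h2]; congr 1; ring)
    have h4 := hlt _ _ h3
    constructor <;> omega
  · obtain ⟨m, hm⟩ := Int.eq_ofNat_of_zero_le (a := -k) (by omega)
    have hkm : k = -(m : ℤ) := by omega
    have hv' : h v = (-(m : ℂ)) • v := by rw [hv, hk, hkm]; push_cast; rfl
    have h4 := hlt _ _ (t.e_pow_ne hv0 hv')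
    constructor <;> omega

lemma exists_eigvec_of_pow {g : Module.End ℂ M} {k : ℕ} {u : M} (hu : u ≠ 0) {μ : ℂ}
    (hk : ((g - μ • (1 : Module.End ℂ M)) ^ k) u = 0) : ∃ w, w ≠ 0 ∧ g w = μ • w := by
  obtain ⟨j, hj1, hj2⟩ := Nat.exists_not_and_succ_of_not_zero_of_exists
    (p := fun j => ((g - μ • (1 : Module.End ℂ M)) ^ j) u = 0) (by simpa using hu) ⟨k, hk⟩
  refine ⟨_, hj1, ?_⟩
  rw [pow_succ', Module.End.mul_apply, LinearMap.sub_apply, LinearMap.smul_apply,
    Module.End.one_apply, sub_eq_zero] at hj2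
  exact hj2

/-- if `e^m ≠ 0` then `h` has an eigenvalue `k ≥ m` -/
lemma Sl2.exists_eig_ge [FiniteDimensional ℂ M] (t : Sl2 h e f) {m : ℕ} {u : M}
    (hu : (e ^ m) u ≠ 0) : ∃ k : ℕ, m ≤ k ∧ ∃ v, v ≠ 0 ∧ h v = (k : ℂ) • v := by
  obtain ⟨μ, w, hw, hwm⟩ : ∃ μ : ℂ, ∃ w, (∃ k : ℕ, ((h - μ • (1 : Module.End ℂ M)) ^ k) w = 0) ∧
      (e ^ m) w ≠ 0 := by
    by_contra! hcon
    have h1 : (⨆ μ : ℂ, h.maxGenEigenspace μ) ≤ LinearMap.ker (e ^ m) := by
      refine iSup_le fun μ w hw => ?_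
      exact hcon μ w (Module.End.mem_maxGenEigenspace h μ w |>.1 hw)
    rw [Module.End.iSup_maxGenEigenspace_eq_top] at h1
    exact hu (h1 (Submodule.mem_top (x := u)))
  obtain ⟨k, hk⟩ := hw
  have hw0 : w ≠ 0 := by rintro rfl; exact hwm (map_zero _)
  obtain ⟨v1, hv10, hv1⟩ := exists_eigvec_of_pow hw0 hk
  have hshift : (h - (μ + 2 * m) • (1 : Module.End ℂ M)) * e ^ m
      = e ^ m * (h - μ • (1 : Module.End ℂ M)) := by
    have h1 : ∀ m : ℕ, h * e ^ m = e ^ m * h + (2 * (m : ℂ)) • e ^ m := by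
      intro m
      induction m with
      | zero => simp
      | succ j ih =>
        have he : h * e = e * h + (2 : ℂ) • e := by rw [← t.he]; abel
        rw [pow_succ, ← mul_assoc, ih, add_mul, mul_assoc, he, mul_add, smul_mul_assoc,
          mul_smul_comm, ← mul_assoc, add_assoc, ← add_smul]
        congr 2; push_cast; ring
    rw [sub_mul, mul_sub, h1 m, smul_mul_assoc, one_mul, mul_smul_comm, mul_one, add_smul]
    abel
  have hshiftk : ∀ k : ℕ, (h - (μ + 2 * m) • (1 : Module.End ℂ M)) ^ k * e ^ m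
      = e ^ m * (h - μ • (1 : Module.End ℂ M)) ^ k := by
    intro k
    induction k with
    | zero => simp
    | succ k ih => rw [pow_succ, mul_assoc, hshift, ← mul_assoc, ih, mul_assoc, ← pow_succ]
  obtain ⟨v2, hv20, hv2⟩ := exists_eigvec_of_pow (g := h) (k := k) (μ := μ + 2 * m) hwm (by
    rw [← Module.End.mul_apply, hshiftk, Module.End.mul_apply, hk, map_zero])
  obtain ⟨a, ha⟩ := t.eig_int hv10 hv1
  rcases le_or_gt (m : ℤ) (a + 2 * m) with hle | hlt
  · obtain ⟨b, hb⟩ := Int.eq_ofNat_of_zero_le (a := a + 2 * m) (by omega)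
    refine ⟨b, by omega, v2, hv20, ?_⟩
    rw [hv2, ha]; congr 1
    have : ((a + 2 * m : ℤ) : ℂ) = ((b : ℤ) : ℂ) := by rw [hb]
    push_cast at this ⊢; exact this
  · obtain ⟨b, hb⟩ := Int.eq_ofNat_of_zero_le (a := -a) (by omega)
    have hv1' : h v1 = (-(b : ℂ)) • v1 := by
      rw [hv1, ha]; congr 1
      have : a = -(b : ℤ) := by omega
      rw [this]; push_cast; rfl
    refine ⟨b, by omega, _, t.e_pow_ne hv10 hv1', ?_⟩
    rw [t.h_e_pow hv1' b]; congr 1; ring

end Pool.Agent.H19.Nagai
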