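import Pool.Agent.H19.NagaiGeom

/-! The Verbitsky component: the span of the products `e_{z₁} ⋯ e_{z_k} 1`. -/

namespace Pool.Agent.H19.Nagai

open Module

variable {V W : Type*} [AddCommGroup V] [Module ℂ V] [AddCommGroup W] [Module ℂ W]
variable {B : LinearMap.BilinForm ℂ V} {D : V → V → Module.End ℂ W}

/-- the span of the products of `k` classes of `H²` -/
def vs (B : LinearMap.BilinForm ℂ V) (D : V → V → Module.End ℂ W) (α β : V) (one : W) :
    ℕ → Submodule ℂ W
  | 0 => Submodule.span ℂ {one}
  | k + 1 => ⨆ z : hTwo B α β, (vs B D α β one k).map (D β z)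

lemma vs_succ_mem {α β : V} {one : W} {k : ℕ} {z : V} (hz : z ∈ hTwo B α β) {s : W}
    (hs : s ∈ vs B D α β one k) : D β z s ∈ vs B D α β one (k + 1) := by
  have : (vs B D α β one k).map (D β z) ≤ vs B D α β one (k + 1) :=
    le_iSup (fun z : hTwo B α β => (vs B D α β one k).map (D β z)) ⟨z, hz⟩
  exact this (Submodule.mem_map_of_mem hs)

lemma vs_succ_le {α β : V} {one : W} {k : ℕ} {P : Submodule ℂ W}
    (h : ∀ z ∈ hTwo B α β, ∀ s ∈ vs B D α β one k, D β z s ∈ P) :
    vs B D α β one (k + 1) ≤ P := by
  refine iSup_le fun z => ?_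
  rintro _ ⟨s, hs, rfl⟩
  exact h z z.2 s hs

/-- the sum of all `vs k` -/
def vsum (B : LinearMap.BilinForm ℂ V) (D : V → V → Module.End ℂ W) (α β : V) (one : W) :
    Submodule ℂ W := ⨆ k, vs B D α β one k

lemma vs_le_vsum {α β : V} {one : W} (k : ℕ) : vs B D α β one k ≤ vsum B D α β one :=
  le_iSup (fun k => vs B D α β one k) k

lemma vsum_le {α β : V} {one : W} {P : Submodule ℂ W} (h : ∀ k, vs B D α β one k ≤ P) :
    vsum B D α β one ≤ P := iSup_le h

lemma one_mem_vsum {α β : V} {one : W} : one ∈ vsum B D α β one :=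
  vs_le_vsum 0 (Submodule.mem_span_singleton_self one)

lemma vsum_raise {α β : V} {one : W} {z : V} (hz : z ∈ hTwo B α β) {s : W}
    (hs : s ∈ vsum B D α β one) : D β z s ∈ vsum B D α β one := by
  have : vsum B D α β one ≤ (vsum B D α β one).comap (D β z) :=
    vsum_le fun k s hs => vs_le_vsum (k + 1) (vs_succ_mem hz hs)
  exact this hs

/-- the component is contained in every subspace containing `one` and stable by the `e_z` -/
lemma vsum_le_of_closed {α β : V} {one : W} {P : Submodule ℂ W} (h1 : one ∈ P)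
    (h2 : ∀ z ∈ hTwo B α β, ∀ s ∈ P, D β z s ∈ P) : vsum B D α β one ≤ P := by
  refine vsum_le fun k => ?_
  induction k with
  | zero => rw [vs]; exact (Submodule.span_singleton_le_iff_mem _ _).2 h1
  | succ k ih => exact vs_succ_le fun z hz s hs => h2 z hz s (ih hs)

section

variable (R : Rep B D) {α β : V} (hαα : B α α = 0) (hββ : B β β = 0) (hαβ : B α β = 1)
  {one : W} {n : ℕ} (hdeg : D α β one = (-(n : ℂ)) • one)
  (hinv : ∀ u ∈ hTwo B α β, ∀ v ∈ hTwo B α β, D u v one = 0)

include R hββ hαβ hdeg in
lemma vs_deg (k : ℕ) {s : W} (hs : s ∈ vs B D α β one k) :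
    D α β s = ((k : ℂ) - n) • s := by
  suffices h : vs B D α β one k ≤ (D α β).eigenspace ((k : ℂ) - n) from
    Module.End.mem_eigenspace_iff.1 (h hs)
  clear hs
  induction k with
  | zero =>
    rw [vs, Submodule.span_singleton_le_iff_mem, Module.End.mem_eigenspace_iff, hdeg]
    simp
  | succ k ih =>
    refine vs_succ_le fun z hz s hs => ?_
    rw [Module.End.mem_eigenspace_iff, R.comm_apply, Module.End.mem_eigenspace_iff.1 (ih hs),
      hαβ, hββ, hz.1, hz.2, map_smul]
    simp only [one_smul, zero_smul, sub_zero, R.zero_right, add_zero]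
    have : ∀ w : W, ((k : ℂ) - n) • w + w = (((k + 1 : ℕ) : ℂ) - n) • w := by
      intro w; push_cast; module
    exact this _

include R hinv in
lemma vs_so (k : ℕ) {u v : V} (hu : u ∈ hTwo B α β) (hv : v ∈ hTwo B α β) {s : W}
    (hs : s ∈ vs B D α β one k) : D u v s ∈ vs B D α β one k := by
  suffices h : vs B D α β one k ≤ (vs B D α β one k).comap (D u v) from h hs
  clear hs
  induction k with
  | zero =>
    rw [vs, Submodule.span_singleton_le_iff_mem, Submodule.mem_comap, hinv u hu v hv]
    exact Submodule.zero_mem _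
  | succ k ih =>
    refine vs_succ_le fun z hz s hs => ?_
    rw [Submodule.mem_comap, R.comm_apply]
    have huβ : B u β = 0 := by rw [R.symm, hu.2]
    have hvβ : B v β = 0 := by rw [R.symm, hv.2]
    rw [huβ, hvβ]
    simp only [zero_smul, sub_zero, R.zero_left, zero_add]
    refine Submodule.add_mem _ (vs_succ_mem hz (ih hs)) (vs_succ_mem ?_ hs)
    exact (hTwo B α β).sub_mem ((hTwo B α β).smul_mem _ hv) ((hTwo B α β).smul_mem _ hu)

include R hββ hαβ hdeg hinv in
lemma vs_low (hlow : ∀ z ∈ hTwo B α β, D α z one = 0) (k : ℕ) {z : V} (hz : z ∈ hTwo B α β)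
    {s : W} (hs : s ∈ vs B D α β one k) : D α z s ∈ vsum B D α β one := by
  suffices h : vs B D α β one k ≤ (vsum B D α β one).comap (D α z) from h hs
  clear hs
  induction k with
  | zero =>
    rw [vs, Submodule.span_singleton_le_iff_mem, Submodule.mem_comap, hlow z hz]
    exact Submodule.zero_mem _
  | succ k ih =>
    refine vs_succ_le fun y hy s hs => ?_
    rw [Submodule.mem_comap, R.comm_apply]
    have hzβ : B z β = 0 := by rw [R.symm, hz.2]
    rw [hαβ, hzβ, hy.1, LinearMap.add_apply]
    simp only [zero_smul, sub_zero, zero_sub, one_smul]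
    rw [R.neg_right, R.smul_right, R.alt α β, smul_neg, neg_neg, LinearMap.smul_apply]
    refine Submodule.add_mem _ (vsum_raise hy (ih hs)) (Submodule.add_mem _ ?_ ?_)
    · exact vs_le_vsum k (vs_so R hinv k hz hy hs)
    · rw [vs_deg R hββ hαβ hdeg k hs]
      exact Submodule.smul_mem _ _ (Submodule.smul_mem _ _ (vs_le_vsum k hs))

include R hαα hββ hαβ hdeg hinv in
/-- the component is stable by all of `so(V)` -/
lemma vsum_stable (hlow : ∀ z ∈ hTwo B α β, D α z one = 0) (u v : V) {s : W}
    (hs : s ∈ vsum B D α β one) : D u v s ∈ vsum B D α β one := by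
  have hdec : ∀ w : V, w = B β w • α + B α w • β + proj B α β w := by
    intro w; rw [proj]; abel
  have p1 : ∀ z ∈ hTwo B α β, ∀ s ∈ vsum B D α β one, D α z s ∈ vsum B D α β one := by
    intro z hz s hs
    have : vsum B D α β one ≤ (vsum B D α β one).comap (D α z) :=
      vsum_le fun k s hs => vs_low R hββ hαβ hdeg hinv hlow k hz hs
    exact this hs
  have p2 : ∀ z ∈ hTwo B α β, ∀ s ∈ vsum B D α β one, D β z s ∈ vsum B D α β one :=
    fun z hz s hs => vsum_raise hz hs
  have p3 : ∀ s ∈ vsum B D α β one, D α β s ∈ vsum B D α β one := by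
    intro s hs
    have : vsum B D α β one ≤ (vsum B D α β one).comap (D α β) :=
      vsum_le fun k s hs => by
        rw [Submodule.mem_comap, vs_deg R hββ hαβ hdeg k hs]
        exact Submodule.smul_mem _ _ (vs_le_vsum k hs)
    exact this hs
  have p4 : ∀ z ∈ hTwo B α β, ∀ y ∈ hTwo B α β, ∀ s ∈ vsum B D α β one,
      D z y s ∈ vsum B D α β one := by
    intro z hz y hy s hs
    have : vsum B D α β one ≤ (vsum B D α β one).comap (D z y) :=
      vsum_le fun k s hs => vs_le_vsum k (vs_so R hinv k hz hy hs)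
    exact this hs
  have m1 := proj_mem R.symm hαα hββ hαβ u
  have m2 := proj_mem R.symm hαα hββ hαβ v
  have hexp : D u v s = (B β u * B α v - B α u * B β v) • D α β s
      + B β u • D α (proj B α β v) s + B α u • D β (proj B α β v) s
      - B β v • D α (proj B α β u) s - B α v • D β (proj B α β u) s
      + D (proj B α β u) (proj B α β v) s := by
    conv_lhs => rw [hdec u, hdec v]
    simp only [R.add, R.add_right, R.smul, R.smul_right, R.self, LinearMap.add_apply,
      LinearMap.smul_apply, LinearMap.zero_apply, smul_zero, R.alt α β,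
      R.alt α (proj B α β u), R.alt β (proj B α β u), LinearMap.neg_apply, smul_neg, sub_smul,
      mul_smul, smul_add]
    abel
  rw [hexp]
  exact Submodule.add_mem _ (Submodule.sub_mem _ (Submodule.sub_mem _ (Submodule.add_mem _
    (Submodule.add_mem _ (Submodule.smul_mem _ _ (p3 s hs))
      (Submodule.smul_mem _ _ (p1 _ m2 s hs))) (Submodule.smul_mem _ _ (p2 _ m2 s hs)))
    (Submodule.smul_mem _ _ (p1 _ m1 s hs))) (Submodule.smul_mem _ _ (p2 _ m1 s hs)))
    (p4 _ m1 _ m2 s hs)

include R hββ hαβ hdeg in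
/-- homogeneous elements of the component -/
lemma mem_vs_of_deg {s : W} (hs : s ∈ vsum B D α β one) {i : ℕ}
    (hi : D α β s = ((i : ℂ) - n) • s) : s ∈ vs B D α β one i := by
  have hind := Module.End.eigenspaces_iSupIndep (D α β)
  have hle : vsum B D α β one ≤ vs B D α β one i ⊔
      ⨆ μ : ℂ, ⨆ _ : μ ≠ (i : ℂ) - n, (D α β).eigenspace μ := by
    refine vsum_le fun k => ?_
    by_cases hk : k = i
    · rw [hk]; exact le_sup_left
    · refine le_trans ?_ le_sup_right
      refine le_trans ?_ (le_iSup₂ (f := fun (μ : ℂ) (_ : μ ≠ (i : ℂ) - n) =>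
        (D α β).eigenspace μ) ((k : ℂ) - n) ?_)
      · intro t ht
        exact Module.End.mem_eigenspace_iff.2 (vs_deg R hββ hαβ hdeg k ht)
      · intro h
        apply hk
        have : (k : ℂ) = i := by linear_combination h
        exact_mod_cast this
  obtain ⟨a, ha, b, hb, hab⟩ := Submodule.mem_sup.1 (hle hs)
  have hb2 : b ∈ (D α β).eigenspace ((i : ℂ) - n) := by
    have : b = s - a := by rw [← hab]; abel
    rw [this]
    exact Submodule.sub_mem _ (Module.End.mem_eigenspace_iff.2 hi)
      (Module.End.mem_eigenspace_iff.2 (vs_deg R hββ hαβ hdeg i ha))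
  have hb0 : b = 0 := (Submodule.disjoint_def.1 (hind ((i : ℂ) - n))) b hb2 hb
  rw [← hab, hb0, add_zero]; exact ha

include R hinv in
/-- `N ^ (k+1) = 0` on products of `k` classes -/
lemma vs_nilp {x y : V} (hx : x ∈ hTwo B α β) (hy : y ∈ hTwo B α β) (hxx : B x x = 0)
    (hxy0 : B x y = 0) (hyy : B y y = 0) (k : ℕ) {s : W} (hs : s ∈ vs B D α β one k) :
    (D x y ^ (k + 1)) s = 0 := by
  have hyx0 : B y x = 0 := by rw [R.symm, hxy0]
  suffices h : vs B D α β one k ≤ LinearMap.ker (D x y ^ (k + 1)) from h hs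
  clear hs
  induction k with
  | zero =>
    rw [vs, Submodule.span_singleton_le_iff_mem, LinearMap.mem_ker]
    simpa using hinv x hx y hy
  | succ k ih =>
    refine vs_succ_le fun z hz s hs => ?_
    have hxβ : B x β = 0 := by rw [R.symm, hx.2]
    have hyβ : B y β = 0 := by rw [R.symm, hy.2]
    set w : V := B x z • y - B y z • x with hw
    have c1 : ∀ t, D x y (D β z t) = D β z (D x y t) + D β w t := by
      intro t
      rw [R.comm_apply, hxβ, hyβ]
      simp only [zero_smul, sub_zero, R.zero_left, zero_add, hw]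
    have c2 : ∀ t, D x y (D β w t) = D β w (D x y t) := by
      intro t
      rw [R.comm_apply, hxβ, hyβ]
      have e1 : B x w = 0 := by simp [hw, hxx, hxy0]
      have e2 : B y w = 0 := by simp [hw, hyy, hyx0]
      rw [e1, e2]
      simp only [zero_smul, sub_zero, R.zero_left, zero_add, R.zero_right, LinearMap.zero_apply,
        add_zero]
    have c3 : ∀ (j : ℕ) t, (D x y ^ j) (D β w t) = D β w ((D x y ^ j) t) := by
      intro j
      induction j with
      | zero => intro t; simp
      | succ j ihj => intro t; rw [pow_succ', Module.End.mul_apply, ihj, c2, Module.End.mul_apply]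
    have c4 : ∀ (j : ℕ) t, (D x y ^ (j + 1)) (D β z t)
        = D β z ((D x y ^ (j + 1)) t) + ((j : ℂ) + 1) • D β w ((D x y ^ j) t) := by
      intro j
      induction j with
      | zero => intro t; simp [c1]
      | succ j ihj =>
        intro t
        have e0 : ∀ t, (D x y ^ (j + 1 + 1)) t = (D x y ^ (j + 1)) (D x y t) := by
          intro t; rw [pow_succ, Module.End.mul_apply]
        have e2 : (D x y ^ (j + 1)) t = (D x y ^ j) (D x y t) := by
          rw [pow_succ, Module.End.mul_apply]
        rw [e0, c1, map_add, ihj, c3, e0 t, e2]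
        push_cast; module
    have h0 := LinearMap.mem_ker.1 (ih hs)
    have h1 : (D x y ^ (k + 1 + 1)) s = 0 := by
      rw [pow_succ', Module.End.mul_apply, h0, map_zero]
    rw [LinearMap.mem_ker, c4, h1, h0, map_zero, map_zero, smul_zero, add_zero]

end

/-- operators induced on a quotient -/
def quotD (S : Submodule ℂ W) (D : V → V → Module.End ℂ W)
    (hS : ∀ u v, S ≤ S.comap (D u v)) (u v : V) : Module.End ℂ (W ⧸ S) :=
  S.mapQ S (D u v) (hS u v)

lemma quotD_rep (R : Rep B D) (S : Submodule ℂ W) (hS : ∀ u v, S ≤ S.comap (D u v)) :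
    Rep B (quotD S D hS) where
  add u u' v := by
    ext w; simp [quotD, R.add]
  smul c u v := by
    ext w; simp [quotD, R.smul]
  alt u v := by
    ext w; simp [quotD, R.alt u v]
  comm a b u v := by
    ext w
    have := R.comm_apply a b u v w
    simp only [quotD, LinearMap.comp_apply, Submodule.mkQ_apply, LinearMap.sub_apply,
      Module.End.mul_apply, Submodule.mapQ_apply, LinearMap.add_apply]
    rw [this]
    simp [LinearMap.add_apply]
  symm := R.symm

end Pool.Agent.H19.Nagai
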